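import Pool.Agent.TH43.LQ.Stm
import Pool.Agent.Helper923.HMertens

/-!
# Few squarefree `f ≤ F` with a large prime power `l ^ a ∣ φ(f)`, `a ≥ 2` (Rankin)
-/

set_option autoImplicit false

namespace Pool.Agent.TH43.LQ

open Finset

namespace Bad

/-- primes up to `N` -/
def Pm (N : ℕ) : Finset ℕ := (Finset.Icc 1 N).filter Nat.Prime

lemma mem_Pm {N p : ℕ} : p ∈ Pm N ↔ p ≤ N ∧ p.Prime := by
  unfold Pm
  rw [Finset.mem_filter, Finset.mem_Icc]
  exact ⟨fun h => ⟨h.1.2, h.2⟩, fun h => ⟨⟨h.2.one_lt.le, h.1⟩, h.2⟩⟩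

lemma le_prod {l : ℕ} (hl : l.Prime) {f a : ℕ} (hf : Squarefree f) (h : l ^ a ∣ f.totient)
    {β : ℝ} (hβ : 1 ≤ β) :
    β ^ a ≤ ∏ p ∈ f.primeFactors, β ^ ((p - 1).factorization l) := by
  rw [Finset.prod_pow_eq_pow_sum]
  refine pow_le_pow_right₀ hβ ?_
  have hf0 : f ≠ 0 := hf.ne_zero
  have htot : f.totient = ∏ p ∈ f.primeFactors, (p - 1) := by
    have h1 := Nat.totient_mul_prod_primeFactors f
    rw [Nat.prod_primeFactors_of_squarefree hf] at h1
    exact Nat.eq_of_mul_eq_mul_left (Nat.pos_of_ne_zero hf0) (by rw [mul_comm]; exact h1)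
  have h2 := (hl.pow_dvd_iff_le_factorization
    (Nat.totient_pos.2 (Nat.pos_of_ne_zero hf0)).ne').1 h
  rw [htot, Nat.factorization_prod (fun p hp => by
    have := (Nat.prime_of_mem_primeFactors hp).two_le
    omega)] at h2
  rwa [Finsupp.finsetSum_apply] at h2

lemma sum_sqf (g : ℕ → ℝ) (hg : ∀ p, 0 ≤ g p) (N : ℕ) :
    ∑ f ∈ (Icc 1 N).filter Squarefree, ∏ p ∈ f.primeFactors, g p ≤
      N * Real.exp (∑ p ∈ Pm N, g p / p) := by
  have hgp : ∀ p : ℕ, 0 ≤ g p / p := fun p => div_nonneg (hg p) (Nat.cast_nonneg p)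
  have h1 : ∑ f ∈ (Icc 1 N).filter Squarefree, ∏ p ∈ f.primeFactors, g p ≤
      ∑ f ∈ (Icc 1 N).filter Squarefree, (N : ℝ) * ∏ p ∈ f.primeFactors, (g p / p) := by
    refine Finset.sum_le_sum fun f hf => ?_
    rw [Finset.mem_filter, Finset.mem_Icc] at hf
    rw [Finset.prod_div_distrib]
    have h2 : ∏ p ∈ f.primeFactors, (p : ℝ) = f := by
      rw [← Nat.cast_prod, Nat.prod_primeFactors_of_squarefree hf.2]
    have hf1 : (0 : ℝ) < f := by exact_mod_cast hf.1.1
    have hfN : (f : ℝ) ≤ N := by exact_mod_cast hf.1.2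
    rw [h2, ← mul_div_assoc, le_div_iff₀ hf1, mul_comm]
    exact mul_le_mul_of_nonneg_right hfN (Finset.prod_nonneg fun p _ => hg p)
  refine h1.trans ?_
  rw [← Finset.mul_sum]
  refine mul_le_mul_of_nonneg_left ?_ (Nat.cast_nonneg N)
  calc ∑ f ∈ (Icc 1 N).filter Squarefree, ∏ p ∈ f.primeFactors, (g p / p)
      = ∑ S ∈ ((Icc 1 N).filter Squarefree).image Nat.primeFactors, ∏ p ∈ S, (g p / p) := by
        rw [Finset.sum_image]
        intro a ha b hb hab
        have ha' := (Finset.mem_filter.1 (Finset.mem_coe.1 ha)).2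
        have hb' := (Finset.mem_filter.1 (Finset.mem_coe.1 hb)).2
        rw [← Nat.prod_primeFactors_of_squarefree ha', ← Nat.prod_primeFactors_of_squarefree hb']
        exact congrArg (fun S : Finset ℕ => ∏ p ∈ S, p) hab
    _ ≤ ∑ S ∈ (Pm N).powerset, ∏ p ∈ S, (g p / p) := by
        refine Finset.sum_le_sum_of_subset_of_nonneg ?_
          (fun S _ _ => Finset.prod_nonneg fun p _ => hgp p)
        intro S hS
        rw [Finset.mem_image] at hS
        obtain ⟨f, hf, rfl⟩ := hS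
        rw [Finset.mem_filter, Finset.mem_Icc] at hf
        rw [Finset.mem_powerset]
        intro p hp
        exact mem_Pm.2 ⟨(Nat.le_of_dvd hf.1.1 (Nat.dvd_of_mem_primeFactors hp)).trans hf.1.2,
          Nat.prime_of_mem_primeFactors hp⟩
    _ = ∏ p ∈ Pm N, (1 + g p / p) := (Finset.prod_one_add _).symm
    _ ≤ ∏ p ∈ Pm N, Real.exp (g p / p) := by
        refine Finset.prod_le_prod (fun p _ => by have := hgp p; linarith) fun p _ => ?_
        rw [add_comm]
        exact Real.add_one_le_exp _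
    _ = Real.exp (∑ p ∈ Pm N, g p / p) := (Real.exp_sum _ _).symm

lemma harm (N : ℕ) : ∑ u ∈ Icc 1 N, (1 : ℝ) / u ≤ 1 + Real.log N := by
  have h := harmonic_le_one_add_log N
  rw [harmonic_eq_sum_Icc] at h
  push_cast at h
  simpa only [one_div] using h

lemma sum_prog (N M : ℕ) (hM : 1 ≤ M) :
    ∑ p ∈ (Pm N).filter (fun p => M ∣ p - 1), (1 : ℝ) / p ≤ (1 + Real.log N) / M := by
  have hM0 : (0 : ℝ) < M := by exact_mod_cast hM
  have key : ∀ p ∈ (Pm N).filter (fun p => M ∣ p - 1), 1 ≤ (p - 1) / M ∧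
      (p - 1) / M * M = p - 1 ∧ 1 ≤ p ∧ (p - 1) / M ≤ N := by
    intro p hp
    rw [Finset.mem_filter, mem_Pm] at hp
    have h2 := hp.1.2.two_le
    have h3 := Nat.div_mul_cancel hp.2
    refine ⟨?_, h3, by omega, (Nat.div_le_self _ _).trans (by omega)⟩
    by_contra h4
    have h5 : (p - 1) / M = 0 := Nat.lt_one_iff.1 (not_le.1 h4)
    rw [h5] at h3
    omega
  have h1 : ∑ p ∈ (Pm N).filter (fun p => M ∣ p - 1), (1 : ℝ) / p ≤
      ∑ p ∈ (Pm N).filter (fun p => M ∣ p - 1), (1 : ℝ) / (((p - 1) / M : ℕ) : ℝ) / M := by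
    refine Finset.sum_le_sum fun p hp => ?_
    obtain ⟨k1, k2, k3, _⟩ := key p hp
    have e : (((p - 1) / M : ℕ) : ℝ) * M = p - 1 := by
      have : (((p - 1) / M * M : ℕ) : ℝ) = ((p - 1 : ℕ) : ℝ) := by rw [k2]
      push_cast [Nat.cast_sub k3] at this
      exact this
    have k1' : (1 : ℝ) ≤ (((p - 1) / M : ℕ) : ℝ) := by exact_mod_cast k1
    rw [div_div, e]
    have : (0 : ℝ) < (p : ℝ) - 1 := by
      rw [← e]
      positivity
    exact one_div_le_one_div_of_le this (by linarith)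
  refine h1.trans ?_
  rw [← Finset.sum_div]
  refine div_le_div_of_nonneg_right ?_ hM0.le
  refine le_trans ?_ (harm N)
  calc ∑ p ∈ (Pm N).filter (fun p => M ∣ p - 1), (1 : ℝ) / (((p - 1) / M : ℕ) : ℝ)
      = ∑ u ∈ ((Pm N).filter (fun p => M ∣ p - 1)).image (fun p => (p - 1) / M),
          (1 : ℝ) / u := by
        rw [Finset.sum_image]
        intro a ha b hb hab
        obtain ⟨_, a2, a3, _⟩ := key a (Finset.mem_coe.1 ha)
        obtain ⟨_, b2, b3, _⟩ := key b (Finset.mem_coe.1 hb)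
        have hab' : (a - 1) / M = (b - 1) / M := hab
        rw [hab'] at a2
        omega
    _ ≤ ∑ u ∈ Icc 1 N, (1 : ℝ) / u := by
        refine Finset.sum_le_sum_of_subset_of_nonneg ?_ (fun u _ _ => by positivity)
        intro u hu
        rw [Finset.mem_image] at hu
        obtain ⟨p, hp, rfl⟩ := hu
        obtain ⟨k1, _, _, k4⟩ := key p hp
        exact Finset.mem_Icc.2 ⟨k1, k4⟩

lemma geo {β : ℝ} (hβ1 : 13 / 12 ≤ β) (n : ℕ) : ∑ j ∈ range n, (1 / β) ^ j ≤ 13 := by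
  have h0 : (0 : ℝ) < β := by linarith
  have h1 : 1 / β ≤ 12 / 13 := by
    rw [div_le_iff₀ h0]; linarith
  calc ∑ j ∈ range n, (1 / β) ^ j ≤ ∑ j ∈ range n, (12 / 13 : ℝ) ^ j :=
        Finset.sum_le_sum fun j _ => pow_le_pow_left₀ (by positivity) h1 j
    _ ≤ 13 := by
        rw [geom_sum_eq (by norm_num)]
        have : (0 : ℝ) ≤ (12 / 13 : ℝ) ^ n := by positivity
        rw [div_le_iff_of_neg (by norm_num)]
        linarith

lemma sum_w7 {l : ℕ} (hl : l.Prime) {β : ℝ} (hβ : β ^ 8 = l) (hβ1 : 13 / 12 ≤ β) (N : ℕ) :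
    ∑ p ∈ Pm N, (β ^ ((p - 1).factorization l)) ^ 7 * ((1 : ℝ) / p) ≤
      13 * (1 + Real.log N) := by
  have h0 : (0 : ℝ) < β := by linarith
  have hL : 0 ≤ 1 + Real.log N := by have := Real.log_natCast_nonneg N; linarith
  have h1 : ∀ p ∈ Pm N, (β ^ ((p - 1).factorization l)) ^ 7 * ((1 : ℝ) / p) ≤
      ∑ j ∈ range (N + 1), if l ^ j ∣ p - 1 then (β ^ 7) ^ j * ((1 : ℝ) / p) else 0 := by
    intro p hp
    rw [mem_Pm] at hp
    have h2 := hp.2.two_le
    have h3 : l ^ ((p - 1).factorization l) ∣ p - 1 := Nat.ordProj_dvd (p - 1) l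
    have h4 : (p - 1).factorization l < l ^ ((p - 1).factorization l) :=
      Nat.lt_pow_self hl.one_lt
    have h5 : l ^ ((p - 1).factorization l) ≤ p - 1 := Nat.le_of_dvd (by omega) h3
    have h6 : (p - 1).factorization l ∈ range (N + 1) := by
      rw [Finset.mem_range]; omega
    have h7 := Finset.single_le_sum (f := fun j =>
      if l ^ j ∣ p - 1 then (β ^ 7) ^ j * ((1 : ℝ) / p) else 0)
      (fun j _ => by split_ifs <;> positivity) h6
    refine le_trans (le_of_eq ?_) h7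
    rw [if_pos h3, ← pow_mul, ← pow_mul, mul_comm ((p - 1).factorization l) 7]
  refine (Finset.sum_le_sum h1).trans ?_
  rw [Finset.sum_comm]
  have h2 : ∀ j ∈ range (N + 1), ∑ p ∈ Pm N,
      (if l ^ j ∣ p - 1 then (β ^ 7) ^ j * ((1 : ℝ) / p) else 0) ≤
      (1 / β) ^ j * (1 + Real.log N) := by
    intro j _
    rw [← Finset.sum_filter, ← Finset.mul_sum]
    have h3 := sum_prog N (l ^ j) (Nat.one_le_pow _ _ hl.pos)
    refine (mul_le_mul_of_nonneg_left h3 (by positivity)).trans (le_of_eq ?_)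
    have e : ((l ^ j : ℕ) : ℝ) = (β ^ 8) ^ j := by rw [hβ]; push_cast; rfl
    rw [e, one_div, inv_pow]
    have : β ^ j ≠ 0 := by positivity
    field_simp
    ring
  refine (Finset.sum_le_sum h2).trans ?_
  rw [← Finset.sum_mul]
  exact mul_le_mul_of_nonneg_right (geo hβ1 _) hL

lemma sum_w {l : ℕ} (hl : l.Prime) {β K : ℝ} (hβ : β ^ 8 = l) (hβ1 : 13 / 12 ≤ β)
    (hK : 1 ≤ K) (N : ℕ) :
    ∑ p ∈ Pm N, (β ^ ((p - 1).factorization l)) ^ 6 / p ≤
      K ^ 6 * ∑ p ∈ Pm N, (1 : ℝ) / p + 13 / K * (1 + Real.log N) := by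
  have h0 : (0 : ℝ) < β := by linarith
  have hK0 : (0 : ℝ) < K := by linarith
  have h1 : ∀ p ∈ Pm N, (β ^ ((p - 1).factorization l)) ^ 6 / p ≤
      K ^ 6 * ((1 : ℝ) / p) + 1 / K * ((β ^ ((p - 1).factorization l)) ^ 7 * ((1 : ℝ) / p)) := by
    intro p _
    set w : ℝ := β ^ ((p - 1).factorization l) with hw
    have hw0 : 0 < w := by positivity
    have hp0 : (0 : ℝ) ≤ 1 / p := by positivity
    have h2 : w ^ 6 ≤ K ^ 6 + 1 / K * w ^ 7 := by
      rcases le_total w K with h | h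
      · have := pow_le_pow_left₀ hw0.le h 6
        have h3 : 0 ≤ 1 / K * w ^ 7 := by positivity
        linarith
      · have h3 : w ^ 6 ≤ 1 / K * w ^ 7 := by
          rw [one_div, inv_mul_eq_div, le_div_iff₀ hK0]
          calc w ^ 6 * K ≤ w ^ 6 * w := mul_le_mul_of_nonneg_left h (by positivity)
            _ = w ^ 7 := by ring
        have h4 : 0 ≤ K ^ 6 := by positivity
        linarith
    calc w ^ 6 / p = w ^ 6 * (1 / p) := by ring
      _ ≤ (K ^ 6 + 1 / K * w ^ 7) * (1 / p) := mul_le_mul_of_nonneg_right h2 hp0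
      _ = _ := by ring
  refine (Finset.sum_le_sum h1).trans ?_
  rw [Finset.sum_add_distrib, ← Finset.mul_sum, ← Finset.mul_sum]
  have h2 := mul_le_mul_of_nonneg_left (sum_w7 hl hβ hβ1 N) (by positivity : 0 ≤ 1 / K)
  have h3 : 1 / K * (13 * (1 + Real.log N)) = 13 / K * (1 + Real.log N) := by ring
  linarith

lemma mert (δ : ℝ) (hδ : 0 < δ) : ∃ C : ℝ, 0 ≤ C ∧ ∀ N : ℕ, 1 ≤ N →
    ∑ p ∈ Pm N, (1 : ℝ) / p ≤ δ * Real.log N + C := by
  obtain ⟨C, hC0, hC⟩ := Pool.Agent.Helper923.HMertens.mertens_ratio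
  have hl2 : (0 : ℝ) < Real.log 2 := Real.log_pos (by norm_num)
  have hc : 0 < δ * Real.log 2 := by positivity
  refine ⟨1 + C / Real.log 2 + |Real.log (δ * Real.log 2)|, by positivity, fun N hN => ?_⟩
  rcases eq_or_lt_of_le hN with h1 | h1
  · subst h1
    have : Pm 1 = ∅ := by
      rw [Finset.eq_empty_iff_forall_notMem]
      intro p hp
      rw [mem_Pm] at hp
      have := hp.2.two_le
      omega
    rw [this, Finset.sum_empty]
    simp only [Nat.cast_one, Real.log_one, mul_zero, zero_add]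
    positivity
  · have hN2 : 2 ≤ N := h1
    have h5 : ∑ p ∈ Pm N, (1 : ℝ) / p ≤
        1 / 2 + ∑ p ∈ (Finset.Ioc 2 N).filter Nat.Prime, (1 : ℝ) / p := by
      have h6 : Pm N ⊆ insert 2 ((Finset.Ioc 2 N).filter Nat.Prime) := by
        intro p hp
        rw [mem_Pm] at hp
        rw [Finset.mem_insert, Finset.mem_filter, Finset.mem_Ioc]
        rcases eq_or_lt_of_le hp.2.two_le with h8 | h8
        · left; exact h8.symm
        · right; exact ⟨⟨h8, hp.1⟩, hp.2⟩
      refine (Finset.sum_le_sum_of_subset_of_nonneg h6 (fun j _ _ => by positivity)).trans ?_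
      rw [Finset.sum_insert (by simp)]
      norm_num
    have h6 := (abs_le.1 (hC 2 N le_rfl hN2)).2
    have hlN : 0 < Real.log N := Real.log_pos (by exact_mod_cast h1)
    push_cast at h6
    have h7 : Real.log (Real.log N / Real.log 2) ≤ δ * Real.log N - 1 -
        Real.log (δ * Real.log 2) := by
      have hu : 0 < Real.log N / Real.log 2 := by positivity
      have h8 := Real.log_le_sub_one_of_pos (mul_pos hc hu)
      rw [Real.log_mul hc.ne' hu.ne'] at h8
      have h9 : δ * Real.log 2 * (Real.log N / Real.log 2) = δ * Real.log N := by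
        field_simp
      linarith
    have h8 := neg_abs_le (Real.log (δ * Real.log 2))
    linarith

end Bad

open Bad in
open Classical in
/-- **BAD** -/
theorem bad : S_BAD := by
  intro ε hε
  set K : ℝ := 1 + 52 / ε with hK
  have hK1 : 1 ≤ K := by rw [hK]; have : 0 < 52 / ε := by positivity
                         linarith
  have hK0 : 0 < K := by linarith
  have hKε : 13 / K ≤ ε / 4 := by
    rw [div_le_iff₀ hK0, hK, mul_add, mul_one]
    have : ε / 4 * (52 / ε) = 13 := by field_simp; norm_num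
    rw [this]; linarith
  obtain ⟨C, hC0, hC⟩ := mert (ε / (4 * K ^ 6)) (by positivity)
  set C1 : ℝ := K ^ 6 * C + ε / 4 with hC1
  refine ⟨(1 + 2 / ε) * Real.exp C1, by positivity, fun x F D hx hF hFx hD => ?_⟩
  have hD0 : 0 < D := by linarith
  have hx0 : (0 : ℝ) < x := by exact_mod_cast hx
  set N : ℕ := ⌊F⌋₊ with hN
  have hNF : (N : ℝ) ≤ F := Nat.floor_le (by linarith)
  have hN1 : 1 ≤ N := by rw [hN]; exact Nat.le_floor (by exact_mod_cast hF)
  have hNx : (N : ℝ) ≤ x := hNF.trans hFx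
  have hN0 : (0 : ℝ) < N := by exact_mod_cast hN1
  have hlog : Real.log N ≤ Real.log x := Real.log_le_log hN0 hNx
  have hlogN : 0 ≤ Real.log N := Real.log_natCast_nonneg N
  have hD8 : 0 < D ^ (-(1 / 8) : ℝ) := Real.rpow_pos_of_pos hD0 _
  -- the bound for one prime
  have hone : ∀ l ∈ Pm N, (((Icc 1 N).filter (fun f : ℕ => Squarefree f ∧ ∃ a : ℕ, 2 ≤ a ∧
      l ^ a ∣ f.totient ∧ D < (l : ℝ) ^ a)).card : ℝ) ≤
      (D ^ (-(1 / 8) : ℝ) * (F * Real.exp (ε / 2 * Real.log x + C1))) * (1 / l) := by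
    intro l hl
    rw [mem_Pm] at hl
    have hl0 : (0 : ℝ) < l := by exact_mod_cast hl.2.pos
    have hl2 : (2 : ℝ) ≤ l := by exact_mod_cast hl.2.two_le
    set β : ℝ := (l : ℝ) ^ (1 / 8 : ℝ) with hβd
    have hβ0 : 0 < β := Real.rpow_pos_of_pos hl0 _
    have hβ : β ^ 8 = l := by
      rw [hβd, ← Real.rpow_natCast, ← Real.rpow_mul hl0.le]
      norm_num
    have hβ1 : 13 / 12 ≤ β := by
      refine le_of_pow_le_pow_left₀ (n := 8) (by norm_num) hβ0.le ?_
      rw [hβ]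
      refine le_trans ?_ hl2
      norm_num
    have hβ1' : 1 ≤ β := by linarith
    set g : ℕ → ℝ := fun p => (β ^ ((p - 1).factorization l)) ^ 6 with hg
    have hg0 : ∀ p, 0 ≤ g p := fun p => by simp only [hg]; positivity
    have hsum : ∑ p ∈ Pm N, g p / p ≤ ε / 2 * Real.log x + C1 := by
      have h1 := sum_w hl.2 hβ hβ1 hK1 N
      have h2 := mul_le_mul_of_nonneg_left (hC N hN1) (by positivity : 0 ≤ K ^ 6)
      have h3 : K ^ 6 * (ε / (4 * K ^ 6) * Real.log N + C) = ε / 4 * Real.log N + K ^ 6 * C := by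
        field_simp
      have h4 : 13 / K * (1 + Real.log N) ≤ ε / 4 * (1 + Real.log N) :=
        mul_le_mul_of_nonneg_right hKε (by linarith)
      have h5 : ε / 2 * Real.log N ≤ ε / 2 * Real.log x :=
        mul_le_mul_of_nonneg_left hlog (by linarith)
      simp only [hg]
      linarith
    have hpt : ∀ f ∈ (Icc 1 N).filter (fun f : ℕ => Squarefree f ∧ ∃ a : ℕ, 2 ≤ a ∧
        l ^ a ∣ f.totient ∧ D < (l : ℝ) ^ a),
        (1 : ℝ) ≤ D ^ (-(1 / 8) : ℝ) * (1 / l) * ∏ p ∈ f.primeFactors, g p := by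
      intro f hf
      rw [Finset.mem_filter] at hf
      obtain ⟨_, hsq, a, ha2, hdvd, hDa⟩ := hf
      have h1 : β ^ (6 * a) ≤ ∏ p ∈ f.primeFactors, g p := by
        have h2 := pow_le_pow_left₀ (by positivity) (le_prod hl.2 hsq hdvd hβ1') 6
        rw [← pow_mul, mul_comm a 6, ← Finset.prod_pow] at h2
        exact h2
      have h2 : D ^ (1 / 8 : ℝ) ≤ β ^ a := by
        have h3 : β ^ a = ((l : ℝ) ^ a) ^ (1 / 8 : ℝ) := by
          rw [hβd, ← Real.rpow_natCast, ← Real.rpow_natCast, ← Real.rpow_mul hl0.le,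
            ← Real.rpow_mul hl0.le, mul_comm]
        rw [h3]
        exact Real.rpow_le_rpow hD0.le hDa.le (by norm_num)
      have h3 : (l : ℝ) ≤ β ^ (5 * a) := by
        rw [← hβ]
        exact pow_le_pow_right₀ hβ1' (by omega)
      have h4 : D ^ (1 / 8 : ℝ) * l ≤ ∏ p ∈ f.primeFactors, g p := by
        refine le_trans ?_ h1
        have e : 6 * a = a + 5 * a := by ring
        rw [e, pow_add]
        exact mul_le_mul h2 h3 hl0.le (by positivity)
      have h5 : D ^ (-(1 / 8) : ℝ) * (1 / l) * (D ^ (1 / 8 : ℝ) * l) = 1 := by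
        have e : D ^ (-(1 / 8) : ℝ) * D ^ (1 / 8 : ℝ) = 1 := by
          rw [← Real.rpow_add hD0]
          norm_num
        calc D ^ (-(1 / 8) : ℝ) * (1 / l) * (D ^ (1 / 8 : ℝ) * l)
            = (D ^ (-(1 / 8) : ℝ) * D ^ (1 / 8 : ℝ)) * ((1 / l) * l) := by ring
          _ = 1 := by rw [e, one_div_mul_cancel hl0.ne', mul_one]
      have h6 : 0 ≤ D ^ (-(1 / 8) : ℝ) * (1 / (l : ℝ)) := by positivity
      have h7 := mul_le_mul_of_nonneg_left h4 h6
      rw [h5] at h7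
      exact h7
    calc (((Icc 1 N).filter (fun f : ℕ => Squarefree f ∧ ∃ a : ℕ, 2 ≤ a ∧
          l ^ a ∣ f.totient ∧ D < (l : ℝ) ^ a)).card : ℝ)
        = ∑ f ∈ (Icc 1 N).filter (fun f : ℕ => Squarefree f ∧ ∃ a : ℕ, 2 ≤ a ∧
          l ^ a ∣ f.totient ∧ D < (l : ℝ) ^ a), (1 : ℝ) := by
          rw [Finset.sum_const, nsmul_eq_mul, mul_one]
      _ ≤ ∑ f ∈ (Icc 1 N).filter (fun f : ℕ => Squarefree f ∧ ∃ a : ℕ, 2 ≤ a ∧
          l ^ a ∣ f.totient ∧ D < (l : ℝ) ^ a),
            D ^ (-(1 / 8) : ℝ) * (1 / l) * ∏ p ∈ f.primeFactors, g p :=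
          Finset.sum_le_sum hpt
      _ ≤ ∑ f ∈ (Icc 1 N).filter Squarefree,
            D ^ (-(1 / 8) : ℝ) * (1 / l) * ∏ p ∈ f.primeFactors, g p := by
          refine Finset.sum_le_sum_of_subset_of_nonneg ?_ (fun f _ _ => ?_)
          · intro f hf
            rw [Finset.mem_filter] at hf ⊢
            exact ⟨hf.1, hf.2.1⟩
          · have := Finset.prod_nonneg (s := f.primeFactors) fun p _ => hg0 p
            positivity
      _ = D ^ (-(1 / 8) : ℝ) * (1 / l) *
            ∑ f ∈ (Icc 1 N).filter Squarefree, ∏ p ∈ f.primeFactors, g p := by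
          rw [Finset.mul_sum]
      _ ≤ D ^ (-(1 / 8) : ℝ) * (1 / l) * (F * Real.exp (ε / 2 * Real.log x + C1)) := by
          refine mul_le_mul_of_nonneg_left ?_ (by positivity)
          refine (sum_sqf g hg0 N).trans ?_
          exact mul_le_mul hNF (Real.exp_le_exp.2 hsum) (Real.exp_pos _).le (by linarith)
      _ = _ := by ring
  -- the union
  have hsub : (Icc 1 N).filter (fun f : ℕ => Squarefree f ∧ ∃ l a : ℕ, l.Prime ∧ 2 ≤ a ∧
      l ^ a ∣ f.totient ∧ D < (l : ℝ) ^ a) ⊆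
      (Pm N).biUnion (fun l => (Icc 1 N).filter (fun f : ℕ => Squarefree f ∧ ∃ a : ℕ, 2 ≤ a ∧
      l ^ a ∣ f.totient ∧ D < (l : ℝ) ^ a)) := by
    intro f hf
    rw [Finset.mem_filter, Finset.mem_Icc] at hf
    obtain ⟨hf1, hsq, l, a, hl, ha2, hdvd, hDa⟩ := hf
    rw [Finset.mem_biUnion]
    refine ⟨l, mem_Pm.2 ⟨?_, hl⟩, Finset.mem_filter.2
      ⟨Finset.mem_Icc.2 hf1, hsq, a, ha2, hdvd, hDa⟩⟩
    have h1 : l ^ 1 ∣ f.totient := (pow_dvd_pow l (by omega)).trans hdvd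
    rw [pow_one] at h1
    exact (Nat.le_of_dvd (Nat.totient_pos.2 hf1.1) h1).trans ((Nat.totient_le f).trans hf1.2)
  have hcard : (((Icc 1 N).filter (fun f : ℕ => Squarefree f ∧ ∃ l a : ℕ, l.Prime ∧ 2 ≤ a ∧
      l ^ a ∣ f.totient ∧ D < (l : ℝ) ^ a)).card : ℝ) ≤
      ∑ l ∈ Pm N, (((Icc 1 N).filter (fun f : ℕ => Squarefree f ∧ ∃ a : ℕ, 2 ≤ a ∧
      l ^ a ∣ f.totient ∧ D < (l : ℝ) ^ a)).card : ℝ) := by
    have h1 := (Finset.card_le_card hsub).trans Finset.card_biUnion_le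
    exact_mod_cast h1
  refine hcard.trans ((Finset.sum_le_sum hone).trans ?_)
  rw [← Finset.mul_sum]
  have hl1 : ∑ l ∈ Pm N, (1 : ℝ) / l ≤ 1 + Real.log x := by
    refine le_trans ?_ ((harm N).trans (by linarith))
    exact Finset.sum_le_sum_of_subset_of_nonneg (Finset.filter_subset _ _)
      (fun u _ _ => by positivity)
  have hlx : 0 ≤ Real.log x := Real.log_natCast_nonneg x
  have hexp : 1 + Real.log x ≤ (1 + 2 / ε) * Real.exp (ε / 2 * Real.log x) := by
    have h1 := Real.add_one_le_exp (ε / 2 * Real.log x)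
    have h2 : 0 < 2 / ε := by positivity
    have h3 : (1 + 2 / ε) * (ε / 2 * Real.log x + 1) =
        1 + Real.log x + ε / 2 * Real.log x + 2 / ε := by
      field_simp
      ring
    have h4 : 0 ≤ ε / 2 * Real.log x := by positivity
    calc 1 + Real.log x ≤ (1 + 2 / ε) * (ε / 2 * Real.log x + 1) := by rw [h3]; linarith
      _ ≤ _ := mul_le_mul_of_nonneg_left h1 (by positivity)
  have hxε : (x : ℝ) ^ ε = Real.exp (ε / 2 * Real.log x) * Real.exp (ε / 2 * Real.log x) := by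
    rw [← Real.exp_add, Real.rpow_def_of_pos hx0]
    congr 1
    ring
  calc D ^ (-(1 / 8) : ℝ) * (F * Real.exp (ε / 2 * Real.log x + C1)) * ∑ l ∈ Pm N, (1 : ℝ) / l
      ≤ D ^ (-(1 / 8) : ℝ) * (F * Real.exp (ε / 2 * Real.log x + C1)) *
        ((1 + 2 / ε) * Real.exp (ε / 2 * Real.log x)) :=
        mul_le_mul_of_nonneg_left (hl1.trans hexp) (by positivity)
    _ = (1 + 2 / ε) * Real.exp C1 * (x : ℝ) ^ ε * F * D ^ (-(1 / 8) : ℝ) := by
        rw [hxε, Real.exp_add]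
        ring

end Pool.Agent.TH43.LQ
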