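import Pool.Agent.TH43.LQ.Par

/-!
# The bound for a block, final form
-/

set_option autoImplicit false

namespace Pool.Agent.TH43.LQ

open Finset Pool.Agent.H95R2.Leh

theorem block_bd (ε : ℝ) (hε : 0 < ε) (hε1 : ε ≤ 1 / 20) : ∃ δ C X0 : ℝ, 0 < δ ∧ δ ≤ ε ∧
    0 < C ∧ 1 ≤ X0 ∧ ∀ x Y : ℕ, X0 ≤ (x : ℝ) → (x : ℝ) ^ (3 * ε / 4) ≤ Y →
      (Y : ℝ) ≤ (x : ℝ) ^ (3 / 10 : ℝ) →
      ((BQ x Y ε).card : ℝ) ≤ C * (1 + Real.log x) ^ 3 * (x : ℝ) ^ (1 / 2 - δ) := by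
  classical
  set τ : ℝ := ε / 256 with hτ
  have hτ0 : 0 < τ := by positivity
  obtain ⟨M, hM⟩ := exists_nat_ge (8 / ε)
  set κ : ℝ := τ * (1 / 2 : ℝ) ^ (2 * M + 1 + 1) / 8 with hκ
  have hκ0 : 0 < κ := by positivity
  have hκτ : κ ≤ τ / 8 := by
    have h1 : (1 / 2 : ℝ) ^ (2 * M + 1 + 1) ≤ 1 := pow_le_one₀ (by norm_num) (by norm_num)
    rw [hκ]
    nlinarith
  set δ : ℝ := κ / 2 with hδ
  have hδ0 : 0 < δ := by positivity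
  have hδτ : δ ≤ τ / 16 := by linarith
  obtain ⟨X1, hX1, hgb⟩ := good_block ε τ κ M hε hτ hM hκ
  obtain ⟨A, hA, htriv⟩ := triv_bd
  obtain ⟨C1, hC1, hsparse⟩ := sparse τ hτ0
  obtain ⟨C2, hC2, hbad⟩ := bad τ hτ0
  obtain ⟨X2, hX2, habs⟩ := absorb 3 (by norm_num) 0 (ε / 4) (by positivity)
  refine ⟨δ, 2 * A * C1 + 2 * A * C2 + 48 * A + 20, max (max X1 X2) 2, hδ0, by linarith,
    by positivity, le_trans hX1 ((le_max_left _ _).trans (le_max_left _ _)), ?_⟩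
  intro x Y hX hYlo hYhi
  have hXX1 : X1 ≤ (x : ℝ) := ((le_max_left _ _).trans (le_max_left _ _)).trans hX
  have hXX2 : X2 ≤ (x : ℝ) := ((le_max_right _ _).trans (le_max_left _ _)).trans hX
  have h2x : (2 : ℝ) ≤ (x : ℝ) := (le_max_right _ _).trans hX
  have h3 : 3 ≤ (x : ℝ) ^ (ε / 4) := by
    have := habs x hXX2
    rwa [pow_zero, mul_one] at this
  have hxn : 1 ≤ x := by
    have : (1 : ℝ) ≤ (x : ℝ) := by linarith
    exact_mod_cast this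
  have hXp : (0 : ℝ) < (x : ℝ) := by linarith
  have hX1' : (1 : ℝ) ≤ (x : ℝ) := by linarith
  have hl0 : 0 ≤ Real.log (x : ℝ) := Real.log_nonneg hX1'
  have hYlo1 : (1 : ℝ) ≤ (Y : ℝ) := (Real.one_le_rpow hX1' (by positivity)).trans hYlo
  have hY : 1 ≤ Y := by exact_mod_cast hYlo1
  have hY0 : (0 : ℝ) < Y := by linarith
  obtain ⟨F, hF⟩ : ∃ F : ℝ, F = (x : ℝ) ^ (1 / 2 + δ) / Y := ⟨_, rfl⟩
  have hF0 : 0 < F := by rw [hF]; positivity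
  have hFY : F * Y = (x : ℝ) ^ (1 / 2 + δ) := by rw [hF]; field_simp
  have hFlo : (x : ℝ) ^ (1 / 5 : ℝ) ≤ F := by
    rw [hF, le_div_iff₀ hY0]
    calc (x : ℝ) ^ (1 / 5 : ℝ) * Y ≤ (x : ℝ) ^ (1 / 5 : ℝ) * (x : ℝ) ^ (3 / 10 : ℝ) :=
          mul_le_mul_of_nonneg_left hYhi (by positivity)
      _ = (x : ℝ) ^ (1 / 2 : ℝ) := rp hXp (by norm_num)
      _ ≤ (x : ℝ) ^ (1 / 2 + δ) := Real.rpow_le_rpow_of_exponent_le hX1' (by linarith)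
  have hF1 : 1 ≤ F := (Real.one_le_rpow hX1' (by norm_num)).trans hFlo
  have hFx : F ≤ x := by
    have h1 : F ≤ (x : ℝ) ^ (1 / 2 + δ) := by
      rw [← hFY]
      exact le_mul_of_one_le_right hF0.le hYlo1
    refine h1.trans ?_
    calc (x : ℝ) ^ (1 / 2 + δ) ≤ (x : ℝ) ^ (1 : ℝ) :=
          Real.rpow_le_rpow_of_exponent_le hX1' (by linarith)
      _ = x := Real.rpow_one _
  obtain ⟨z, hz⟩ : ∃ z : ℝ, z = F * (x : ℝ) ^ (-(τ / 2)) := ⟨_, rfl⟩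
  have hz1 : 1 ≤ z := by
    rw [hz]
    calc (1 : ℝ) ≤ (x : ℝ) ^ (1 / 5 - τ / 2) := Real.one_le_rpow hX1' (by linarith)
      _ = (x : ℝ) ^ (1 / 5 : ℝ) * (x : ℝ) ^ (-(τ / 2)) := (rp hXp (by ring)).symm
      _ ≤ F * (x : ℝ) ^ (-(τ / 2)) := mul_le_mul_of_nonneg_right hFlo (by positivity)
  have hz0 : 0 < z := by linarith
  have hzF : z ≤ F := by
    rw [hz]
    have h1 : (x : ℝ) ^ (-(τ / 2)) ≤ 1 :=
      Real.rpow_le_one_of_one_le_of_nonpos hX1' (by linarith)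
    exact mul_le_of_le_one_right hF0.le h1
  have hFz : F / z = (x : ℝ) ^ (τ / 2) := by
    have hne : (x : ℝ) ^ (-(τ / 2)) ≠ 0 := (Real.rpow_pos_of_pos hXp _).ne'
    rw [div_eq_iff hz0.ne', hz]
    have h1 : (x : ℝ) ^ (τ / 2) * (x : ℝ) ^ (-(τ / 2)) = 1 := by
      rw [rp hXp (show τ / 2 + -(τ / 2) = 0 by ring), Real.rpow_zero]
    calc F = F * ((x : ℝ) ^ (τ / 2) * (x : ℝ) ^ (-(τ / 2))) := by rw [h1, mul_one]
      _ = _ := by ring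
  have hF2 : (x : ℝ) / ((Y : ℝ) ^ 2 * F ^ 2) = (x : ℝ) ^ (-(2 * δ)) := by
    have h1 : (Y : ℝ) ^ 2 * F ^ 2 = (x : ℝ) * (x : ℝ) ^ (2 * δ) := by
      calc (Y : ℝ) ^ 2 * F ^ 2 = (F * Y) ^ 2 := by ring
        _ = (x : ℝ) * (x : ℝ) ^ (2 * δ) := by
            rw [hFY, ← Real.rpow_natCast, ← Real.rpow_mul hXp.le]
            push_cast
            rw [show (1 / 2 + δ) * 2 = 1 + 2 * δ by ring, Real.rpow_add hXp, Real.rpow_one]
    rw [h1, Real.rpow_neg hXp.le]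
    have : (x : ℝ) ^ (2 * δ) ≠ 0 := (Real.rpow_pos_of_pos hXp _).ne'
    field_simp
  have hz2 : (x : ℝ) / ((Y : ℝ) ^ 2 * z ^ 2) = (x : ℝ) ^ (τ - 2 * δ) := by
    have h1 : z ^ 2 = F ^ 2 * (x : ℝ) ^ (-τ) := by
      rw [hz, mul_pow]
      congr 1
      rw [← Real.rpow_natCast, ← Real.rpow_mul hXp.le]
      congr 1
      push_cast
      ring
    have hne : (x : ℝ) ^ (-τ) ≠ 0 := (Real.rpow_pos_of_pos hXp _).ne'
    rw [h1]
    calc (x : ℝ) / ((Y : ℝ) ^ 2 * (F ^ 2 * (x : ℝ) ^ (-τ))) =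
        (x : ℝ) / ((Y : ℝ) ^ 2 * F ^ 2) * ((x : ℝ) ^ (-τ))⁻¹ := by
          field_simp
      _ = (x : ℝ) ^ (-(2 * δ)) * (x : ℝ) ^ τ := by
          rw [hF2, Real.rpow_neg hXp.le τ, inv_inv]
      _ = _ := rp hXp (by ring)
  set L : ℝ := 1 + Real.log (x : ℝ) with hL
  have hL1 : 1 ≤ L := by linarith
  have hL3 : 1 ≤ L ^ 3 := one_le_pow₀ hL1
  -- the bounds for one modulus
  obtain ⟨B1, hB1⟩ : ∃ B1 : ℝ, B1 = Y * (A * L ^ 3 * ((x : ℝ) / ((Y : ℝ) ^ 2 * z ^ 2)) + 1) :=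
    ⟨_, rfl⟩
  obtain ⟨B3, hB3⟩ : ∃ B3 : ℝ, B3 = 48 * (A * L ^ 3 * ((x : ℝ) / ((Y : ℝ) ^ 2 * F ^ 2))) * Y +
    20 * (Y * (x : ℝ) ^ (-κ)) := ⟨_, rfl⟩
  have hfloor : ∀ f : ℕ, f ≤ ⌊F⌋₊ → (f : ℝ) ≤ F := fun f hf =>
    (Nat.cast_le.2 hf).trans (Nat.floor_le hF0.le)
  have hfx : ∀ f : ℕ, f ≤ ⌊F⌋₊ → f ≤ x := fun f hf => by
    have h1 : (f : ℝ) ≤ ((x : ℕ) : ℝ) := (hfloor f hf).trans hFx
    exact Nat.cast_le.1 h1
  have hsplit := block_split x Y hxn hY ε (1 + 2 * Real.log x) F z ((x : ℝ) ^ (ε / 16))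
    (Y * (x : ℝ) ^ (-(ε / 2))) (by linarith)
    (fun n hn hLn => Pool.Agent.TH43.LK.omega_le (by have := hLn.1; omega) hn) hz1 hzF
    (Real.rpow_lt_one_of_one_lt_of_neg (by linarith) (by linarith)) (by
      have h1 : 2 * (x : ℝ) ^ (-ε) ≤ (x : ℝ) ^ (-(ε / 2)) := by
        calc 2 * (x : ℝ) ^ (-ε) ≤ (x : ℝ) ^ (ε / 4) * (x : ℝ) ^ (-ε) :=
              mul_le_mul_of_nonneg_right (by linarith) (by positivity)
          _ = (x : ℝ) ^ (-(3 * ε / 4)) := rp hXp (by ring)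
          _ ≤ _ := Real.rpow_le_rpow_of_exponent_le hX1' (by linarith)
      calc 2 * (Y : ℝ) * (x : ℝ) ^ (-ε) = Y * (2 * (x : ℝ) ^ (-ε)) := by ring
        _ ≤ _ := mul_le_mul_of_nonneg_left h1 hY0.le) (by
      calc F * (2 * Y * (x : ℝ) ^ (1 / 2 - ε)) = 2 * ((F * Y) * (x : ℝ) ^ (1 / 2 - ε)) := by ring
        _ = 2 * (x : ℝ) ^ (1 + δ - ε) := by
            rw [hFY, rp hXp (show 1 / 2 + δ + (1 / 2 - ε) = 1 + δ - ε by ring)]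
        _ < (x : ℝ) ^ (ε / 4) * (x : ℝ) ^ (1 + δ - ε) := by
            apply mul_lt_mul_of_pos_right (by linarith)
            exact Real.rpow_pos_of_pos hXp _
        _ = (x : ℝ) ^ (ε / 4 + (1 + δ - ε)) := rp hXp rfl
        _ ≤ _ := Real.rpow_le_rpow_of_exponent_le hX1' (by linarith)) B1 B1 B3
    (by
      intro f hf c
      unfold E1 at hf
      rw [mem_filter, mem_Icc] at hf
      obtain ⟨⟨hf1, hf2⟩, hf3, -⟩ := hf
      rw [hB1]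
      exact (htriv x Y f z hY hf1 (hfx f hf2) hz1 hf3).2 c)
    (by
      intro f hf c
      unfold E2 at hf
      rw [mem_filter, mem_Icc] at hf
      obtain ⟨⟨hf1, hf2⟩, hf3, -⟩ := hf
      rw [hB1]
      refine (htriv x Y f z hY hf1 (hfx f hf2) hz1 (lt_of_le_of_lt ?_ hf3)).2 c
      exact div_le_div_of_nonneg_right hzF (by linarith))
    (by
      intro f hf c
      rw [hFz] at hf
      have h1 := hgb x Y f F hXX1 hY hYlo hYhi hF hFx hf c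
      refine h1.trans ?_
      unfold E3 at hf
      rw [mem_filter, mem_Icc] at hf
      obtain ⟨⟨hf1, hf2⟩, hf3, -⟩ := hf
      have h2 := (htriv x Y f F hY hf1 (hfx f hf2) hF1 hf3).1
      rw [hB3]
      have h4 : 48 * (((x / Y ^ 2 : ℕ) : ℝ) / ((f * f.totient : ℕ) : ℝ)) * Y ≤
          48 * (A * L ^ 3 * ((x : ℝ) / ((Y : ℝ) ^ 2 * F ^ 2))) * Y := by
        apply mul_le_mul_of_nonneg_right _ hY0.le
        exact mul_le_mul_of_nonneg_left h2 (by norm_num)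
      linarith)
  refine hsplit.trans ?_
  -- simplification of `B1`
  have hB1' : B1 ≤ Y * (2 * A * L ^ 3 * (x : ℝ) ^ τ) := by
    rw [hB1, hz2]
    apply mul_le_mul_of_nonneg_left _ hY0.le
    have h1 : (x : ℝ) ^ (τ - 2 * δ) ≤ (x : ℝ) ^ τ :=
      Real.rpow_le_rpow_of_exponent_le hX1' (by linarith)
    have h2 : 1 ≤ (x : ℝ) ^ τ := Real.one_le_rpow hX1' hτ0.le
    have h4 : 1 ≤ A * L ^ 3 * (x : ℝ) ^ τ :=
      one_le_mul_of_one_le_of_one_le (one_le_mul_of_one_le_of_one_le hA hL3) h2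
    have h5 : A * L ^ 3 * (x : ℝ) ^ (τ - 2 * δ) ≤ A * L ^ 3 * (x : ℝ) ^ τ :=
      mul_le_mul_of_nonneg_left h1 (by positivity)
    linarith
  have hB10 : 0 ≤ B1 := by rw [hB1]; positivity
  have hB30 : 0 ≤ B3 := by rw [hB3]; positivity
  -- the first class
  have hE1 : ((E1 x F z (1 + 2 * Real.log x) ((x : ℝ) ^ (ε / 16))).card : ℝ) ≤
      C1 * (x : ℝ) ^ τ * F * (x : ℝ) ^ (-(8 * τ)) := by
    have h1 := hsparse x F ((x : ℝ) ^ (ε / 16)) hxn hF1 hFx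
      (Real.one_le_rpow hX1' (by positivity))
    have h2 : ((x : ℝ) ^ (ε / 16)) ^ (-(1 / 2) : ℝ) = (x : ℝ) ^ (-(8 * τ)) := by
      rw [← Real.rpow_mul hXp.le]
      congr 1
      rw [hτ]
      ring
    rw [h2] at h1
    refine le_trans ?_ h1
    apply Nat.cast_le.2
    apply card_le_card
    intro f hf
    unfold E1 at hf
    rw [mem_filter] at hf ⊢
    exact ⟨hf.1, hf.2.2⟩
  have hE2 : ((E2 F (1 + 2 * Real.log x) (Y * (x : ℝ) ^ (-(ε / 2)))).card : ℝ) ≤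
      C2 * (x : ℝ) ^ τ * F * (x : ℝ) ^ (-(8 * τ)) := by
    have hDlo : (x : ℝ) ^ (ε / 4) ≤ Y * (x : ℝ) ^ (-(ε / 2)) := by
      calc (x : ℝ) ^ (ε / 4) = (x : ℝ) ^ (3 * ε / 4) * (x : ℝ) ^ (-(ε / 2)) :=
            (rp hXp (by ring)).symm
        _ ≤ _ := mul_le_mul_of_nonneg_right hYlo (by positivity)
    have h1 := hbad x F (Y * (x : ℝ) ^ (-(ε / 2))) hxn hF1 hFx
      ((Real.one_le_rpow hX1' (by positivity)).trans hDlo)
    have h2 : (Y * (x : ℝ) ^ (-(ε / 2))) ^ (-(1 / 8) : ℝ) ≤ (x : ℝ) ^ (-(8 * τ)) := by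
      calc (Y * (x : ℝ) ^ (-(ε / 2))) ^ (-(1 / 8) : ℝ) ≤
            ((x : ℝ) ^ (ε / 4)) ^ (-(1 / 8) : ℝ) :=
            Real.rpow_le_rpow_of_nonpos (by positivity) hDlo (by norm_num)
        _ = (x : ℝ) ^ (-(8 * τ)) := by
            rw [← Real.rpow_mul hXp.le]
            congr 1
            rw [hτ]
            ring
    have h3 : C2 * (x : ℝ) ^ τ * F * (Y * (x : ℝ) ^ (-(ε / 2))) ^ (-(1 / 8) : ℝ) ≤
        C2 * (x : ℝ) ^ τ * F * (x : ℝ) ^ (-(8 * τ)) :=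
      mul_le_mul_of_nonneg_left h2 (by positivity)
    refine le_trans ?_ (h1.trans h3)
    apply Nat.cast_le.2
    apply card_le_card
    intro f hf
    unfold E2 at hf
    rw [mem_filter] at hf ⊢
    exact ⟨hf.1, hf.2.2⟩
  have hE3 : ((E3 F (1 + 2 * Real.log x) (Y * (x : ℝ) ^ (-(ε / 2))) ((x : ℝ) ^ (ε / 16))
      (F / z / (16 * (1 + 2 * Real.log x)))).card : ℝ) ≤ F := by
    have h1 : (E3 F (1 + 2 * Real.log x) (Y * (x : ℝ) ^ (-(ε / 2))) ((x : ℝ) ^ (ε / 16))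
      (F / z / (16 * (1 + 2 * Real.log x)))).card ≤ ⌊F⌋₊ := by
      unfold E3
      refine (card_filter_le _ _).trans ?_
      simp
    exact (Nat.cast_le.2 h1).trans (Nat.floor_le hF0.le)
  have hexp : ∀ Cc : ℝ, 0 ≤ Cc → Cc * (x : ℝ) ^ τ * F * (x : ℝ) ^ (-(8 * τ)) * B1 ≤
      2 * A * Cc * L ^ 3 * (x : ℝ) ^ (1 / 2 - δ) := by
    intro Cc hCc
    calc Cc * (x : ℝ) ^ τ * F * (x : ℝ) ^ (-(8 * τ)) * B1 ≤
        Cc * (x : ℝ) ^ τ * F * (x : ℝ) ^ (-(8 * τ)) * (Y * (2 * A * L ^ 3 * (x : ℝ) ^ τ)) :=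
          mul_le_mul_of_nonneg_left hB1' (by positivity)
      _ = 2 * A * Cc * L ^ 3 * ((((x : ℝ) ^ τ * (x : ℝ) ^ τ) * (x : ℝ) ^ (-(8 * τ))) *
          (F * Y)) := by ring
      _ = 2 * A * Cc * L ^ 3 * (x : ℝ) ^ (1 / 2 + δ - 6 * τ) := by
          rw [hFY, rp hXp (show τ + τ = 2 * τ by ring),
            rp hXp (show 2 * τ + -(8 * τ) = -(6 * τ) by ring),
            rp hXp (show -(6 * τ) + (1 / 2 + δ) = 1 / 2 + δ - 6 * τ by ring)]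
      _ ≤ 2 * A * Cc * L ^ 3 * (x : ℝ) ^ (1 / 2 - δ) := by
          apply mul_le_mul_of_nonneg_left _ (by positivity)
          exact Real.rpow_le_rpow_of_exponent_le hX1' (by linarith)
  have ht1 := (mul_le_mul_of_nonneg_right hE1 hB10).trans (hexp C1 hC1.le)
  have ht2 := (mul_le_mul_of_nonneg_right hE2 hB10).trans (hexp C2 hC2.le)
  have ht3 : F * B3 ≤ (48 * A + 20) * L ^ 3 * (x : ℝ) ^ (1 / 2 - δ) := by
    rw [hB3, hF2]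
    have e1 : F * (48 * (A * L ^ 3 * (x : ℝ) ^ (-(2 * δ))) * Y + 20 * (Y * (x : ℝ) ^ (-κ))) =
        48 * A * L ^ 3 * ((F * Y) * (x : ℝ) ^ (-(2 * δ))) + 20 * ((F * Y) * (x : ℝ) ^ (-κ)) := by
      ring
    rw [e1, hFY, rp hXp (show 1 / 2 + δ + -(2 * δ) = 1 / 2 - δ by ring),
      rp hXp (show 1 / 2 + δ + -κ = 1 / 2 - δ by rw [hδ]; ring)]
    have h1 : 0 ≤ (x : ℝ) ^ (1 / 2 - δ) := by positivity
    have h2 : (x : ℝ) ^ (1 / 2 - δ) ≤ L ^ 3 * (x : ℝ) ^ (1 / 2 - δ) :=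
      le_mul_of_one_le_left h1 hL3
    calc 48 * A * L ^ 3 * (x : ℝ) ^ (1 / 2 - δ) + 20 * (x : ℝ) ^ (1 / 2 - δ) ≤
        48 * A * L ^ 3 * (x : ℝ) ^ (1 / 2 - δ) + 20 * (L ^ 3 * (x : ℝ) ^ (1 / 2 - δ)) := by
          linarith
      _ = _ := by ring
  have ht3' := (mul_le_mul_of_nonneg_right hE3 hB30).trans ht3
  calc _ ≤ 2 * A * C1 * L ^ 3 * (x : ℝ) ^ (1 / 2 - δ) +
        2 * A * C2 * L ^ 3 * (x : ℝ) ^ (1 / 2 - δ) +
        (48 * A + 20) * L ^ 3 * (x : ℝ) ^ (1 / 2 - δ) := add_le_add (add_le_add ht1 ht2) ht3'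
    _ = _ := by ring

end Pool.Agent.TH43.LQ
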