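import Mathlib

/-!
# Grouping coprime factors
-/

set_option autoImplicit false

namespace Pool.Agent.TH43.LQ

/-- admissible factorisations -/
def Adm (D : ℝ) (N : ℕ) (L : List ℕ) : Prop :=
  (∀ d ∈ L, 1 ≤ d) ∧ L.Pairwise Nat.Coprime ∧ L.prod = N ∧ ∀ d ∈ L, (d : ℝ) ≤ D

theorem pair_prod (D : ℝ) (hD : 0 ≤ D) (n : ℕ) : ∀ L : List ℕ, L.length = n → (∀ d ∈ L, 1 ≤ d) →
    L.Pairwise (fun a b : ℕ => D < ((a * b : ℕ) : ℝ)) → D ^ (n / 2) ≤ (L.prod : ℝ) := by
  induction n using Nat.strong_induction_on with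
  | _ n ih =>
    intro L hn h1 h2
    match L, hn, h1, h2 with
    | [], hn, _, _ =>
      simp at hn
      subst hn
      simp
    | [a], hn, h1, _ =>
      simp at hn
      subst hn
      have := h1 a (by simp)
      simp
      exact this
    | a :: b :: L, hn, h1, h2 =>
      have hlen : L.length = n - 2 := by
        simp at hn
        omega
      have h3 : (L.Pairwise (fun a b : ℕ => D < ((a * b : ℕ) : ℝ))) :=
        (List.pairwise_cons.1 (List.pairwise_cons.1 h2).2).2
      have h4 : D < ((a * b : ℕ) : ℝ) := (List.pairwise_cons.1 h2).1 b (by simp)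
      have hn2 : 2 ≤ n := by simp at hn; omega
      have h5 := ih (n - 2) (by omega) L hlen (fun d hd => h1 d (by simp [hd])) h3
      have h6 : n / 2 = (n - 2) / 2 + 1 := by omega
      rw [h6, pow_succ, List.prod_cons, List.prod_cons]
      push_cast at h4 ⊢
      calc D ^ ((n - 2) / 2) * D ≤ (L.prod : ℝ) * (a * b) := by
            apply mul_le_mul _ h4.le hD (Nat.cast_nonneg _)
            exact_mod_cast h5
        _ = _ := by push_cast; ring

theorem adm_start (D : ℝ) (N : ℕ) (hN : 1 ≤ N)
    (hpp : ∀ l a : ℕ, l.Prime → l ^ a ∣ N → (l : ℝ) ^ a ≤ D) : ∃ L, Adm D N L := by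
  refine ⟨N.primeFactors.toList.map (fun p => p ^ N.factorization p), ?_, ?_, ?_, ?_⟩
  · intro d hd
    rw [List.mem_map] at hd
    obtain ⟨p, hp, rfl⟩ := hd
    rw [Finset.mem_toList] at hp
    exact Nat.one_le_iff_ne_zero.2 (pow_ne_zero _ (Nat.prime_of_mem_primeFactors hp).ne_zero)
  · rw [List.pairwise_map]
    have h1 : N.primeFactors.toList.Pairwise (fun a b => a ≠ b) := N.primeFactors.nodup_toList
    apply h1.imp_of_mem
    intro a b ha hb hab
    rw [Finset.mem_toList] at ha hb
    exact Nat.Coprime.pow _ _ ((Nat.coprime_primes (Nat.prime_of_mem_primeFactors ha)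
      (Nat.prime_of_mem_primeFactors hb)).2 hab)
  · rw [Finset.prod_map_toList]
    exact Nat.prod_factorization_pow_eq_self (by omega)
  · intro d hd
    rw [List.mem_map] at hd
    obtain ⟨p, hp, rfl⟩ := hd
    rw [Finset.mem_toList] at hp
    have := hpp p (N.factorization p) (Nat.prime_of_mem_primeFactors hp) (Nat.ordProj_dvd N p)
    push_cast
    exact this

theorem grouping (D : ℝ) (hD : 1 ≤ D) (N : ℕ) (hN : 1 ≤ N)
    (hpp : ∀ l a : ℕ, l.Prime → l ^ a ∣ N → (l : ℝ) ^ a ≤ D) :
    ∃ L : List ℕ, Adm D N L ∧ D ^ (L.length / 2) ≤ N := by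
  classical
  have hex : ∃ n : ℕ, ∃ L, Adm D N L ∧ L.length = n := by
    obtain ⟨L, hL⟩ := adm_start D N hN hpp
    exact ⟨L.length, L, hL, rfl⟩
  obtain ⟨L, hL, hlen⟩ := Nat.find_spec hex
  have hmin : ∀ L', Adm D N L' → L.length ≤ L'.length := by
    intro L' hL'
    rw [hlen]
    exact Nat.find_min' hex ⟨L', hL', rfl⟩
  refine ⟨L, hL, ?_⟩
  obtain ⟨h1, h2, h3, h4⟩ := hL
  have hpair : L.Pairwise (fun a b : ℕ => D < ((a * b : ℕ) : ℝ)) := by
    rw [List.pairwise_iff_forall_sublist]
    intro a b hab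
    by_contra hle
    push Not at hle
    obtain ⟨L', hL'⟩ := hab.exists_perm_append
    have hperm : L.Perm (a :: b :: L') := by simpa using hL'
    have hpw : (a :: b :: L').Pairwise Nat.Coprime :=
      (hperm.pairwise_iff (fun {x y} h => Nat.Coprime.symm h)).1 h2
    rw [List.pairwise_cons, List.pairwise_cons] at hpw
    have hadm : Adm D N ((a * b) :: L') := by
      refine ⟨?_, ?_, ?_, ?_⟩
      · intro d hd
        rw [List.mem_cons] at hd
        rcases hd with rfl | hd
        · have ha := h1 a (hperm.mem_iff.2 (by simp))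
          have hb := h1 b (hperm.mem_iff.2 (by simp))
          exact Nat.mul_pos ha hb
        · exact h1 d (hperm.mem_iff.2 (by simp [hd]))
      · rw [List.pairwise_cons]
        refine ⟨fun d hd => ?_, hpw.2.2⟩
        exact Nat.Coprime.mul_left (hpw.1 d (by simp [hd])) (hpw.2.1 d hd)
      · rw [← h3, hperm.prod_eq, List.prod_cons, List.prod_cons, List.prod_cons, mul_assoc]
      · intro d hd
        rw [List.mem_cons] at hd
        rcases hd with rfl | hd
        · exact hle
        · exact h4 d (hperm.mem_iff.2 (by simp [hd]))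
    have h5 := hmin _ hadm
    have h6 := hperm.length_eq
    simp only [List.length_cons] at h5 h6
    omega
  have h7 := pair_prod D (by linarith) L.length L rfl h1 hpair
  rwa [h3] at h7

end Pool.Agent.TH43.LQ
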