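import Pool.Agent.TH43.LQ.Crt
import Pool.Agent.TH43.LQ.Grp
import Pool.Agent.TH43.LK.Box
import Pool.Agent.W591.GM.Fej

/-!
# Short sums of Kloosterman fractions to factorable moduli, and the count of points
-/

set_option autoImplicit false

namespace Pool.Agent.TH43.LQ

open Finset

theorem Gam_le {q : ℕ} [NeZero q] (k : ℕ) (g : ZMod q → ℂ) (B : ℝ) (h : Hk k g ≤ B) :
    Gam k g ≤ B ^ ((1 / 2 : ℝ) ^ (k + 1)) := by
  have h1 := (Gam_pow k g).trans h
  have h2 := Gam_nonneg k g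
  have h3 : (1 / 2 : ℝ) ^ (k + 1) = (((2 ^ (k + 1) : ℕ) : ℝ))⁻¹ := by
    push_cast
    rw [one_div, inv_pow]
  rw [h3]
  have h4 : Gam k g = (Gam k g ^ (2 ^ (k + 1))) ^ ((((2 ^ (k + 1) : ℕ) : ℝ))⁻¹) :=
    (Real.pow_rpow_inv_natCast h2 (by positivity)).symm
  rw [h4]
  exact Real.rpow_le_rpow (by positivity) h1 (by positivity)

theorem expsum (hG : S_GOW) (K q0 : ℕ) [NeZero q0] (hsf : Squarefree q0) (L : List ℕ) (D : ℝ)
    (N' : ℕ) (hL : Adm D N' L) (hcop : Nat.Coprime N' q0) (hlen : L.length ≤ K) (hD : 1 ≤ D)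
    (w c a : ℤ) (N : ℕ) (hN : 1 ≤ N) (hη : D * q0 / N ≤ 1) [NeZero (q0 * N')] :
    ‖∑ t ∈ range N, gg (q0 * N') (w : ZMod (q0 * N')) (c : ZMod (q0 * N'))
      (((a + t : ℤ)) : ZMod (q0 * N'))‖ ≤
      N * ((2 ^ ((K + 2) * q0.primeFactors.card) * (Int.gcd (q0 : ℤ) w : ℝ) / q0) ^
        ((1 / 2 : ℝ) ^ (K + 1)) + 4 * (D * q0 / N) ^ ((1 / 2 : ℝ) ^ K)) := by
  obtain ⟨h1, h2, h3, h4⟩ := hL
  subst h3
  have hq0 : 0 < q0 := Nat.pos_of_ne_zero (NeZero.ne q0)
  have hq : (0 : ℝ) < q0 := by exact_mod_cast hq0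
  have hN0 : (0 : ℝ) < N := by exact_mod_cast hN
  have hη0 : 0 < D * q0 / N := by positivity
  set B : ℝ := 2 ^ ((K + 2) * q0.primeFactors.card) * (Int.gcd (q0 : ℤ) w : ℝ) / q0 with hB
  have hB0 : 0 ≤ B := by positivity
  have hBK : 0 ≤ 4 * (D * q0 / N) ^ ((1 / 2 : ℝ) ^ K) := by positivity
  rcases le_or_gt 1 B with hB1 | hB1
  · have h5 : ‖∑ t ∈ range N, gg (q0 * L.prod) (w : ZMod (q0 * L.prod)) (c : ZMod (q0 * L.prod))
        (((a + t : ℤ)) : ZMod (q0 * L.prod))‖ ≤ N := by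
      refine (norm_sum_le _ _).trans ?_
      refine (Finset.sum_le_sum fun t _ => gg_norm _ _ _ _).trans ?_
      simp
    have h6 : 1 ≤ B ^ ((1 / 2 : ℝ) ^ (K + 1)) := Real.one_le_rpow hB1 (by positivity)
    nlinarith
  · have hcop' : ∀ d ∈ L, Nat.Coprime d q0 := fun d hd =>
      Nat.Coprime.coprime_dvd_left (List.dvd_prod hd) hcop
    obtain ⟨w0, l, hl1, hl2, hl3, hl4⟩ := factor L q0 h1 h2 hcop' D h4 w c
    have h5 : ∀ t ∈ range N, gg (q0 * L.prod) (w : ZMod (q0 * L.prod)) (c : ZMod (q0 * L.prod))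
        (((a + t : ℤ)) : ZMod (q0 * L.prod)) =
        gg q0 (w0 : ZMod q0) (c : ZMod q0) (((a + t : ℤ)) : ZMod q0) * PhiL l (a + t) :=
      fun t _ => hl4 (a + t)
    rw [Finset.sum_congr rfl h5]
    refine (vdc D hD l.length l rfl hl2 (gg q0 (w0 : ZMod q0) (c : ZMod q0))
      (fun t => gg_norm _ _ _ _) a N hN hη).trans ?_
    apply mul_le_mul_of_nonneg_left _ hN0.le
    rw [hl1]
    have h6 := hG L.length q0 hsf w0 (c : ZMod q0)
    rw [hl3] at h6
    have h7 : (2 : ℝ) ^ ((L.length + 2) * q0.primeFactors.card) * (Int.gcd (q0 : ℤ) w : ℝ) / q0 ≤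
        B := by
      rw [hB]
      apply div_le_div_of_nonneg_right _ hq.le
      apply mul_le_mul_of_nonneg_right _ (Nat.cast_nonneg _)
      apply pow_le_pow_right₀ (by norm_num)
      apply Nat.mul_le_mul_right
      omega
    have h8 := Gam_le L.length _ B (h6.trans h7)
    have hBpos : 0 < B := by
      have : 0 < Int.gcd (q0 : ℤ) w := Int.gcd_pos_of_ne_zero_left _ (by exact_mod_cast hq0.ne')
      rw [hB]
      have h9 : (0 : ℝ) < (Int.gcd (q0 : ℤ) w : ℝ) := by exact_mod_cast this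
      positivity
    have h10 : B ^ ((1 / 2 : ℝ) ^ (L.length + 1)) ≤ B ^ ((1 / 2 : ℝ) ^ (K + 1)) := by
      apply Real.rpow_le_rpow_of_exponent_ge hBpos hB1.le
      exact pow_le_pow_of_le_one (by norm_num) (by norm_num) (by omega)
    have h11 : (D * q0 / N) ^ ((1 / 2 : ℝ) ^ L.length) ≤ (D * q0 / N) ^ ((1 / 2 : ℝ) ^ K) := by
      apply Real.rpow_le_rpow_of_exponent_ge hη0 hη
      exact pow_le_pow_of_le_one (by norm_num) (by norm_num) hlen
    linarith

/-- points on the modular hyperbola from exponential sums -/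
theorem NN_exp (q : ℕ) [NeZero q] (c : ZMod q) (t₀ : ℤ) (S N : ℕ) (hS : 1 ≤ S) (E : ℝ)
    (hE0 : 0 ≤ E) (hE : ∀ h : ℤ, h ≠ 0 → 6 * (S : ℤ) * |h| ≤ q →
      ‖∑ t ∈ range N, gg q (h : ZMod q) c (((t₀ + t : ℤ)) : ZMod q)‖ ≤ E) :
    (Pool.Agent.TH43.LK.NN q c 1 t₀ S N : ℝ) ≤ 48 * ((S : ℝ) / q) * N + 4 * E := by
  classical
  set J : Finset ℕ := (range N).filter (fun j : ℕ => IsUnit (c - (((t₀ + j : ℤ)) : ZMod q))) with hJ
  set wv : ℕ → ZMod q := fun j => (c - (((t₀ + j : ℤ)) : ZMod q))⁻¹ with hwv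
  have h1 := Pool.Agent.W591.GM.lemmaF J wv 1 S hS E hE0 (by
    intro h hh hle
    have h2 := hE h hh hle
    have h3 : ∑ a ∈ J, (ZMod.stdAddChar ((h : ZMod q) * wv a) : ℂ) =
        ∑ t ∈ range N, gg q (h : ZMod q) c (((t₀ + t : ℤ)) : ZMod q) := by
      rw [hJ, sum_filter]
      refine Finset.sum_congr rfl fun t _ => ?_
      unfold gg
      split_ifs <;> rfl
    rw [h3]
    exact h2)
  have h4 : (Pool.Agent.TH43.LK.NN q c 1 t₀ S N : ℝ) ≤
      ∑ a ∈ J, (((Ico (1 : ℤ) (1 + S)).filter (fun t : ℤ => (t : ZMod q) = wv a)).card : ℝ) := by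
    have h5 : Pool.Agent.TH43.LK.NN q c 1 t₀ S N ≤
        ∑ a ∈ J, ((Ico (1 : ℤ) (1 + S)).filter (fun t : ℤ => (t : ZMod q) = wv a)).card := by
      unfold Pool.Agent.TH43.LK.NN
      rw [Finset.card_filter, Finset.sum_product, Finset.sum_comm]
      rw [hJ, sum_filter]
      apply Finset.sum_le_sum
      intro j _
      rw [← Finset.card_filter]
      by_cases hu : IsUnit (c - (((t₀ + j : ℤ)) : ZMod q))
      · rw [if_pos hu]
        apply Finset.card_le_card_of_injOn (fun i : ℕ => (1 : ℤ) + i)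
        · intro i hi
          rw [Finset.mem_coe, mem_filter, mem_range] at hi
          rw [Finset.mem_coe, mem_filter, mem_Ico]
          refine ⟨⟨by show (1 : ℤ) ≤ 1 + i; omega, by show (1 : ℤ) + i < 1 + S; omega⟩, ?_⟩
          have h6 : (c - (((t₀ + j : ℤ)) : ZMod q)) * wv j = 1 := ZMod.mul_inv_of_unit _ hu
          have h7 : (c - (((t₀ + j : ℤ)) : ZMod q)) * ((((1 : ℤ) + i : ℤ)) : ZMod q) = 1 := by
            rw [mul_comm]
            exact hi.2
          exact hu.mul_left_cancel (h7.trans h6.symm)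
        · intro i _ i' _ hii
          simp only at hii
          omega
      · rw [if_neg hu]
        rw [Nat.le_zero, Finset.card_eq_zero, filter_eq_empty_iff]
        intro i _ hi
        apply hu
        exact IsUnit.of_mul_eq_one _ (by rw [mul_comm]; exact hi)
    exact_mod_cast h5
  refine h4.trans (h1.trans ?_)
  have h8 : (J.card : ℝ) ≤ N := by
    have : J.card ≤ (range N).card := card_filter_le _ _
    rw [card_range] at this
    exact_mod_cast this
  have h9 : 48 * ((S : ℝ) / q) * J.card ≤ 48 * ((S : ℝ) / q) * N :=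
    mul_le_mul_of_nonneg_left h8 (by positivity)
  linarith

end Pool.Agent.TH43.LQ
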