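import Pool.Agent.TH43.LQ.Vdc
import Pool.Agent.H442R2.KF.Weil

/-!
# Factorisation of Kloosterman fractions, grouping of prime powers
-/

set_option autoImplicit false

namespace Pool.Agent.TH43.LQ

open Finset Pool.Agent.H442R2.KF.TaskB

theorem gg_norm (q : ℕ) [NeZero q] (w c t : ZMod q) : ‖gg q w c t‖ ≤ 1 := by
  unfold gg
  split_ifs
  · exact (AddChar.norm_apply _ _).le
  · simp

theorem gg_crt (q1 q2 : ℕ) [NeZero q1] [NeZero q2] [NeZero (q1 * q2)] (h : Nat.Coprime q1 q2)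
    (α β : ℤ) (hαβ : α * q2 + β * q1 = 1) (w c t : ℤ) :
    gg (q1 * q2) (w : ZMod (q1 * q2)) (c : ZMod (q1 * q2)) (t : ZMod (q1 * q2)) =
      gg q1 ((α * w : ℤ) : ZMod q1) (c : ZMod q1) (t : ZMod q1) *
        gg q2 ((β * w : ℤ) : ZMod q2) (c : ZMod q2) (t : ZMod q2) := by
  classical
  set e := ZMod.chineseRemainder h with he
  have e1 : ∀ j : ℤ, e ((j : ℤ) : ZMod (q1 * q2)) = ((j : ZMod q1), (j : ZMod q2)) := by
    intro j
    rw [map_intCast]
    rfl
  have hct : e ((c : ZMod (q1 * q2)) - (t : ZMod (q1 * q2))) =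
      ((c : ZMod q1) - (t : ZMod q1), (c : ZMod q2) - (t : ZMod q2)) := by
    rw [map_sub, e1, e1]
    rfl
  have hu : IsUnit ((c : ZMod (q1 * q2)) - (t : ZMod (q1 * q2))) ↔
      IsUnit ((c : ZMod q1) - (t : ZMod q1)) ∧ IsUnit ((c : ZMod q2) - (t : ZMod q2)) := by
    constructor
    · intro hh
      have h1 : IsUnit (e ((c : ZMod (q1 * q2)) - (t : ZMod (q1 * q2)))) := hh.map e
      rw [hct, Prod.isUnit_iff] at h1
      exact h1
    · intro hh
      have h1 : IsUnit (e ((c : ZMod (q1 * q2)) - (t : ZMod (q1 * q2)))) := by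
        rw [hct, Prod.isUnit_iff]
        exact hh
      have h2 := h1.map e.symm
      rwa [RingEquiv.symm_apply_apply] at h2
  unfold gg
  by_cases hh : IsUnit ((c : ZMod (q1 * q2)) - (t : ZMod (q1 * q2)))
  · obtain ⟨h1, h2⟩ := hu.1 hh
    rw [if_pos hh, if_pos h1, if_pos h2]
    rw [char_crt q1 q2 h α β hαβ]
    have hinv : e (((c : ZMod (q1 * q2)) - (t : ZMod (q1 * q2)))⁻¹) =
        (((c : ZMod q1) - (t : ZMod q1))⁻¹, ((c : ZMod q2) - (t : ZMod q2))⁻¹) := by
      have h3 : e ((c : ZMod (q1 * q2)) - (t : ZMod (q1 * q2))) *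
          e (((c : ZMod (q1 * q2)) - (t : ZMod (q1 * q2)))⁻¹) = 1 := by
        rw [← map_mul, ZMod.mul_inv_of_unit _ hh, map_one]
      rw [hct] at h3
      have h4 := congrArg Prod.fst h3
      have h5 := congrArg Prod.snd h3
      rw [Prod.fst_mul, Prod.fst_one] at h4
      rw [Prod.snd_mul, Prod.snd_one] at h5
      apply Prod.ext
      · have h6 := ZMod.mul_inv_of_unit _ h1
        exact h1.mul_left_cancel (h4.trans h6.symm)
      · have h6 := ZMod.mul_inv_of_unit _ h2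
        exact h2.mul_left_cancel (h5.trans h6.symm)
    have hz : e ((w : ZMod (q1 * q2)) * ((c : ZMod (q1 * q2)) - (t : ZMod (q1 * q2)))⁻¹) =
        ((w : ZMod q1), (w : ZMod q2)) *
          (((c : ZMod q1) - (t : ZMod q1))⁻¹, ((c : ZMod q2) - (t : ZMod q2))⁻¹) := by
      rw [← hinv, ← e1 w]
      exact map_mul e _ _
    rw [← he, hz]
    simp only [Prod.fst_mul, Prod.snd_mul]
    congr 2
    · push_cast
      ring
    · push_cast
      ring
  · rw [if_neg hh]
    by_cases h1 : IsUnit ((c : ZMod q1) - (t : ZMod q1))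
    · rw [if_pos h1, if_neg (fun h2 => hh (hu.2 ⟨h1, h2⟩)), mul_zero]
    · rw [if_neg h1, zero_mul]

theorem gg_per (d : ℕ) [NeZero d] (w c : ZMod d) : Per d (fun t : ℤ => gg d w c (t : ZMod d)) := by
  refine ⟨fun t => gg_norm d w c _, fun t => ?_⟩
  simp

/-- the full factorisation -/
theorem factor (L : List ℕ) : ∀ (q0 : ℕ) [NeZero q0], (∀ d ∈ L, 1 ≤ d) → L.Pairwise Nat.Coprime →
    (∀ d ∈ L, Nat.Coprime d q0) → ∀ (D : ℝ), (∀ d ∈ L, (d : ℝ) ≤ D) → ∀ (w c : ℤ),
    ∃ (w0 : ℤ) (l : List (ℕ × (ℤ → ℂ))), l.length = L.length ∧ Good q0 D l ∧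
      Int.gcd q0 w0 = Int.gcd q0 w ∧ ∀ [NeZero (q0 * L.prod)], ∀ t : ℤ,
      gg (q0 * L.prod) (w : ZMod (q0 * L.prod)) (c : ZMod (q0 * L.prod))
        (t : ZMod (q0 * L.prod)) =
        gg q0 (w0 : ZMod q0) (c : ZMod q0) (t : ZMod q0) * PhiL l t := by
  induction L with
  | nil =>
    intro q0 _ _ _ _ D _ w c
    refine ⟨w, [], rfl, fun e he => absurd he (by simp), rfl, ?_⟩
    intro _ t
    have h1 : ∀ (n : ℕ) [NeZero n], n = q0 →
        gg n (w : ZMod n) (c : ZMod n) (t : ZMod n) = gg q0 (w : ZMod q0) (c : ZMod q0) (t : ZMod q0) := by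
      intro n _ hn
      subst hn
      rfl
    rw [h1 (q0 * ([] : List ℕ).prod) (by simp)]
    simp [PhiL]
  | cons d L ih =>
    intro q0 _ h1 h2 h3 D h4 w c
    have hd1 : 1 ≤ d := h1 d (by simp)
    have : NeZero d := ⟨by omega⟩
    rw [List.pairwise_cons] at h2
    have hLpos : 1 ≤ L.prod := by
      apply Nat.one_le_iff_ne_zero.2
      rw [Ne, List.prod_eq_zero_iff]
      intro h
      have := h1 0 (by simp [h])
      omega
    have hcopdL : Nat.Coprime d L.prod := Nat.coprime_list_prod_right_iff.2 (fun n hn => h2.1 n hn)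
    have hcopdq : Nat.Coprime d q0 := h3 d (by simp)
    have hcop : Nat.Coprime (q0 * L.prod) d := by
      apply Nat.Coprime.mul_left hcopdq.symm hcopdL.symm
    have : NeZero (q0 * L.prod) := ⟨by
      have := NeZero.ne q0
      positivity⟩
    obtain ⟨α, β, hαβ⟩ : ∃ α β : ℤ, α * d + β * ((q0 * L.prod : ℕ) : ℤ) = 1 := by
      have h5 : IsCoprime (d : ℤ) ((q0 * L.prod : ℕ) : ℤ) := Nat.isCoprime_iff_coprime.mpr hcop.symm
      obtain ⟨x, y, hxy⟩ := h5
      exact ⟨x, y, hxy⟩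
    obtain ⟨w0, l, hl1, hl2, hl3, hl4⟩ := ih q0 (fun d' hd' => h1 d' (by simp [hd'])) h2.2
      (fun d' hd' => h3 d' (by simp [hd'])) D (fun d' hd' => h4 d' (by simp [hd'])) (α * w) c
    refine ⟨w0, (d, fun t : ℤ => gg d ((β * w : ℤ) : ZMod d) (c : ZMod d) (t : ZMod d)) :: l,
      by simp [hl1], ?_, ?_, ?_⟩
    · intro e he
      rw [List.mem_cons] at he
      rcases he with rfl | he
      · exact ⟨gg_per d _ _, hcopdq, h4 d (by simp)⟩
      · exact hl2 e he
    · rw [hl3]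
      have h6 : IsCoprime (q0 : ℤ) α := by
        refine ⟨β * L.prod, d, ?_⟩
        rw [Nat.cast_mul] at hαβ
        linarith
      have h7 : Int.gcd (q0 : ℤ) α = 1 := Int.isCoprime_iff_gcd_eq_one.1 h6
      rw [mul_comm α w]
      exact Int.gcd_mul_left_right_of_gcd_eq_one h7
    · intro _ t
      have h8 : ∀ (n : ℕ) [NeZero n], n = (q0 * L.prod) * d →
          gg n (w : ZMod n) (c : ZMod n) (t : ZMod n) =
          gg q0 (w0 : ZMod q0) (c : ZMod q0) (t : ZMod q0) *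
            (gg d ((β * w : ℤ) : ZMod d) (c : ZMod d) (t : ZMod d) * PhiL l t) := by
        intro n _ hn
        subst hn
        rw [gg_crt (q0 * L.prod) d hcop α β hαβ w c t, hl4 t]
        ring
      rw [h8 (q0 * (d :: L).prod) (by rw [List.prod_cons]; ring)]
      simp [PhiL]

end Pool.Agent.TH43.LQ
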