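import Pool.Agent.TH43.LQ.Stm

/-!
# Elementary bound for the Gowers norms of Kloosterman fractions modulo a squarefree number
-/

set_option autoImplicit false

namespace Pool.Agent.TH43.LQ

open Finset

namespace Gow

section basic

variable {q : ℕ} [NeZero q]

theorem Hk_succ (k : ℕ) (g : ZMod q → ℂ) :
    Hk (k + 1) g = (q : ℝ)⁻¹ * ∑ v : ZMod q, Hk k (Dl v g) := rfl

theorem Hk_zero (g : ZMod q → ℂ) : Hk 0 g = ‖av g‖ ^ 2 := rfl

theorem Hk_nonneg (k : ℕ) (g : ZMod q → ℂ) : 0 ≤ Hk k g := by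
  induction k generalizing g with
  | zero => exact sq_nonneg _
  | succ k ih =>
    rw [Hk_succ]
    exact mul_nonneg (by positivity) (Finset.sum_nonneg fun v _ => ih (Dl v g))

omit [NeZero q] in
theorem Dl_norm {g : ZMod q → ℂ} (h : ∀ t, ‖g t‖ ≤ 1) (v t : ZMod q) : ‖Dl v g t‖ ≤ 1 := by
  unfold Dl
  rw [norm_mul, RCLike.norm_conj]
  exact mul_le_one₀ (h _) (norm_nonneg _) (h _)

theorem Hk_le_one (k : ℕ) (g : ZMod q → ℂ) (h : ∀ t, ‖g t‖ ≤ 1) : Hk k g ≤ 1 := by
  have hq : (0 : ℝ) < q := Nat.cast_pos.2 (NeZero.pos q)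
  induction k generalizing g with
  | zero =>
    have h1 : ‖av g‖ ≤ 1 := by
      unfold av
      rw [norm_mul, norm_inv, Complex.norm_natCast, inv_mul_le_iff₀ hq, mul_one]
      refine (norm_sum_le _ _).trans ?_
      refine (Finset.sum_le_sum fun t _ => h t).trans ?_
      simp [ZMod.card]
    exact pow_le_one₀ (norm_nonneg _) h1
  | succ k ih =>
    rw [Hk_succ, inv_mul_le_iff₀ hq, mul_one]
    refine (Finset.sum_le_sum fun v _ => ih (Dl v g) (Dl_norm h v)).trans ?_
    simp [ZMod.card]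

theorem Hk_trans (k : ℕ) (g : ZMod q → ℂ) (a : ZMod q) : Hk k (fun t => g (t + a)) = Hk k g := by
  induction k generalizing g with
  | zero =>
    rw [Hk_zero, Hk_zero]
    unfold av
    have h := Equiv.sum_comp (Equiv.addRight a) g
    simp only [Equiv.coe_addRight] at h
    rw [h]
  | succ k ih =>
    rw [Hk_succ, Hk_succ]
    congr 1
    refine Finset.sum_congr rfl fun v _ => ?_
    rw [← ih (Dl v g)]
    congr 1
    funext t
    unfold Dl
    rw [add_right_comm]

theorem Hk_dil (k : ℕ) (g : ZMod q → ℂ) (l : (ZMod q)ˣ) :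
    Hk k (fun t => g ((l : ZMod q) * t)) = Hk k g := by
  induction k generalizing g with
  | zero =>
    rw [Hk_zero, Hk_zero]
    unfold av
    have h := Equiv.sum_comp (Units.mulLeft l) g
    simp only [Units.mulLeft_apply] at h
    rw [h]
  | succ k ih =>
    rw [Hk_succ, Hk_succ]
    congr 1
    have h := Equiv.sum_comp (Units.mulLeft l) fun v => Hk k (Dl v g)
    simp only [Units.mulLeft_apply] at h
    rw [← h]
    refine Finset.sum_congr rfl fun v _ => ?_
    rw [← ih (Dl ((l : ZMod q) * v) g)]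
    congr 1
    funext t
    unfold Dl
    simp only [mul_add]

end basic

/-! ### multiplicativity -/

section mult

variable (q1 q2 : ℕ) [NeZero q1] [NeZero q2] [NeZero (q1 * q2)] (h : Nat.Coprime q1 q2)

theorem av_mul (g1 : ZMod q1 → ℂ) (g2 : ZMod q2 → ℂ) :
    av (fun t : ZMod (q1 * q2) => g1 (ZMod.chineseRemainder h t).1 *
      g2 (ZMod.chineseRemainder h t).2) = av g1 * av g2 := by
  unfold av
  have h1 := Equiv.sum_comp (ZMod.chineseRemainder h).toEquiv
    fun x : ZMod q1 × ZMod q2 => g1 x.1 * g2 x.2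
  have h2 : ∑ t : ZMod (q1 * q2), g1 (ZMod.chineseRemainder h t).1 *
      g2 (ZMod.chineseRemainder h t).2 = (∑ t, g1 t) * ∑ t, g2 t := by
    refine h1.trans ?_
    rw [Fintype.sum_prod_type, Finset.sum_mul_sum]
  rw [h2]
  push_cast
  rw [mul_inv]
  ring

theorem Hk_mul (k : ℕ) (g1 : ZMod q1 → ℂ) (g2 : ZMod q2 → ℂ) :
    Hk k (fun t : ZMod (q1 * q2) => g1 (ZMod.chineseRemainder h t).1 *
      g2 (ZMod.chineseRemainder h t).2) = Hk k g1 * Hk k g2 := by
  induction k generalizing g1 g2 with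
  | zero =>
    rw [Hk_zero, av_mul, norm_mul, mul_pow]
    rfl
  | succ k ih =>
    rw [Hk_succ, Hk_succ, Hk_succ]
    have h1 : ∀ v : ZMod (q1 * q2), Hk k (Dl v (fun t : ZMod (q1 * q2) =>
        g1 (ZMod.chineseRemainder h t).1 * g2 (ZMod.chineseRemainder h t).2)) =
        Hk k (Dl (ZMod.chineseRemainder h v).1 g1) *
          Hk k (Dl (ZMod.chineseRemainder h v).2 g2) := by
      intro v
      rw [← ih]
      congr 1
      funext t
      unfold Dl
      simp only [map_add, map_mul, Prod.fst_add, Prod.snd_add]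
      ring
    simp only [h1]
    have h2 := Equiv.sum_comp (ZMod.chineseRemainder h).toEquiv
      fun x : ZMod q1 × ZMod q2 => Hk k (Dl x.1 g1) * Hk k (Dl x.2 g2)
    have h3 : ∑ v : ZMod (q1 * q2), Hk k (Dl (ZMod.chineseRemainder h v).1 g1) *
          Hk k (Dl (ZMod.chineseRemainder h v).2 g2) =
        (∑ v, Hk k (Dl v g1)) * ∑ v, Hk k (Dl v g2) := by
      refine h2.trans ?_
      rw [Fintype.sum_prod_type, Finset.sum_mul_sum]
    rw [h3]
    push_cast
    rw [mul_inv]
    ring

theorem char_crt (α β : ℤ) (hαβ : α * q2 + β * q1 = 1) (z : ZMod (q1 * q2)) :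
    (ZMod.stdAddChar z : ℂ) =
      ZMod.stdAddChar ((α : ZMod q1) * (ZMod.chineseRemainder h z).1) *
        ZMod.stdAddChar ((β : ZMod q2) * (ZMod.chineseRemainder h z).2) := by
  obtain ⟨j, rfl⟩ := ZMod.intCast_surjective z
  have e : ZMod.chineseRemainder h ((j : ℤ) : ZMod (q1 * q2)) = ((j : ZMod q1), (j : ZMod q2)) := by
    rw [map_intCast]
    rfl
  rw [e]
  have e1 : ((α : ZMod q1) * (j : ZMod q1)) = ((α * j : ℤ) : ZMod q1) := by push_cast; ring
  have e2 : ((β : ZMod q2) * (j : ZMod q2)) = ((β * j : ℤ) : ZMod q2) := by push_cast; ring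
  rw [e1, e2, ZMod.stdAddChar_coe, ZMod.stdAddChar_coe, ZMod.stdAddChar_coe, ← Complex.exp_add]
  congr 1
  have n1 : (q1 : ℂ) ≠ 0 := by exact_mod_cast NeZero.ne q1
  have n2 : (q2 : ℂ) ≠ 0 := by exact_mod_cast NeZero.ne q2
  have h3 : (α : ℂ) * q2 + β * q1 = 1 := by exact_mod_cast hαβ
  push_cast
  field_simp
  linear_combination (-(j : ℂ)) * h3

theorem eq_inv_of_mul {n : ℕ} {y z : ZMod n} (hyz : y * z = 1) : z = y⁻¹ := by
  have hu : IsUnit y := IsUnit.of_mul_eq_one _ hyz
  calc z = (y⁻¹ * y) * z := by rw [ZMod.inv_mul_of_unit y hu, one_mul]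
    _ = y⁻¹ := by rw [mul_assoc, hyz, mul_one]

theorem gg_mul (α β : ℤ) (hαβ : α * q2 + β * q1 = 1) (w : ℤ) (c : ZMod (q1 * q2)) :
    gg (q1 * q2) (w : ZMod (q1 * q2)) c = fun t : ZMod (q1 * q2) =>
      gg q1 ((α * w : ℤ) : ZMod q1) (ZMod.chineseRemainder h c).1 (ZMod.chineseRemainder h t).1 *
      gg q2 ((β * w : ℤ) : ZMod q2) (ZMod.chineseRemainder h c).2 (ZMod.chineseRemainder h t).2 := by
  classical
  funext t
  have hu : IsUnit (c - t) ↔ IsUnit ((ZMod.chineseRemainder h c).1 - (ZMod.chineseRemainder h t).1) ∧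
      IsUnit ((ZMod.chineseRemainder h c).2 - (ZMod.chineseRemainder h t).2) := by
    rw [← MulEquiv.isUnit_map (ZMod.chineseRemainder h).toMulEquiv, Prod.isUnit_iff]
    have : (ZMod.chineseRemainder h).toMulEquiv (c - t) =
        ZMod.chineseRemainder h c - ZMod.chineseRemainder h t := map_sub (ZMod.chineseRemainder h) c t
    rw [this]
    rfl
  unfold gg
  by_cases h0 : IsUnit (c - t)
  · have h5 : ZMod.chineseRemainder h ((w : ZMod (q1 * q2)) * (c - t)⁻¹) =
        (w : ZMod q1 × ZMod q2) * ZMod.chineseRemainder h (c - t)⁻¹ := by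
      rw [map_mul, map_intCast]
    rw [if_pos h0, if_pos (hu.1 h0).1, if_pos (hu.1 h0).2, char_crt q1 q2 h α β hαβ, h5]
    have h1 : (c - t) * (c - t)⁻¹ = 1 := ZMod.mul_inv_of_unit _ h0
    have h2 := congrArg (ZMod.chineseRemainder h) h1
    rw [map_mul, map_one, map_sub] at h2
    have h3 := congrArg Prod.fst h2
    have h4 := congrArg Prod.snd h2
    simp only [Prod.fst_mul, Prod.snd_mul, Prod.fst_sub, Prod.snd_sub, Prod.fst_one,
      Prod.snd_one] at h3 h4
    rw [← eq_inv_of_mul h3, ← eq_inv_of_mul h4]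
    simp only [Prod.fst_mul, Prod.snd_mul, Prod.fst_intCast, Prod.snd_intCast]
    push_cast
    rw [mul_assoc, mul_assoc]
  · rw [if_neg h0]
    rw [hu, not_and_or] at h0
    rcases h0 with h0 | h0
    · rw [if_neg h0, zero_mul]
    · rw [if_neg h0, mul_zero]

end mult

/-! ### prime moduli -/

section prime

open Polynomial

variable {p : ℕ} [Fact p.Prime]

/-- `e(w A(t) / Q(t))` -/
noncomputable def R (A Q : (ZMod p)[X]) (w : ZMod p) : ZMod p → ℂ := fun t =>
  if Q.eval t = 0 then 0 else (ZMod.stdAddChar (w * (A.eval t / Q.eval t)) : ℂ)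

theorem norm_R (A Q : (ZMod p)[X]) (w t : ZMod p) : ‖R A Q w t‖ ≤ 1 := by
  unfold R
  split_ifs
  · simp
  · rw [ZMod.stdAddChar_apply]
    exact (Circle.norm_coe _).le

theorem conj_char (x : ZMod p) :
    (starRingEnd ℂ) (ZMod.stdAddChar x : ℂ) = ZMod.stdAddChar (-x) :=
  (AddChar.map_neg_eq_conj _ _).symm

/-- the differenced numerator -/
noncomputable def A' (A Q : (ZMod p)[X]) (v : ZMod p) : (ZMod p)[X] :=
  A * Q.comp (X + C v) - A.comp (X + C v) * Q

/-- the differenced denominator -/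
noncomputable def Q' (Q : (ZMod p)[X]) (v : ZMod p) : (ZMod p)[X] := Q * Q.comp (X + C v)

theorem Dl_R (A Q : (ZMod p)[X]) (w v : ZMod p) : Dl v (R A Q w) = R (A' A Q v) (Q' Q v) w := by
  funext t
  unfold Dl R A' Q'
  simp only [eval_mul, eval_sub, eval_comp, eval_add, eval_X, eval_C]
  by_cases h1 : Q.eval t = 0
  · rw [if_pos h1, zero_mul, if_pos (by rw [h1, zero_mul])]
  · by_cases h2 : Q.eval (t + v) = 0
    · rw [if_pos h2, map_zero, mul_zero, if_pos (by rw [h2, mul_zero])]
    · rw [if_neg h1, if_neg h2, if_neg (mul_ne_zero h1 h2), conj_char, ← AddChar.map_add_eq_mul]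
      congr 2
      field_simp
      ring

theorem base {A Q : (ZMod p)[X]} {N : ℕ} (hQ0 : Q.eval 0 = 0) (hA0 : A.eval 0 ≠ 0)
    (hA : A.natDegree ≤ N) (hQ : Q.natDegree ≤ N) :
    ∑ w : ZMod p, Hk 0 (R A Q w) ≤ N := by
  classical
  have hp : (0 : ℝ) < p := Nat.cast_pos.2 (NeZero.pos p)
  -- the number of solutions
  set cnt : ZMod p → ℕ := fun t' => ((univ : Finset (ZMod p)).filter fun t =>
    Q.eval t ≠ 0 ∧ Q.eval t' ≠ 0 ∧ A.eval t / Q.eval t = A.eval t' / Q.eval t').card with hcnt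
  have hle : ∀ t', cnt t' ≤ N := by
    intro t'
    set P : (ZMod p)[X] := A - C (A.eval t' / Q.eval t') * Q with hP
    have hP0 : P ≠ 0 := by
      intro h0
      have : P.eval 0 = 0 := by rw [h0, eval_zero]
      rw [hP, eval_sub, eval_mul, hQ0, mul_zero, sub_zero] at this
      exact hA0 this
    have hdeg : P.natDegree ≤ N := by
      refine (natDegree_sub_le _ _).trans (max_le hA ?_)
      exact (natDegree_C_mul_le _ _).trans hQ
    calc cnt t' ≤ P.roots.toFinset.card := by
          refine card_le_card fun t ht => ?_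
          rw [mem_filter] at ht
          obtain ⟨-, h1, -, h3⟩ := ht
          rw [Multiset.mem_toFinset, mem_roots hP0, IsRoot.def, hP, eval_sub, eval_mul, eval_C, ← h3,
            div_mul_cancel₀ _ h1, sub_self]
      _ ≤ P.roots.card := Multiset.toFinset_card_le _
      _ ≤ P.natDegree := card_roots' _
      _ ≤ N := hdeg
  -- the second moment
  have hsum : ((∑ w : ZMod p, ‖∑ t, R A Q w t‖ ^ 2 : ℝ) : ℂ) =
      ((∑ t' : ZMod p, (p : ℝ) * cnt t' : ℝ) : ℂ) := by
    push_cast
    have h1 : ∀ w : ZMod p, ((‖∑ t, R A Q w t‖ : ℝ) : ℂ) ^ 2 =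
        ∑ t', ∑ t, R A Q w t * (starRingEnd ℂ) (R A Q w t') := by
      intro w
      rw [← Complex.mul_conj', map_sum, Finset.sum_mul_sum, Finset.sum_comm]
    simp only [h1]
    rw [Finset.sum_comm]
    refine Finset.sum_congr rfl fun t' _ => ?_
    rw [Finset.sum_comm]
    have h2 : ∀ t : ZMod p, ∑ w : ZMod p, R A Q w t * (starRingEnd ℂ) (R A Q w t') =
        if (Q.eval t ≠ 0 ∧ Q.eval t' ≠ 0 ∧ A.eval t / Q.eval t = A.eval t' / Q.eval t') then
          (p : ℂ) else 0 := by
      intro t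
      unfold R
      by_cases h3 : Q.eval t = 0
      · rw [if_neg (fun h => h.1 h3)]
        simp [h3]
      · by_cases h4 : Q.eval t' = 0
        · rw [if_neg (fun h => h.2.1 h4)]
          simp [h4]
        · simp only [if_neg h3, if_neg h4, conj_char, ← AddChar.map_add_eq_mul]
          have h5 : ∀ w : ZMod p, w * (A.eval t / Q.eval t) + -(w * (A.eval t' / Q.eval t')) =
              w * (A.eval t / Q.eval t - A.eval t' / Q.eval t') := fun w => by ring
          simp only [h5]
          rw [AddChar.sum_mulShift _ (ZMod.isPrimitive_stdAddChar p)]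
          by_cases h6 : A.eval t / Q.eval t = A.eval t' / Q.eval t'
          · rw [if_pos (sub_eq_zero.2 h6), if_pos ⟨h3, h4, h6⟩, ZMod.card]
          · rw [if_neg (fun h => h6 (sub_eq_zero.1 h)), if_neg (fun h => h6 h.2.2)]
            simp
    simp only [h2]
    rw [← Finset.sum_filter, Finset.sum_const, nsmul_eq_mul, mul_comm]
  have hreal : (∑ w : ZMod p, ‖∑ t, R A Q w t‖ ^ 2 : ℝ) = ∑ t' : ZMod p, (p : ℝ) * cnt t' :=
    Complex.ofReal_injective hsum
  have h7 : ∑ w : ZMod p, Hk 0 (R A Q w) = (p : ℝ)⁻¹ ^ 2 * ∑ w : ZMod p, ‖∑ t, R A Q w t‖ ^ 2 := by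
    rw [Finset.mul_sum]
    refine Finset.sum_congr rfl fun w _ => ?_
    rw [Hk_zero]
    unfold av
    rw [norm_mul, norm_inv, Complex.norm_natCast, mul_pow]
  rw [h7, hreal]
  have h8 : ∑ t' : ZMod p, (p : ℝ) * cnt t' ≤ ∑ _t' : ZMod p, (p : ℝ) * N := by
    refine Finset.sum_le_sum fun t' _ => ?_
    have : (cnt t' : ℝ) ≤ N := by exact_mod_cast hle t'
    gcongr
  rw [Finset.sum_const, Finset.card_univ, ZMod.card, nsmul_eq_mul] at h8
  calc (p : ℝ)⁻¹ ^ 2 * ∑ t' : ZMod p, (p : ℝ) * cnt t' ≤ (p : ℝ)⁻¹ ^ 2 * (p * (p * N)) := by gcongr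
    _ = (N : ℝ) := by field_simp

theorem main (k : ℕ) : ∀ {A Q : (ZMod p)[X]} {N : ℕ}, Q.eval 0 = 0 → A.eval 0 ≠ 0 → Q ≠ 0 →
    A.natDegree ≤ N → Q.natDegree ≤ N →
    ∑ w : ZMod p, Hk k (R A Q w) ≤ (2 ^ (k + 1) - 1) * N := by
  classical
  have hp : (0 : ℝ) < p := Nat.cast_pos.2 (NeZero.pos p)
  induction k with
  | zero =>
    intro A Q N h1 h2 _ h4 h5
    have := base h1 h2 h4 h5
    simpa using (this.trans (by norm_num))
  | succ k ih =>
    intro A Q N hQ0 hA0 hQ hA hQN
    have h1 : ∑ w : ZMod p, Hk (k + 1) (R A Q w) =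
        (p : ℝ)⁻¹ * ∑ v : ZMod p, ∑ w : ZMod p, Hk k (R (A' A Q v) (Q' Q v) w) := by
      rw [Finset.sum_comm, Finset.mul_sum]
      refine Finset.sum_congr rfl fun w _ => ?_
      rw [Hk_succ]
      simp only [Dl_R]
    rw [h1]
    have h2 : ∀ v : ZMod p, ∑ w : ZMod p, Hk k (R (A' A Q v) (Q' Q v) w) ≤
        (2 ^ (k + 1) - 1) * (2 * N) + if Q.eval v = 0 then (p : ℝ) else 0 := by
      intro v
      have hpow : (0 : ℝ) ≤ (2 ^ (k + 1) - 1) * (2 * N) := by
        have : (1 : ℝ) ≤ 2 ^ (k + 1) := one_le_pow₀ (by norm_num)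
        have h3 : (0 : ℝ) ≤ 2 ^ (k + 1) - 1 := by linarith
        positivity
      split_ifs with hv
      · have h3 : ∑ w : ZMod p, Hk k (R (A' A Q v) (Q' Q v) w) ≤ ∑ _w : ZMod p, (1 : ℝ) :=
          Finset.sum_le_sum fun w _ => Hk_le_one k _ (norm_R _ _ w)
        rw [Finset.sum_const, Finset.card_univ, ZMod.card, nsmul_eq_mul, mul_one] at h3
        linarith
      · have hcomp : Q.comp (X + C v) ≠ 0 := by
          intro h0
          apply hv
          have := congrArg (eval 0) h0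
          simpa using this
        have hd : (Q.comp (X + C v)).natDegree ≤ N := by
          refine natDegree_comp_le.trans ?_
          rw [natDegree_X_add_C, mul_one]
          exact hQN
        have hd' : (A.comp (X + C v)).natDegree ≤ N := by
          refine natDegree_comp_le.trans ?_
          rw [natDegree_X_add_C, mul_one]
          exact hA
        have h3 := ih (A := A' A Q v) (Q := Q' Q v) (N := 2 * N)
          (by unfold Q'; rw [eval_mul, hQ0, zero_mul])
          (by
            unfold A'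
            simp only [eval_sub, eval_mul, hQ0, mul_zero, sub_zero, eval_comp, eval_add, eval_X,
              eval_C, zero_add]
            exact mul_ne_zero hA0 hv)
          (mul_ne_zero hQ hcomp)
          (by
            unfold A'
            refine (natDegree_sub_le _ _).trans (max_le ?_ ?_)
            · exact natDegree_mul_le.trans (by omega)
            · exact natDegree_mul_le.trans (by omega))
          (by
            unfold Q'
            exact natDegree_mul_le.trans (by omega))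
        push_cast at h3
        linarith
    have h3 : ∑ v : ZMod p, ((2 ^ (k + 1) - 1) * (2 * N) + if Q.eval v = 0 then (p : ℝ) else 0) ≤
        p * ((2 ^ (k + 1) - 1) * (2 * N)) + N * p := by
      rw [Finset.sum_add_distrib, Finset.sum_const, Finset.card_univ, ZMod.card, nsmul_eq_mul,
        ← Finset.sum_filter, Finset.sum_const, nsmul_eq_mul]
      have h4 : ((univ : Finset (ZMod p)).filter fun v => Q.eval v = 0).card ≤ N := by
        calc ((univ : Finset (ZMod p)).filter fun v => Q.eval v = 0).card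
            ≤ Q.roots.toFinset.card := by
              refine card_le_card fun t ht => ?_
              rw [mem_filter] at ht
              rw [Multiset.mem_toFinset, mem_roots hQ]
              exact ht.2
          _ ≤ Q.roots.card := Multiset.toFinset_card_le _
          _ ≤ Q.natDegree := card_roots' _
          _ ≤ N := hQN
      have h5 : ((((univ : Finset (ZMod p)).filter fun v => Q.eval v = 0).card : ℕ) : ℝ) ≤ N := by
        exact_mod_cast h4
      gcongr
    calc (p : ℝ)⁻¹ * ∑ v : ZMod p, ∑ w : ZMod p, Hk k (R (A' A Q v) (Q' Q v) w)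
        ≤ (p : ℝ)⁻¹ * (p * ((2 ^ (k + 1) - 1) * (2 * N)) + N * p) := by
          gcongr
          exact (Finset.sum_le_sum fun v _ => h2 v).trans h3
      _ = (2 ^ (k + 1 + 1) - 1) * N := by
          field_simp
          ring

theorem R_dil (w : (ZMod p)ˣ) (k : ℕ) :
    Hk k (R (1 : (ZMod p)[X]) X (w : ZMod p)) = Hk k (R (1 : (ZMod p)[X]) X 1) := by
  rw [← Hk_dil k (R (1 : (ZMod p)[X]) X 1) w⁻¹]
  congr 1
  funext t
  unfold R
  simp only [eval_X, eval_one]
  have hw : ((w⁻¹ : (ZMod p)ˣ) : ZMod p) ≠ 0 := Units.ne_zero _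
  by_cases ht : t = 0
  · rw [if_pos ht, if_pos (by rw [ht, mul_zero])]
  · have hw' : ((w : (ZMod p)ˣ) : ZMod p) ≠ 0 := Units.ne_zero _
    have e : (w : ZMod p) * (1 / t) = 1 * (1 / (((w⁻¹ : (ZMod p)ˣ) : ZMod p) * t)) := by
      rw [Units.val_inv_eq_inv_val]
      field_simp
    rw [if_neg ht, if_neg (mul_ne_zero hw ht), e]

theorem gg_prime (w c : ZMod p) (k : ℕ) :
    Hk k (gg p w c) = Hk k (R (1 : (ZMod p)[X]) X (-w)) := by
  classical
  rw [← Hk_trans k (R (1 : (ZMod p)[X]) X (-w)) (-c)]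
  congr 1
  funext t
  unfold gg R
  simp only [eval_X, eval_one]
  by_cases ht : t = c
  · rw [ht, if_neg (by simp), if_pos (by ring)]
  · have h1 : c - t ≠ 0 := sub_ne_zero.2 (Ne.symm ht)
    have h2 : t + -c ≠ 0 := by
      intro h
      exact ht (by linear_combination h)
    have h3 : t + -c = -(c - t) := by ring
    have e : w * (c - t)⁻¹ = -w * (1 / (t + -c)) := by
      rw [h3, one_div, inv_neg, mul_neg, neg_mul, neg_neg]
    rw [if_pos (isUnit_iff_ne_zero.2 h1), if_neg h2, e]

theorem norm_gg (q : ℕ) [NeZero q] (w c t : ZMod q) : ‖gg q w c t‖ ≤ 1 := by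
  classical
  unfold gg
  split_ifs
  · rw [ZMod.stdAddChar_apply]
    exact (Circle.norm_coe _).le
  · simp

theorem prime_bound (k : ℕ) (w : ℤ) (c : ZMod p) :
    Hk k (gg p (w : ZMod p) c) ≤ 2 ^ (k + 2) * (Int.gcd (p : ℤ) w : ℝ) / p := by
  have hpr : p.Prime := Fact.out
  have hp : (0 : ℝ) < p := Nat.cast_pos.2 hpr.pos
  by_cases hw : (p : ℤ) ∣ w
  · have h1 : Int.gcd (p : ℤ) w = p := by
      rw [Int.gcd_eq_natAbs, Int.natAbs_natCast]
      exact Nat.gcd_eq_left (by simpa using Int.natAbs_dvd_natAbs.2 hw)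
    rw [h1, mul_div_assoc, div_self hp.ne', mul_one]
    exact (Hk_le_one k _ (norm_gg p _ c)).trans (one_le_pow₀ (by norm_num))
  · have h1 : Int.gcd (p : ℤ) w = 1 := by
      rw [← Int.isCoprime_iff_gcd_eq_one]
      exact (Nat.prime_iff_prime_int.1 hpr).coprime_iff_not_dvd.2 hw
    rw [h1, Nat.cast_one, mul_one, gg_prime]
    have hw0 : (-(w : ZMod p)) ≠ 0 := by
      intro h
      apply hw
      rw [neg_eq_zero] at h
      exact (ZMod.intCast_zmod_eq_zero_iff_dvd w p).1 h
    have h2 := R_dil (Units.mk0 _ hw0) k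
    rw [Units.val_mk0] at h2
    rw [h2]
    set H := Hk k (R (1 : (ZMod p)[X]) X 1) with hH
    have h3 := main (p := p) k (A := 1) (Q := X) (N := 1) (by simp) (by simp) X_ne_zero (by simp)
      (by simp)
    have h4 : ∑ w ∈ (univ : Finset (ZMod p)).erase 0, Hk k (R (1 : (ZMod p)[X]) X w) ≤
        ∑ w : ZMod p, Hk k (R (1 : (ZMod p)[X]) X w) :=
      Finset.sum_le_sum_of_subset_of_nonneg (Finset.erase_subset _ _) fun w _ _ => Hk_nonneg k _
    have h5 : ∑ w ∈ (univ : Finset (ZMod p)).erase 0, Hk k (R (1 : (ZMod p)[X]) X w) =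
        ((p - 1 : ℕ) : ℝ) * H := by
      rw [Finset.sum_congr rfl (g := fun _ => H), Finset.sum_const, nsmul_eq_mul,
        Finset.card_erase_of_mem (Finset.mem_univ _), Finset.card_univ, ZMod.card]
      intro w hw
      have hw1 : w ≠ 0 := (Finset.mem_erase.1 hw).1
      have := R_dil (Units.mk0 w hw1) k
      rw [Units.val_mk0] at this
      rw [this]
    rw [h5] at h4
    have h6 : ((p - 1 : ℕ) : ℝ) = p - 1 := by
      rw [Nat.cast_sub hpr.one_le, Nat.cast_one]
    rw [h6] at h4
    have h7 : (2 : ℝ) ≤ p := by exact_mod_cast hpr.two_le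
    have h8 : 0 ≤ H := Hk_nonneg k _
    rw [le_div_iff₀ hp, pow_succ]
    push_cast at h3
    have h9 := h4.trans h3
    nlinarith

end prime

theorem unit_cop (p q : ℕ) (α β w : ℤ) (h : α * q + β * p = 1) :
    Int.gcd (p : ℤ) (α * w) = Int.gcd (p : ℤ) w := by
  have h1 : IsCoprime (p : ℤ) α := ⟨β, q, by linarith⟩
  have h2 : Int.gcd (p : ℤ) α = 1 := Int.isCoprime_iff_gcd_eq_one.1 h1
  rw [Int.gcd_mul_right_right_of_gcd_eq_one h2]

end Gow

open Gow in
/-- **GOW**. -/
theorem gow : S_GOW := by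
  intro k q
  induction q using Nat.strong_induction_on with
  | _ q ih =>
    intro _ hq w c
    by_cases h1 : q = 1
    · subst h1
      refine (Hk_le_one k _ (norm_gg 1 _ c)).trans ?_
      simp
    · -- split off a prime
      have hq0 : q ≠ 0 := NeZero.ne q
      have hp : (q.minFac).Prime := Nat.minFac_prime h1
      obtain ⟨q', hq'⟩ := Nat.minFac_dvd q
      generalize q.minFac = p at hp hq'
      subst hq'
      have : Fact p.Prime := ⟨hp⟩
      have hq'0 : q' ≠ 0 := fun h => hq0 (by rw [h, mul_zero])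
      have : NeZero q' := ⟨hq'0⟩
      have hcop : Nat.Coprime p q' := Nat.coprime_of_squarefree_mul hq
      have hsq' : Squarefree q' := hq.squarefree_of_dvd (Dvd.intro_left p rfl)
      obtain ⟨α, β, hαβ⟩ : ∃ α β : ℤ, α * q' + β * p = 1 := by
        have h2 : IsCoprime (q' : ℤ) (p : ℤ) := Nat.isCoprime_iff_coprime.mpr hcop.symm
        obtain ⟨a, b, hab⟩ := h2
        exact ⟨a, b, hab⟩
      have hlt : q' < p * q' := by
        have := hp.two_le
        have h3 : 0 < q' := Nat.pos_of_ne_zero hq'0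
        nlinarith
      rw [gg_mul p q' hcop α β hαβ w c, Hk_mul p q' hcop k]
      have b1 := prime_bound (p := p) k (α * w) (ZMod.chineseRemainder hcop c).1
      have b2 := ih q' hlt hsq' (β * w) (ZMod.chineseRemainder hcop c).2
      rw [unit_cop p q' α β w hαβ] at b1
      rw [unit_cop q' p β α w (by linarith)] at b2
      have hcard : (p * q').primeFactors.card = 1 + q'.primeFactors.card := by
        rw [hcop.primeFactors_mul, Finset.card_union_of_disjoint hcop.disjoint_primeFactors,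
          hp.primeFactors, Finset.card_singleton]
      have hgcd : Int.gcd ((p * q' : ℕ) : ℤ) w = Int.gcd (p : ℤ) w * Int.gcd (q' : ℤ) w := by
        rw [Int.gcd_eq_natAbs, Int.gcd_eq_natAbs, Int.gcd_eq_natAbs, Int.natAbs_natCast,
          Int.natAbs_natCast, Int.natAbs_natCast]
        rw [Nat.gcd_comm, Nat.gcd_comm p, Nat.gcd_comm q']
        exact hcop.gcd_mul _
      rw [hcard, hgcd]
      have hpR : (0 : ℝ) < p := Nat.cast_pos.2 hp.pos
      have hqR : (0 : ℝ) < q' := Nat.cast_pos.2 (Nat.pos_of_ne_zero hq'0)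
      calc _ ≤ (2 ^ (k + 2) * (Int.gcd (p : ℤ) w : ℝ) / p) *
            (2 ^ ((k + 2) * q'.primeFactors.card) * (Int.gcd (q' : ℤ) w : ℝ) / q') :=
            mul_le_mul b1 b2 (Hk_nonneg k _) (by positivity)
        _ = _ := by
            push_cast
            rw [mul_add, mul_one, pow_add]
            field_simp
            ring

end Pool.Agent.TH43.LQ
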