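import Pool.Agent.TH43.LQ.Cnt
import Pool.Agent.TH43.LQ.Gow
import Pool.Agent.TH43.LK.Block

/-!
# The count of points for a good modulus, and the covering lemma
-/

set_option autoImplicit false

namespace Pool.Agent.TH43.LQ

open Finset Pool.Agent.H95R2.Leh

theorem good_aux (M q0 N' : ℕ) (hq0 : 1 ≤ q0) (hN' : 1 ≤ N') (hsq : Squarefree q0)
    (hco : Nat.Coprime N' q0) (D : ℝ) (hD : 1 ≤ D)
    (hpp : ∀ l a : ℕ, l.Prime → l ^ a ∣ N' → (l : ℝ) ^ a ≤ D)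
    (hM : (N' : ℝ) < D ^ (M + 1)) (c : ZMod (q0 * N')) (S Y : ℕ) (hS : 1 ≤ S) (hY : 1 ≤ Y)
    (H : ℝ) (hH : 0 ≤ H) (hSH : ((q0 * N' : ℕ) : ℝ) ≤ 6 * S * H) (hη : D * q0 / Y ≤ 1) (t₀ : ℤ) :
    (Pool.Agent.TH43.LK.NN (q0 * N') c 1 t₀ S Y : ℝ) ≤
      48 * ((S : ℝ) / ((q0 * N' : ℕ) : ℝ)) * Y +
      4 * (Y * ((2 ^ ((2 * M + 1 + 2) * q0.primeFactors.card) * H / q0) ^
        ((1 / 2 : ℝ) ^ (2 * M + 1 + 1)) + 4 * (D * q0 / Y) ^ ((1 / 2 : ℝ) ^ (2 * M + 1)))) := by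
  have : NeZero q0 := ⟨by omega⟩
  have : NeZero (q0 * N') := ⟨by positivity⟩
  obtain ⟨L, hL, hlen⟩ := grouping D hD N' hN' hpp
  have hlen' : L.length ≤ 2 * M + 1 := by
    by_contra hlt
    push Not at hlt
    have h1 : M + 1 ≤ L.length / 2 := by omega
    have h2 : D ^ (M + 1) ≤ D ^ (L.length / 2) := pow_le_pow_right₀ hD h1
    linarith
  have hq0R : (0 : ℝ) < q0 := by exact_mod_cast hq0
  have hS0 : (0 : ℝ) < S := by exact_mod_cast hS
  apply NN_exp (q0 * N') c t₀ S Y hS _ (by positivity)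
  intro h hh hle
  have hc : c = (((c.val : ℤ)) : ZMod (q0 * N')) := by
    push_cast
    exact (ZMod.natCast_zmod_val c).symm
  rw [hc]
  refine (expsum gow (2 * M + 1) q0 hsq L D N' hL hco hlen' hD h (c.val : ℤ) t₀ Y hY hη).trans ?_
  apply mul_le_mul_of_nonneg_left _ (Nat.cast_nonneg _)
  apply add_le_add_left
  apply Real.rpow_le_rpow (by positivity) _ (by positivity)
  apply div_le_div_of_nonneg_right _ hq0R.le
  apply mul_le_mul_of_nonneg_left _ (by positivity)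
  -- `gcd (q0, h) ≤ |h| ≤ H`
  have h1 : (Int.gcd (q0 : ℤ) h : ℤ) ≤ |h| := by
    have h2 : (Int.gcd (q0 : ℤ) h : ℤ) ∣ |h| := by
      rw [dvd_abs]
      exact Int.gcd_dvd_right _ _
    exact Int.le_of_dvd (abs_pos.2 hh) h2
  have h3 : ((Int.gcd (q0 : ℤ) h : ℤ) : ℝ) ≤ ((|h| : ℤ) : ℝ) := by exact_mod_cast h1
  have h4 : (6 : ℝ) * S * ((|h| : ℤ) : ℝ) ≤ 6 * S * H := by
    refine le_trans ?_ hSH
    exact_mod_cast hle
  have h5 : ((|h| : ℤ) : ℝ) ≤ H := le_of_mul_le_mul_left h4 (by positivity)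
  have h6 : ((Int.gcd (q0 : ℤ) h : ℤ) : ℝ) = (Int.gcd (q0 : ℤ) h : ℝ) := by norm_cast
  linarith

theorem good_bound (M f : ℕ) (hf : 1 ≤ f) (hsq : Squarefree f) (hco : Nat.Coprime f f.totient)
    (D : ℝ) (hD : 1 ≤ D) (hsm : ∀ r : ℕ, r.Prime → r ∣ f → (r : ℝ) ≤ D)
    (hgood : ∀ l a : ℕ, l.Prime → 2 ≤ a → l ^ a ∣ f.totient → (l : ℝ) ^ a ≤ D)
    (q0 : ℕ) (hq0 : q0 ∣ f) (hM : ((f * f.totient : ℕ) : ℝ) < D ^ (M + 1))
    (c : ZMod (f * f.totient)) (S Y : ℕ) (hS : 1 ≤ S) (hY : 1 ≤ Y)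
    (H : ℝ) (hH : 0 ≤ H) (hSH : ((f * f.totient : ℕ) : ℝ) ≤ 6 * S * H) (hη : D * q0 / Y ≤ 1)
    (t₀ : ℤ) :
    (Pool.Agent.TH43.LK.NN (f * f.totient) c 1 t₀ S Y : ℝ) ≤
      48 * ((S : ℝ) / ((f * f.totient : ℕ) : ℝ)) * Y +
      4 * (Y * ((2 ^ ((2 * M + 1 + 2) * q0.primeFactors.card) * H / q0) ^
        ((1 / 2 : ℝ) ^ (2 * M + 1 + 1)) + 4 * (D * q0 / Y) ^ ((1 / 2 : ℝ) ^ (2 * M + 1)))) := by
  obtain ⟨g, hg⟩ := hq0
  have hq01 : 1 ≤ q0 := by
    rcases Nat.eq_zero_or_pos q0 with h0 | h0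
    · rw [h0, zero_mul] at hg
      omega
    · exact h0
  have hg1 : 1 ≤ g := by
    rcases Nat.eq_zero_or_pos g with h0 | h0
    · rw [h0, mul_zero] at hg
      omega
    · exact h0
  have hphi : 1 ≤ f.totient := Nat.totient_pos.2 hf
  have hN' : 1 ≤ g * f.totient := Nat.mul_pos hg1 hphi
  have hQ : f * f.totient = q0 * (g * f.totient) := by
    rw [← mul_assoc, ← hg]
  have hsq0 : Squarefree q0 := hsq.squarefree_of_dvd ⟨g, hg⟩
  have hcopg : Nat.Coprime g q0 := by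
    rw [hg] at hsq
    exact (Nat.coprime_of_squarefree_mul hsq).symm
  have hcopt : Nat.Coprime f.totient q0 := (hco.coprime_dvd_left ⟨g, hg⟩).symm
  have hcop : Nat.Coprime (g * f.totient) q0 := Nat.Coprime.mul_left hcopg hcopt
  have hgt : Nat.Coprime g f.totient := hco.coprime_dvd_left ⟨q0, by rw [mul_comm]; exact hg⟩
  have hpp : ∀ l a : ℕ, l.Prime → l ^ a ∣ g * f.totient → (l : ℝ) ^ a ≤ D := by
    intro l a hl hla
    rcases Nat.eq_zero_or_pos a with ha0 | ha0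
    · rw [ha0, pow_zero]
      exact hD
    have hll : l ∣ l ^ a := dvd_pow_self l (by omega)
    rcases (Nat.Prime.dvd_mul hl).1 (hll.trans hla) with h1 | h1
    · -- `l ∣ g`
      have h2 : Nat.Coprime (l ^ a) f.totient := by
        apply Nat.Coprime.pow_left
        exact hgt.coprime_dvd_left h1
      have h3 : l ^ a ∣ g := h2.dvd_of_dvd_mul_right hla
      have h4 : l ^ a ∣ f := h3.trans ⟨q0, by rw [mul_comm]; exact hg⟩
      have h5 : a ≤ 1 := by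
        by_contra h6
        push Not at h6
        have h7 : l * l ∣ f := by
          refine dvd_trans ?_ h4
          calc l * l = l ^ 2 := by ring
            _ ∣ l ^ a := pow_dvd_pow l h6
        exact hl.one_lt.ne' (Nat.isUnit_iff.1 (hsq l h7))
      have h6 : a = 1 := by omega
      rw [h6, pow_one] at h4 ⊢
      exact hsm l hl h4
    · have h2 : Nat.Coprime (l ^ a) g := by
        apply Nat.Coprime.pow_left
        exact (hgt.symm).coprime_dvd_left h1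
      have h3 : l ^ a ∣ f.totient := h2.dvd_of_dvd_mul_left hla
      rcases Nat.lt_or_ge a 2 with h4 | h4
      · have h6 : a = 1 := by omega
        rw [h6, pow_one] at h3 ⊢
        -- `l ∣ r - 1` for a prime `r ∣ f`
        have h7 : f.totient = ∏ r ∈ f.primeFactors, (r - 1) := by
          have h8 := Nat.totient_mul_prod_primeFactors f
          rw [Nat.prod_primeFactors_of_squarefree hsq] at h8
          have h9 : f.totient * f = (∏ r ∈ f.primeFactors, (r - 1)) * f := by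
            rw [h8, mul_comm]
          exact Nat.eq_of_mul_eq_mul_right hf h9
        rw [h7] at h3
        obtain ⟨r, hr, hlr⟩ := (Prime.dvd_finsetProd_iff hl.prime _).1 h3
        have hrp := Nat.prime_of_mem_primeFactors hr
        have h10 : l ≤ r - 1 := Nat.le_of_dvd (by have := hrp.two_le; omega) hlr
        have h11 : (l : ℝ) ≤ r := by exact_mod_cast h10.trans (Nat.sub_le _ _)
        exact h11.trans (hsm r hrp (Nat.dvd_of_mem_primeFactors hr))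
      · exact hgood l a hl h4 h3
  have hM' : ((g * f.totient : ℕ) : ℝ) < D ^ (M + 1) := by
    refine lt_of_le_of_lt ?_ hM
    rw [hQ]
    exact_mod_cast Nat.le_mul_of_pos_left _ hq01
  have key : ∀ Q : ℕ, Q = q0 * (g * f.totient) → ∀ c : ZMod Q, (Q : ℝ) ≤ 6 * S * H →
      (Pool.Agent.TH43.LK.NN Q c 1 t₀ S Y : ℝ) ≤
      48 * ((S : ℝ) / (Q : ℝ)) * Y +
      4 * (Y * ((2 ^ ((2 * M + 1 + 2) * q0.primeFactors.card) * H / q0) ^
        ((1 / 2 : ℝ) ^ (2 * M + 1 + 1)) + 4 * (D * q0 / Y) ^ ((1 / 2 : ℝ) ^ (2 * M + 1)))) := by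
    rintro _ rfl c hc
    exact good_aux M q0 (g * f.totient) hq01 hN' hsq0 hcop D hD hpp hM' c S Y hS hY H hH hc hη t₀
  exact key _ hQ c hSH

theorem cover_count (x Y : ℕ) (hY : 1 ≤ Y) (A E : Finset ℕ)
    (hA : ∀ n ∈ A, n ≤ x ∧ Leh n ∧ ∃ p : ℕ, p.Prime ∧ p ∣ n ∧ Y < p ∧ p ≤ 2 * Y ∧
      ∃ f ∈ E, f ∣ n / p)
    (Bd : ℝ) (hBd : ∀ f ∈ E, ∀ c : ZMod (f * f.totient),
      (Pool.Agent.TH43.LK.NN (f * f.totient) c 1 (Y + 1) (x / Y ^ 2) Y : ℝ) ≤ Bd) :
    (A.card : ℝ) ≤ E.card * Bd := by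
  classical
  choose cf hcf using Pool.Agent.TH43.LK.exists_c
  have hsub : A ⊆ E.biUnion (fun f =>
      (Pool.Agent.TH43.LK.PP (f * f.totient) (cf f) Y (x / Y ^ 2)).image
      (fun ij => (Y + 1 + ij.2) * ((1 + ij.1) * (Y + ij.2) + 1))) := by
    intro n hn
    obtain ⟨hnx, hL, p, hp, hpn, hYp, hp2, f, hfE, hf1⟩ := hA n hn
    obtain ⟨s, hs1, hns, hps, hdiv⟩ := Pool.Agent.TH43.LK.leh_pair hL hp hpn
    obtain ⟨d1, d2⟩ := hdiv f hf1
    have hfn : f ∣ n := hf1.trans (Nat.div_dvd_of_dvd hpn)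
    have hco : Nat.Coprime f f.totient := by
      obtain ⟨-, -, hco⟩ := leh_basic hL
      exact (hco.coprime_dvd_left hfn).coprime_dvd_right (Nat.totient_dvd_of_dvd hfn)
    rw [mem_biUnion]
    refine ⟨f, hfE, ?_⟩
    rw [mem_image]
    have hsS : s ≤ x / Y ^ 2 := by
      rw [Nat.le_div_iff_mul_le (by positivity)]
      have h1 : s * Y ≤ s * (p - 1) + 1 := by
        have : s * Y ≤ s * (p - 1) := Nat.mul_le_mul_left _ (by omega)
        omega
      calc s * Y ^ 2 = Y * (s * Y) := by ring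
        _ ≤ p * (s * (p - 1) + 1) := Nat.mul_le_mul hYp.le h1
        _ = n := hns.symm
        _ ≤ x := hnx
    refine ⟨(s - 1, p - Y - 1), ?_, ?_⟩
    · unfold Pool.Agent.TH43.LK.PP
      rw [mem_filter, mem_product, mem_range, mem_range]
      refine ⟨⟨by simp only; omega, by simp only; omega⟩, ?_⟩
      have h1 := hcf f hco s p hp.one_lt.le d1 d2
      have e1 : ((1 : ℤ) + ((s - 1 : ℕ) : ℤ)) = (s : ℤ) := by
        push_cast [Nat.cast_sub hs1]
        ring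
      have e2 : (((Y : ℤ) + 1) + ((p - Y - 1 : ℕ) : ℤ)) = (p : ℤ) := by
        omega
      simp only
      rw [e1, e2]
      exact h1
    · simp only
      have e1 : Y + 1 + (p - Y - 1) = p := by omega
      have e2 : 1 + (s - 1) = s := by omega
      have e3 : Y + (p - Y - 1) = p - 1 := by omega
      rw [e1, e2, e3]
      exact hns.symm
  have h1 : (A.card : ℝ) ≤ ∑ f ∈ E,
      (((Pool.Agent.TH43.LK.PP (f * f.totient) (cf f) Y (x / Y ^ 2)).image
      (fun ij : ℕ × ℕ => (Y + 1 + ij.2) * ((1 + ij.1) * (Y + ij.2) + 1))).card : ℝ) := by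
    exact_mod_cast (card_le_card hsub).trans card_biUnion_le
  refine h1.trans ?_
  have h2 : ∀ f ∈ E, (((Pool.Agent.TH43.LK.PP (f * f.totient) (cf f) Y (x / Y ^ 2)).image
      (fun ij : ℕ × ℕ => (Y + 1 + ij.2) * ((1 + ij.1) * (Y + ij.2) + 1))).card : ℝ) ≤ Bd := by
    intro f hf
    refine le_trans ?_ (hBd f hf (cf f))
    exact_mod_cast card_image_le
  refine (sum_le_sum h2).trans ?_
  rw [sum_const, nsmul_eq_mul]

end Pool.Agent.TH43.LQ
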