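import Pool.Agent.TH43.LK.Main

/-!
# A light bound for the number of Lehmer numbers
-/

set_option autoImplicit false

namespace Pool.Agent.TH43.LQ

open Finset Pool.Agent.H95R2.Leh

open Classical in
theorem leh_light : ∃ C : ℝ, 0 < C ∧ ∀ x : ℕ, 1 ≤ x →
    ((((Icc 1 x).filter Leh).card : ℕ) : ℝ) ≤ C * (1 + Real.log x) ^ 3 * Real.sqrt x := by
  obtain ⟨A, hA, hmod⟩ := Pool.Agent.TH43.LK.modulus_lower
  refine ⟨A + 2, by linarith, ?_⟩
  intro x hx
  have hX1 : (1 : ℝ) ≤ (x : ℝ) := by exact_mod_cast hx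
  have hXp : (0 : ℝ) < (x : ℝ) := by linarith
  have hl0 : 0 ≤ Real.log (x : ℝ) := Real.log_nonneg hX1
  set F : ℝ := Real.sqrt x with hF
  have hF1 : 1 ≤ F := by rw [hF, Real.one_le_sqrt]; exact hX1
  have hF0 : 0 < F := by linarith
  have hF2 : F ^ 2 = x := Real.sq_sqrt hXp.le
  have hFx : F ≤ x := by rw [← hF2]; nlinarith
  set L3 : ℝ := (1 + Real.log x) ^ 3 with hL3
  have hL31 : 1 ≤ L3 := one_le_pow₀ (by linarith)
  -- the divisors
  set E : Finset ℕ := (Icc 1 ⌊F⌋₊).filter (fun d : ℕ => F / (16 * (1 + 2 * Real.log x)) < (d : ℝ) ∧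
    Nat.Coprime d d.totient) with hE
  have hEcard : (E.card : ℝ) ≤ F := by
    have h1 : E.card ≤ ⌊F⌋₊ := by
      rw [hE]
      refine (card_filter_le _ _).trans ?_
      simp
    exact (Nat.cast_le.2 h1).trans (Nat.floor_le hF0.le)
  have hsub : (Icc 1 x).filter Leh ⊆ (Icc 1 ⌊F⌋₊) ∪
      E.biUnion (fun d => (Icc 1 x).filter (fun n => d ∣ n ∧ d.totient ∣ n - 1)) := by
    intro n hn
    rw [mem_filter, mem_Icc] at hn
    obtain ⟨⟨hn1, hnx⟩, hL⟩ := hn
    rw [mem_union]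
    rcases lt_or_ge (n : ℝ) F with h1 | h1
    · left
      rw [mem_Icc]
      exact ⟨hn1, Nat.le_floor h1.le⟩
    · right
      obtain ⟨hsq, hodd, hco⟩ := leh_basic hL
      obtain ⟨k, hk2, hk, -⟩ := leh_k hL
      have hRn := Pool.Agent.TH43.LK.omega_le hn1 hnx
      have hFam := fam_leh n k (1 + 2 * Real.log x) (by omega) (by linarith)
      have hst : StL n k (1 + 2 * Real.log x) n (2 * n) :=
        ⟨n, hL, by omega, le_rfl, hk, hRn, Or.inr ⟨rfl, rfl⟩⟩
      obtain ⟨d, h2, h3, h4⟩ := dense hFam hst hF1 h1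
      rw [mem_biUnion]
      have hd0 : 1 ≤ d := Nat.pos_of_dvd_of_pos h2 hn1
      refine ⟨d, ?_, ?_⟩
      · rw [hE, mem_filter, mem_Icc]
        exact ⟨⟨hd0, Nat.le_floor h4⟩, h3,
          (hco.coprime_dvd_left h2).coprime_dvd_right (Nat.totient_dvd_of_dvd h2)⟩
      · rw [mem_filter, mem_Icc]
        exact ⟨⟨hn1, hnx⟩, h2, (Nat.totient_dvd_of_dvd h2).trans hL.2.2⟩
  have hone : ∀ d ∈ E, (((Icc 1 x).filter (fun n => d ∣ n ∧ d.totient ∣ n - 1)).card : ℝ) ≤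
      A * L3 + 1 := by
    intro d hd
    rw [hE, mem_filter, mem_Icc] at hd
    obtain ⟨⟨hd1, hd2⟩, hd3, hd4⟩ := hd
    have hdF : (d : ℝ) ≤ F := (Nat.cast_le.2 hd2).trans (Nat.floor_le hF0.le)
    have hdx : d ≤ x := by
      have : (d : ℝ) ≤ (x : ℝ) := hdF.trans hFx
      exact Nat.cast_le.1 this
    have hphi : 0 < d.totient := Nat.totient_pos.2 hd1
    have hqpos : 0 < d * d.totient := Nat.mul_pos hd1 hphi
    have hqr : (0 : ℝ) < ((d * d.totient : ℕ) : ℝ) := by exact_mod_cast hqpos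
    have h1 : ((Icc 1 x).filter (fun n => d ∣ n ∧ d.totient ∣ n - 1)).card ≤
        x / (d * d.totient) + 1 := by
      apply Omega.card_congr_le (d * d.totient) x hqpos
      · intro n hn
        rw [mem_filter, mem_Icc] at hn
        exact hn.1.2
      · intro n hn n' hn'
        rw [mem_filter, mem_Icc] at hn hn'
        have e1 : n ≡ n' [MOD d] := by
          have a1 := (Nat.modEq_zero_iff_dvd).2 hn.2.1
          have a2 := (Nat.modEq_zero_iff_dvd).2 hn'.2.1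
          exact a1.trans a2.symm
        have e2 : n ≡ n' [MOD d.totient] := by
          have a1 : 1 ≡ n [MOD d.totient] := (Nat.modEq_iff_dvd' hn.1.1).2 hn.2.2
          have a2 : 1 ≡ n' [MOD d.totient] := (Nat.modEq_iff_dvd' hn'.1.1).2 hn'.2.2
          exact a1.symm.trans a2
        exact (Nat.modEq_and_modEq_iff_modEq_mul hd4).1 ⟨e1, e2⟩
    have h2 : (((Icc 1 x).filter (fun n => d ∣ n ∧ d.totient ∣ n - 1)).card : ℝ) ≤
        ((x / (d * d.totient) : ℕ) : ℝ) + 1 := by exact_mod_cast h1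
    refine h2.trans ?_
    have h3 : ((x / (d * d.totient) : ℕ) : ℝ) ≤ (x : ℝ) / ((d * d.totient : ℕ) : ℝ) :=
      Nat.cast_div_le
    have h4 : (x : ℝ) / ((d * d.totient : ℕ) : ℝ) ≤ A * L3 := by
      rw [div_le_iff₀ hqr, ← hF2]
      exact hmod x d F hd1 hdx hF1 hd3
    linarith
  have h1 : ((((Icc 1 x).filter Leh).card : ℕ) : ℝ) ≤ ((Icc 1 ⌊F⌋₊).card : ℝ) +
      ∑ d ∈ E, (((Icc 1 x).filter (fun n => d ∣ n ∧ d.totient ∣ n - 1)).card : ℝ) := by
    have h2 := (card_le_card hsub).trans ((card_union_le _ _).trans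
      (Nat.add_le_add_left card_biUnion_le _))
    exact_mod_cast h2
  have h2 : ((Icc 1 ⌊F⌋₊).card : ℝ) ≤ F := by
    rw [Nat.card_Icc, Nat.add_sub_cancel]
    exact Nat.floor_le hF0.le
  have h3 := sum_le_sum hone
  rw [sum_const, nsmul_eq_mul] at h3
  have h4 : (E.card : ℝ) * (A * L3 + 1) ≤ F * (A * L3 + 1) :=
    mul_le_mul_of_nonneg_right hEcard (by positivity)
  have h5 : F ≤ L3 * F := by nlinarith
  calc ((((Icc 1 x).filter Leh).card : ℕ) : ℝ) ≤ F + F * (A * L3 + 1) := by linarith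
    _ ≤ (A + 2) * L3 * F := by nlinarith

end Pool.Agent.TH43.LQ
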