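import Pool.Agent.TH43.LQ.Blk
import Pool.Agent.TH43.LQ.Light

/-!
# Lehmer numbers with an isolated prime factor
-/

set_option autoImplicit false

namespace Pool.Agent.TH43.LQ

open Finset Pool.Agent.H95R2.Leh

open Classical in
/-- Lehmer numbers up to `x` with an isolated prime factor -/
noncomputable def QQ (x : ℕ) (ε : ℝ) : Finset ℕ :=
  (Icc 1 x).filter (fun n : ℕ => Leh n ∧ ∃ p : ℕ, p.Prime ∧ p ∣ n ∧ (x : ℝ) ^ ε ≤ (p : ℝ) ∧
    ∏ r ∈ n.primeFactors.filter (fun r : ℕ => r ≠ p ∧ (p : ℝ) * (x : ℝ) ^ (-ε) < (r : ℝ)),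
      (r : ℝ) ≤ (x : ℝ) ^ (1 / 2 - ε))

theorem QQ_mono (x : ℕ) (hx : 1 ≤ x) {ε ε' : ℝ} (h : ε' ≤ ε) : QQ x ε ⊆ QQ x ε' := by
  classical
  intro n hn
  unfold QQ at hn ⊢
  rw [mem_filter] at hn ⊢
  obtain ⟨h1, h2, p, hp, hpn, h3, h4⟩ := hn
  have hX1 : (1 : ℝ) ≤ (x : ℝ) := by exact_mod_cast hx
  refine ⟨h1, h2, p, hp, hpn, (Real.rpow_le_rpow_of_exponent_le hX1 h).trans h3, ?_⟩
  refine le_trans ?_ (h4.trans (Real.rpow_le_rpow_of_exponent_le hX1 (by linarith)))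
  apply Finset.prod_le_prod_of_subset_of_one_le
  · intro r hr
    rw [mem_filter] at hr ⊢
    refine ⟨hr.1, hr.2.1, lt_of_le_of_lt ?_ hr.2.2⟩
    apply mul_le_mul_of_nonneg_left _ (Nat.cast_nonneg _)
    exact Real.rpow_le_rpow_of_exponent_le hX1 (by linarith)
  · intro r hr
    exact Nat.cast_nonneg _
  · intro r hr _
    rw [mem_filter] at hr
    exact_mod_cast (Nat.prime_of_mem_primeFactors hr.1).one_lt.le

open Classical in
theorem QQ_sub (x y y1 x' : ℕ) (ε : ℝ) (hy : 1 ≤ y) (hyx : (y : ℝ) < (x : ℝ) ^ ε)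
    (hx' : (x : ℝ) ^ (1 - ε / 2) ≤ (x' : ℝ) + 1) :
    QQ x ε ⊆ ((Icc 1 x').filter Leh ∪ Pool.Agent.TH43.LK.AA x y1) ∪
      ((range (Nat.log 2 x + 1)).filter (fun i => 2 ^ i * y ≤ y1)).biUnion
        (fun i => BQ x (2 ^ i * y) ε) := by
  intro n hn
  unfold QQ at hn
  rw [mem_filter, mem_Icc] at hn
  obtain ⟨⟨hn1, hnx⟩, hL, p, hp, hpn, h3, h4⟩ := hn
  rw [mem_union, mem_union]
  rcases Nat.lt_or_ge x' n with h5 | h5
  · rcases Nat.lt_or_ge y1 p with h6 | h6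
    · left
      right
      unfold Pool.Agent.TH43.LK.AA
      rw [mem_filter, mem_Icc]
      exact ⟨⟨hn1, hnx⟩, hL, p, hp, hpn, h6⟩
    · right
      have hyp : y < p := by
        have : (y : ℝ) < (p : ℝ) := lt_of_lt_of_le hyx h3
        exact_mod_cast this
      set a := (p - 1) / y with ha
      have ha0 : a ≠ 0 := by
        have : 0 < (p - 1) / y := Nat.div_pos (by omega) hy
        omega
      set i := Nat.log 2 a with hi
      have h1 : 2 ^ i ≤ a := Nat.pow_log_le_self 2 ha0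
      have h2 : a < 2 ^ (i + 1) := Nat.lt_pow_succ_log_self (by norm_num) a
      have hpx : p ≤ x := (Nat.le_of_dvd (by omega) hpn).trans hnx
      have hlo : 2 ^ i * y < p := by
        have h3 : 2 ^ i * y ≤ a * y := Nat.mul_le_mul_right _ h1
        have h4 : a * y ≤ p - 1 := Nat.div_mul_le_self _ _
        have := hp.one_lt
        omega
      have hhi : p ≤ 2 * (2 ^ i * y) := by
        have h3 : p - 1 < 2 ^ (i + 1) * y := (Nat.div_lt_iff_lt_mul hy).1 h2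
        have h4 : 2 ^ (i + 1) * y = 2 * (2 ^ i * y) := by ring
        omega
      rw [mem_biUnion]
      refine ⟨i, ?_, ?_⟩
      · rw [mem_filter, mem_range]
        refine ⟨?_, by omega⟩
        have : a ≤ x := (Nat.div_le_self _ _).trans (by omega)
        have := Nat.log_mono_right (b := 2) this
        omega
      · unfold BQ
        rw [mem_filter, mem_Icc]
        refine ⟨⟨hn1, hnx⟩, hL, ?_, p, hp, hpn, hlo, hhi, h4⟩
        have : ((x' : ℝ) + 1) ≤ (n : ℝ) := by exact_mod_cast h5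
        linarith
  · left
    left
    rw [mem_filter, mem_Icc]
    exact ⟨⟨hn1, h5⟩, hL⟩

theorem main_q_small (ε : ℝ) (hε : 0 < ε) (hε1 : ε ≤ 1 / 20) : ∃ δ C X0 : ℝ, 0 < δ ∧
    δ ≤ 1 / 4 ∧ 0 < C ∧ 1 ≤ X0 ∧ ∀ x : ℕ, X0 ≤ (x : ℝ) →
      ((QQ x ε).card : ℝ) ≤ C * (x : ℝ) ^ (1 / 2 - δ) := by
  classical
  obtain ⟨δ, C, X1, hδ, hδε, hC, hX1, hblk⟩ := block_bd ε hε hε1
  obtain ⟨C1, hC1, haa⟩ := Pool.Agent.TH43.LK.main_one (1 / 60) (by norm_num)
  obtain ⟨C2, hC2, hleh⟩ := leh_light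
  obtain ⟨C4, hC4, hlog4⟩ := Pool.Agent.TH43.LK.log_pow_le 3 (ε / 8) (by positivity)
  obtain ⟨C3, hC3, hlog⟩ := Pool.Agent.TH43.LK.log_pow_le 4 (δ / 2) (by positivity)
  obtain ⟨X2, hX2, habs⟩ := absorb 3 (by norm_num) 0 (ε / 4) (by positivity)
  obtain ⟨X3, hX3, habs3⟩ := absorb 16 (by norm_num) 0 (1 / 5) (by norm_num)
  set δ' : ℝ := min (min (δ / 2) (1 / 60)) (ε / 8) with hδ'
  have hd1 : δ' ≤ δ / 2 := (min_le_left _ _).trans (min_le_left _ _)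
  have hd2 : δ' ≤ 1 / 60 := (min_le_left _ _).trans (min_le_right _ _)
  have hd3 : δ' ≤ ε / 8 := min_le_right _ _
  have hd0 : 0 < δ' := by
    rw [hδ']
    exact lt_min (lt_min (by positivity) (by norm_num)) (by positivity)
  refine ⟨δ', C2 * C4 + 2 * C1 + 2 * C * C3, max (max X1 X2) X3, hd0, by linarith, by positivity,
    le_trans hX1 ((le_max_left _ _).trans (le_max_left _ _)), ?_⟩
  intro x hX
  have hXX1 : X1 ≤ (x : ℝ) := ((le_max_left _ _).trans (le_max_left _ _)).trans hX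
  have hXX2 : X2 ≤ (x : ℝ) := ((le_max_right _ _).trans (le_max_left _ _)).trans hX
  have hXX3 : X3 ≤ (x : ℝ) := (le_max_right _ _).trans hX
  have hX1' : (1 : ℝ) ≤ (x : ℝ) := hX1.trans hXX1
  have hXp : (0 : ℝ) < (x : ℝ) := by linarith
  have hxn : 1 ≤ x := by exact_mod_cast hX1'
  have h3 : 3 ≤ (x : ℝ) ^ (ε / 4) := by
    have := habs x hXX2
    rwa [pow_zero, mul_one] at this
  have h16 : 16 ≤ (x : ℝ) ^ (1 / 5 : ℝ) := by
    have := habs3 x hXX3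
    rwa [pow_zero, mul_one] at this
  have hl0 : 0 ≤ Real.log (x : ℝ) := Real.log_nonneg hX1'
  -- the three integers
  obtain ⟨y, hy⟩ : ∃ y : ℕ, y = ⌈(x : ℝ) ^ (3 * ε / 4)⌉₊ := ⟨_, rfl⟩
  obtain ⟨y1, hy1⟩ : ∃ y1 : ℕ, y1 = ⌊(x : ℝ) ^ (3 / 10 : ℝ)⌋₊ := ⟨_, rfl⟩
  obtain ⟨x', hx'⟩ : ∃ x' : ℕ, x' = ⌊(x : ℝ) ^ (1 - ε / 2)⌋₊ := ⟨_, rfl⟩
  have hylo : (x : ℝ) ^ (3 * ε / 4) ≤ (y : ℝ) := by rw [hy]; exact Nat.le_ceil _
  have hyhi : (y : ℝ) < (x : ℝ) ^ (3 * ε / 4) + 1 := by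
    rw [hy]; exact Nat.ceil_lt_add_one (by positivity)
  have hx34 : 1 ≤ (x : ℝ) ^ (3 * ε / 4) := Real.one_le_rpow hX1' (by positivity)
  have hy_one : 1 ≤ y := by
    have : (1 : ℝ) ≤ (y : ℝ) := hx34.trans hylo
    exact_mod_cast this
  have hyx : (y : ℝ) < (x : ℝ) ^ ε := by
    have h5 : (x : ℝ) ^ ε = (x : ℝ) ^ (3 * ε / 4) * (x : ℝ) ^ (ε / 4) := (rp hXp (by ring)).symm
    rw [h5]
    nlinarith
  have hy1hi : (y1 : ℝ) ≤ (x : ℝ) ^ (3 / 10 : ℝ) := by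
    rw [hy1]; exact Nat.floor_le (by positivity)
  have hx310 : 16 ≤ (x : ℝ) ^ (3 / 10 : ℝ) := h16.trans
    (Real.rpow_le_rpow_of_exponent_le hX1' (by norm_num))
  have hy1lo : (x : ℝ) ^ (3 / 10 : ℝ) ≤ 2 * (y1 : ℝ) := by
    have h5 := Nat.lt_floor_add_one ((x : ℝ) ^ (3 / 10 : ℝ))
    rw [← hy1] at h5
    linarith
  have hy10 : (0 : ℝ) < y1 := by linarith
  have hy1_one : 1 ≤ y1 := by
    have : (0 : ℝ) < y1 := hy10
    exact_mod_cast this
  have hx'lo : (x : ℝ) ^ (1 - ε / 2) ≤ (x' : ℝ) + 1 := by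
    rw [hx']; exact (Nat.lt_floor_add_one _).le
  have hx'hi : (x' : ℝ) ≤ (x : ℝ) ^ (1 - ε / 2) := by
    rw [hx']; exact Nat.floor_le (by positivity)
  have hx'2 : 2 ≤ x' := by
    rw [hx']
    apply Nat.le_floor
    push_cast
    calc (2 : ℝ) ≤ 16 := by norm_num
      _ ≤ (x : ℝ) ^ (1 / 5 : ℝ) := h16
      _ ≤ _ := Real.rpow_le_rpow_of_exponent_le hX1' (by linarith)
  -- the first part
  have hp1 : ((((Icc 1 x').filter Leh).card : ℕ) : ℝ) ≤ C2 * C4 * (x : ℝ) ^ (1 / 2 - δ') := by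
    have h5 := hleh x' (by omega)
    have hx'0 : (0 : ℝ) < (x' : ℝ) := by
      have : 0 < x' := by omega
      exact_mod_cast this
    have hx'x : (x' : ℝ) ≤ (x : ℝ) := by
      refine hx'hi.trans ?_
      calc (x : ℝ) ^ (1 - ε / 2) ≤ (x : ℝ) ^ (1 : ℝ) :=
            Real.rpow_le_rpow_of_exponent_le hX1' (by linarith)
        _ = x := Real.rpow_one _
    have h6 : Real.log (x' : ℝ) ≤ Real.log (x : ℝ) := Real.log_le_log hx'0 hx'x
    have h60 : 0 ≤ Real.log (x' : ℝ) := Real.log_natCast_nonneg x'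
    have h7 : (1 + Real.log (x' : ℝ)) ^ 3 ≤ C4 * (x : ℝ) ^ (ε / 8) :=
      (pow_le_pow_left₀ (by linarith) (by linarith) 3).trans (hlog4 x hX1')
    have h8 : Real.sqrt (x' : ℝ) ≤ (x : ℝ) ^ (1 / 2 - ε / 4) := by
      calc Real.sqrt (x' : ℝ) ≤ Real.sqrt ((x : ℝ) ^ (1 - ε / 2)) := Real.sqrt_le_sqrt hx'hi
        _ = (x : ℝ) ^ ((1 - ε / 2) * (1 / 2)) := by
            rw [Real.sqrt_eq_rpow, ← Real.rpow_mul hXp.le]
        _ = _ := by congr 1; ring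
    refine h5.trans ?_
    calc C2 * (1 + Real.log (x' : ℝ)) ^ 3 * Real.sqrt (x' : ℝ) ≤
        C2 * (C4 * (x : ℝ) ^ (ε / 8)) * (x : ℝ) ^ (1 / 2 - ε / 4) := by
          apply mul_le_mul _ h8 (Real.sqrt_nonneg _) (by positivity)
          exact mul_le_mul_of_nonneg_left h7 hC2.le
      _ = C2 * C4 * ((x : ℝ) ^ (ε / 8) * (x : ℝ) ^ (1 / 2 - ε / 4)) := by ring
      _ = C2 * C4 * (x : ℝ) ^ (1 / 2 - ε / 8) := by
          rw [rp hXp (show ε / 8 + (1 / 2 - ε / 4) = 1 / 2 - ε / 8 by ring)]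
      _ ≤ _ := by
          apply mul_le_mul_of_nonneg_left _ (by positivity)
          exact Real.rpow_le_rpow_of_exponent_le hX1' (by linarith)
  -- the second part
  have hp2 : ((Pool.Agent.TH43.LK.AA x y1).card : ℝ) ≤ 2 * C1 * (x : ℝ) ^ (1 / 2 - δ') := by
    have hxy : x ≤ y1 ^ 4 := by
      have h5 : (x : ℝ) ≤ (y1 : ℝ) ^ 4 := by
        have h6 := pow_le_pow_left₀ (by positivity) hy1lo 4
        have h7 : ((x : ℝ) ^ (3 / 10 : ℝ)) ^ 4 = (x : ℝ) * (x : ℝ) ^ (1 / 5 : ℝ) := by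
          rw [← Real.rpow_natCast, ← Real.rpow_mul hXp.le]
          push_cast
          rw [show (3 / 10 : ℝ) * 4 = 1 + 1 / 5 by norm_num, Real.rpow_add hXp, Real.rpow_one]
        rw [h7] at h6
        nlinarith
      exact_mod_cast h5
    refine (haa x y1 hy1_one hxy).trans ?_
    have h5 : (x : ℝ) / y1 ≤ 2 * (x : ℝ) ^ (7 / 10 : ℝ) := by
      rw [div_le_iff₀ hy10]
      calc (x : ℝ) = (x : ℝ) ^ (7 / 10 : ℝ) * (x : ℝ) ^ (3 / 10 : ℝ) := by
            rw [rp hXp (show (7 / 10 : ℝ) + 3 / 10 = 1 by norm_num), Real.rpow_one]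
        _ ≤ (x : ℝ) ^ (7 / 10 : ℝ) * (2 * y1) := mul_le_mul_of_nonneg_left hy1lo (by positivity)
        _ = _ := by ring
    have h6 : ((x : ℝ) / y1) ^ (2 / 3 : ℝ) ≤ 2 * (x : ℝ) ^ (7 / 15 : ℝ) := by
      calc ((x : ℝ) / y1) ^ (2 / 3 : ℝ) ≤ (2 * (x : ℝ) ^ (7 / 10 : ℝ)) ^ (2 / 3 : ℝ) :=
            Real.rpow_le_rpow (by positivity) h5 (by norm_num)
        _ = (2 : ℝ) ^ (2 / 3 : ℝ) * (x : ℝ) ^ (7 / 15 : ℝ) := by
            rw [Real.mul_rpow (by norm_num) (by positivity), ← Real.rpow_mul hXp.le]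
            norm_num
        _ ≤ (2 : ℝ) ^ (1 : ℝ) * (x : ℝ) ^ (7 / 15 : ℝ) := by
            apply mul_le_mul_of_nonneg_right _ (by positivity)
            exact Real.rpow_le_rpow_of_exponent_le (by norm_num) (by norm_num)
        _ = _ := by rw [Real.rpow_one]
    calc C1 * (x : ℝ) ^ (1 / 60 : ℝ) * ((x : ℝ) / y1) ^ (2 / 3 : ℝ) ≤
        C1 * (x : ℝ) ^ (1 / 60 : ℝ) * (2 * (x : ℝ) ^ (7 / 15 : ℝ)) :=
          mul_le_mul_of_nonneg_left h6 (by positivity)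
      _ = 2 * C1 * ((x : ℝ) ^ (1 / 60 : ℝ) * (x : ℝ) ^ (7 / 15 : ℝ)) := by ring
      _ = 2 * C1 * (x : ℝ) ^ (29 / 60 : ℝ) := by
          rw [rp hXp (show (1 / 60 : ℝ) + 7 / 15 = 29 / 60 by norm_num)]
      _ ≤ _ := by
          apply mul_le_mul_of_nonneg_left _ (by positivity)
          exact Real.rpow_le_rpow_of_exponent_le hX1' (by linarith)
  -- the blocks
  have hp3 : ((((range (Nat.log 2 x + 1)).filter (fun i => 2 ^ i * y ≤ y1)).biUnion
        (fun i => BQ x (2 ^ i * y) ε)).card : ℝ) ≤ 2 * C * C3 * (x : ℝ) ^ (1 / 2 - δ') := by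
    have h5 : ((((range (Nat.log 2 x + 1)).filter (fun i => 2 ^ i * y ≤ y1)).biUnion
        (fun i => BQ x (2 ^ i * y) ε)).card : ℝ) ≤
        ∑ i ∈ (range (Nat.log 2 x + 1)).filter (fun i => 2 ^ i * y ≤ y1),
          ((BQ x (2 ^ i * y) ε).card : ℝ) := by
      exact_mod_cast card_biUnion_le
    have h6 : ∀ i ∈ (range (Nat.log 2 x + 1)).filter (fun i => 2 ^ i * y ≤ y1),
        ((BQ x (2 ^ i * y) ε).card : ℝ) ≤
        C * (1 + Real.log x) ^ 3 * (x : ℝ) ^ (1 / 2 - δ) := by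
      intro i hi
      rw [mem_filter] at hi
      apply hblk x (2 ^ i * y) hXX1
      · refine hylo.trans ?_
        have : y ≤ 2 ^ i * y := Nat.le_mul_of_pos_left y (by positivity)
        exact_mod_cast this
      · refine le_trans ?_ hy1hi
        exact_mod_cast hi.2
    refine h5.trans ((sum_le_sum h6).trans ?_)
    rw [sum_const, nsmul_eq_mul]
    have h7 : (((range (Nat.log 2 x + 1)).filter (fun i => 2 ^ i * y ≤ y1)).card : ℝ) ≤
        2 * (1 + Real.log x) := by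
      have h8 : ((range (Nat.log 2 x + 1)).filter (fun i => 2 ^ i * y ≤ y1)).card ≤
          Nat.log 2 x + 1 := by
        refine (card_filter_le _ _).trans ?_
        simp
      have h9 : (((range (Nat.log 2 x + 1)).filter (fun i => 2 ^ i * y ≤ y1)).card : ℝ) ≤
          ((Nat.log 2 x + 1 : ℕ) : ℝ) := Nat.cast_le.2 h8
      refine h9.trans ?_
      have h2 : (2 : ℝ) ^ (Nat.log 2 x) ≤ x := by exact_mod_cast Nat.pow_log_le_self 2 (by omega)
      have h3 := Real.log_le_log (by positivity) h2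
      rw [Real.log_pow] at h3
      have h4 := Real.log_two_gt_d9
      have h5 : (0 : ℝ) ≤ (Nat.log 2 x : ℝ) := Nat.cast_nonneg _
      push_cast
      nlinarith
    have h8 := hlog x hX1'
    calc (((range (Nat.log 2 x + 1)).filter (fun i => 2 ^ i * y ≤ y1)).card : ℝ) *
        (C * (1 + Real.log x) ^ 3 * (x : ℝ) ^ (1 / 2 - δ)) ≤
        (2 * (1 + Real.log x)) * (C * (1 + Real.log x) ^ 3 * (x : ℝ) ^ (1 / 2 - δ)) :=
          mul_le_mul_of_nonneg_right h7 (by positivity)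
      _ = 2 * C * ((1 + Real.log x) ^ 4 * (x : ℝ) ^ (1 / 2 - δ)) := by ring
      _ ≤ 2 * C * ((C3 * (x : ℝ) ^ (δ / 2)) * (x : ℝ) ^ (1 / 2 - δ)) := by
          apply mul_le_mul_of_nonneg_left _ (by positivity)
          exact mul_le_mul_of_nonneg_right h8 (by positivity)
      _ = 2 * C * C3 * ((x : ℝ) ^ (δ / 2) * (x : ℝ) ^ (1 / 2 - δ)) := by ring
      _ = 2 * C * C3 * (x : ℝ) ^ (1 / 2 - δ / 2) := by
          rw [rp hXp (show δ / 2 + (1 / 2 - δ) = 1 / 2 - δ / 2 by ring)]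
      _ ≤ _ := by
          apply mul_le_mul_of_nonneg_left _ (by positivity)
          exact Real.rpow_le_rpow_of_exponent_le hX1' (by linarith)
  have hsub := card_le_card (QQ_sub x y y1 x' ε hy_one hyx hx'lo)
  have hsub2 := hsub.trans ((card_union_le _ _).trans
    (Nat.add_le_add_right (card_union_le _ _) _))
  have hsub3 : ((QQ x ε).card : ℝ) ≤ ((((Icc 1 x').filter Leh).card : ℕ) : ℝ) +
      ((Pool.Agent.TH43.LK.AA x y1).card : ℝ) +
      ((((range (Nat.log 2 x + 1)).filter (fun i => 2 ^ i * y ≤ y1)).biUnion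
        (fun i => BQ x (2 ^ i * y) ε)).card : ℝ) := by exact_mod_cast hsub2
  calc ((QQ x ε).card : ℝ) ≤ C2 * C4 * (x : ℝ) ^ (1 / 2 - δ') + 2 * C1 * (x : ℝ) ^ (1 / 2 - δ') +
        2 * C * C3 * (x : ℝ) ^ (1 / 2 - δ') := by linarith
    _ = _ := by ring

theorem main_q (ε : ℝ) (hε : 0 < ε) : ∃ δ C : ℝ, 0 < δ ∧ 0 < C ∧ ∀ x : ℕ,
    ((QQ x ε).card : ℝ) ≤ C * (x : ℝ) ^ (1 / 2 - δ) := by
  classical
  obtain ⟨δ, C, X0, hδ, hδ1, hC, hX0, h⟩ := main_q_small (min ε (1 / 20))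
    (lt_min hε (by norm_num)) (min_le_right _ _)
  refine ⟨δ, C + X0, hδ, by linarith, ?_⟩
  intro x
  rcases Nat.eq_zero_or_pos x with h0 | h0
  · subst h0
    have : QQ 0 ε = ∅ := by unfold QQ; simp
    rw [this]
    simp only [card_empty, Nat.cast_zero]
    have : 0 ≤ X0 := by linarith
    positivity
  have hX1 : (1 : ℝ) ≤ (x : ℝ) := by exact_mod_cast h0
  have hp : 0 ≤ (x : ℝ) ^ (1 / 2 - δ) := by positivity
  have hp1 : 1 ≤ (x : ℝ) ^ (1 / 2 - δ) := Real.one_le_rpow hX1 (by linarith)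
  rcases le_or_gt X0 (x : ℝ) with h1 | h1
  · have h2 : ((QQ x ε).card : ℝ) ≤ ((QQ x (min ε (1 / 20))).card : ℝ) :=
      Nat.cast_le.2 (card_le_card (QQ_mono x h0 (min_le_left _ _)))
    refine h2.trans ((h x h1).trans ?_)
    nlinarith
  · have h2 : (QQ x ε).card ≤ x := by
      unfold QQ
      refine (card_filter_le _ _).trans ?_
      simp
    have h3 : ((QQ x ε).card : ℝ) ≤ (x : ℝ) := Nat.cast_le.2 h2
    nlinarith

end Pool.Agent.TH43.LQ
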