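import Pool.Agent.TH43.LQ.Stm
import Pool.Agent.H95R2.Leh.FamLeh
import Pool.Agent.H95R2.Leh.DenseB
import Pool.Agent.H95R2.Leh.Tot

/-!
# Initial segments of Lehmer numbers with a large next prime are sparse
-/

set_option autoImplicit false

namespace Pool.Agent.TH43.LQ

open Finset Pool.Agent.H95R2.Leh

namespace Sparse

/-- all states with quotient `k` -/
def StU (k : ℕ) (R : ℝ) (D q : ℕ) : Prop := ∃ x : ℕ, StL x k R D q

theorem fam_StU (k : ℕ) (R : ℝ) (hk : 1 ≤ k) (hR : 1 ≤ R) : Fam k R (StU k R) where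
  k_pos := hk
  R_one := hR
  sqf := fun D q ⟨x, h⟩ => (fam_leh x k R hk hR).sqf D q h
  cop := fun D q ⟨x, h⟩ => (fam_leh x k R hk hR).cop D q h
  ne := fun D q ⟨x, h⟩ => (fam_leh x k R hk hR).ne D q h
  small := fun D q ⟨x, h⟩ => (fam_leh x k R hk hR).small D q h
  sub := fun D q s ⟨x, h⟩ hs hsD => ⟨x, (fam_leh x k R hk hR).sub D q s h hs hsD⟩
  lt := fun D q p ⟨x, h⟩ => (fam_leh x k R hk hR).lt D q p h

theorem omega_le {n x : ℕ} (hn : 1 ≤ n) (hnx : n ≤ x) :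
    (n.primeFactors.card : ℝ) ≤ 1 + 2 * Real.log x := by
  have h1 := Tot.card_le n hn
  have h2 : Real.log n ≤ Real.log x :=
    Real.log_le_log (by exact_mod_cast hn) (by exact_mod_cast hnx)
  have h3 := Real.log_two_gt_d9
  have h4 : (0 : ℝ) ≤ n.primeFactors.card := Nat.cast_nonneg _
  nlinarith

theorem clog_le {x : ℕ} (hx : 1 ≤ x) : (Nat.clog 2 x : ℝ) ≤ 1 + 2 * Real.log x := by
  have hl : 0 ≤ Real.log x := Real.log_natCast_nonneg x
  rcases eq_or_lt_of_le hx with h | h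
  · rw [← h]
    simp
  · have h1 : 2 ^ (Nat.clog 2 x - 1) < x := Nat.pow_pred_clog_lt_self (by norm_num) h
    have h2 : 1 ≤ Nat.clog 2 x := Nat.clog_pos (by norm_num) h
    have h3 : ((Nat.clog 2 x - 1 : ℕ) : ℝ) * Real.log 2 ≤ Real.log x := by
      rw [← Real.log_pow]
      exact Real.log_le_log (by positivity) (by exact_mod_cast h1.le)
    rw [Nat.cast_sub h2, Nat.cast_one] at h3
    have h4 := Real.log_two_gt_d9
    have h5 : (1 : ℝ) ≤ Nat.clog 2 x := by exact_mod_cast h2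
    nlinarith

theorem log_pow (ε : ℝ) (hε : 0 < ε) (x : ℝ) (hx : 1 ≤ x) :
    (1 + 2 * Real.log x) ^ 5 ≤ (2 * (1 + 5 / ε)) ^ 5 * x ^ ε := by
  have hx0 : 0 < x := by linarith
  have hl : 0 ≤ Real.log x := Real.log_nonneg hx
  have h1 : Real.log x ≤ x ^ (ε / 5) / (ε / 5) := Real.log_le_rpow_div hx0.le (by positivity)
  have h2 : (1 : ℝ) ≤ x ^ (ε / 5) := Real.one_le_rpow hx (by positivity)
  have h3 : 1 + 2 * Real.log x ≤ 2 * (1 + 5 / ε) * x ^ (ε / 5) := by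
    have : x ^ (ε / 5) / (ε / 5) = 5 / ε * x ^ (ε / 5) := by field_simp
    rw [this] at h1
    nlinarith
  calc (1 + 2 * Real.log x) ^ 5 ≤ (2 * (1 + 5 / ε) * x ^ (ε / 5)) ^ 5 :=
        pow_le_pow_left₀ (by linarith) h3 5
    _ = (2 * (1 + 5 / ε)) ^ 5 * x ^ ε := by
        rw [mul_pow, ← Real.rpow_natCast (x ^ (ε / 5)), ← Real.rpow_mul hx0.le]
        congr 2
        push_cast
        ring

open Classical in
/-- the set to be counted -/
noncomputable def A (x : ℕ) (F P : ℝ) : Finset ℕ :=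
  (Icc 1 ⌊F⌋₊).filter (fun f : ℕ => ∃ n q : ℕ, Leh n ∧ n ≤ x ∧ q.Prime ∧ q ∣ n ∧ P ≤ q ∧
    seg n q ∣ f)

open Classical in
/-- one box of the covering -/
noncomputable def Bx (R F P : ℝ) (t : ℕ × ℕ × ℕ) : Finset ℕ :=
  ((DD (StU (t.1 + 1) R) ((2 : ℝ) ^ t.2.1) (2 ^ t.2.2 * P)) ×ˢ
    (Icc 1 ⌊2 * F / 2 ^ t.2.1⌋₊)).image (fun z => z.1 * z.2)

theorem card_Bx {C0 : ℝ} (hC0 : ∀ (k : ℕ) (R : ℝ) (St : ℕ → ℕ → Prop), Fam k R St →
    ∀ y P : ℝ, 0 < y → C0 * R ≤ P → Fn St y P ≤ C0 * R ^ 2) (hC1 : 1 ≤ C0) {R F P : ℝ}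
    (hR : 1 ≤ R) (hF : 1 ≤ F) (hP : C0 * R ≤ P) (t : ℕ × ℕ × ℕ) :
    ((Bx R F P t).card : ℝ) ≤ 2 * F * (C0 * R ^ 2) / Real.sqrt P := by
  classical
  have hP0 : 0 < P := by nlinarith
  have h2 : (1 : ℝ) ≤ 2 ^ t.2.2 := one_le_pow₀ (by norm_num)
  have hPP : P ≤ 2 ^ t.2.2 * P := by nlinarith
  have hy : (0 : ℝ) < 2 ^ t.2.1 := by positivity
  have h1 := hC0 (t.1 + 1) R (StU (t.1 + 1) R) (fam_StU _ _ (by omega) hR) (2 ^ t.2.1)
    (2 ^ t.2.2 * P) hy (hP.trans hPP)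
  unfold Fn at h1
  rw [div_le_iff₀ hy] at h1
  set d := (DD (StU (t.1 + 1) R) ((2 : ℝ) ^ t.2.1) (2 ^ t.2.2 * P)).card with hd
  have hs : Real.sqrt P ≤ Real.sqrt (2 ^ t.2.2 * P) := Real.sqrt_le_sqrt hPP
  have hs0 : 0 < Real.sqrt P := Real.sqrt_pos.2 hP0
  have h3 : (d : ℝ) * Real.sqrt P ≤ C0 * R ^ 2 * 2 ^ t.2.1 :=
    (mul_le_mul_of_nonneg_left hs (Nat.cast_nonneg _)).trans h1
  have h4 : ((Bx R F P t).card : ℝ) ≤ d * (2 * F / 2 ^ t.2.1) := by
    have h5 : (Bx R F P t).card ≤ d * ⌊2 * F / 2 ^ t.2.1⌋₊ := by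
      unfold Bx
      refine Finset.card_image_le.trans ?_
      rw [Finset.card_product, Nat.card_Icc, hd]
      simp
    calc ((Bx R F P t).card : ℝ) ≤ ((d * ⌊2 * F / 2 ^ t.2.1⌋₊ : ℕ) : ℝ) := by exact_mod_cast h5
      _ = d * (⌊2 * F / 2 ^ t.2.1⌋₊ : ℝ) := by push_cast; rfl
      _ ≤ d * (2 * F / 2 ^ t.2.1) := mul_le_mul_of_nonneg_left
          (Nat.floor_le (by positivity)) (Nat.cast_nonneg _)
  rw [le_div_iff₀ hs0]
  calc ((Bx R F P t).card : ℝ) * Real.sqrt P ≤ (d * (2 * F / 2 ^ t.2.1)) * Real.sqrt P :=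
        mul_le_mul_of_nonneg_right h4 hs0.le
    _ = (d * Real.sqrt P) * (2 * F / 2 ^ t.2.1) := by ring
    _ ≤ (C0 * R ^ 2 * 2 ^ t.2.1) * (2 * F / 2 ^ t.2.1) :=
        mul_le_mul_of_nonneg_right h3 (by positivity)
    _ = 2 * F * (C0 * R ^ 2) := by field_simp

theorem cover {x : ℕ} {R F P : ℝ} (hx : 1 ≤ x) (hF : 1 ≤ F) (hFx : F ≤ x) (hP : 1 ≤ P)
    (hR : R = 1 + 2 * Real.log x) :
    A x F P ⊆ ((range (⌊R⌋₊ + 1)) ×ˢ ((range (Nat.clog 2 x + 1)) ×ˢ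
      (range (Nat.clog 2 x + 1)))).biUnion (Bx R F P) := by
  classical
  intro f hf
  unfold A at hf
  rw [mem_filter, mem_Icc] at hf
  obtain ⟨⟨hf1, hfF⟩, n, q, hn, hnx, hq, hqn, hPq, hD⟩ := hf
  have hn1 := hn.1
  have hfF' : (f : ℝ) ≤ F := (Nat.le_floor_iff' (by omega)).1 hfF
  obtain ⟨k, hk2, hk, hkc⟩ := leh_k hn
  have hcard : (n.primeFactors.card : ℝ) ≤ R := by rw [hR]; exact omega_le (by omega) hnx
  set D := seg n q with hDdef
  have hD0 : 0 < D := Nat.pos_of_dvd_of_pos hD (by omega)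
  have hDf : D ≤ f := Nat.le_of_dvd (by omega) hD
  have hDF : (D : ℝ) ≤ F := le_trans (by exact_mod_cast hDf) hfF'
  have hDx : D ≤ x := by exact_mod_cast hDF.trans hFx
  have hst : StU k R D q := ⟨n, n, hn, by omega, le_refl n, hk, hcard, Or.inl ⟨hq, hqn, rfl⟩⟩
  have hqx : q ≤ x := (Nat.le_of_dvd (by omega) hqn).trans hnx
  have hxl : x ≤ 2 ^ Nat.clog 2 x := Nat.le_pow_clog (by norm_num) x
  -- the dyadic range of `q`
  have hex : ∃ j : ℕ, (q : ℝ) ≤ 2 ^ j * P := by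
    refine ⟨Nat.clog 2 x, ?_⟩
    have h1 : (q : ℝ) ≤ 2 ^ Nat.clog 2 x := by exact_mod_cast hqx.trans hxl
    have h2 : (0 : ℝ) < 2 ^ Nat.clog 2 x := by positivity
    nlinarith
  obtain ⟨j, hj1, hj2, hj3⟩ : ∃ j : ℕ, j ≤ Nat.clog 2 x ∧ (q : ℝ) ≤ 2 ^ j * P ∧
      2 ^ j * P / 2 < (q : ℝ) := by
    refine ⟨Nat.find hex, ?_, Nat.find_spec hex, ?_⟩
    · apply Nat.find_min'
      have h1 : (q : ℝ) ≤ 2 ^ Nat.clog 2 x := by exact_mod_cast hqx.trans hxl
      have h2 : (0 : ℝ) < 2 ^ Nat.clog 2 x := by positivity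
      nlinarith
    · rcases Nat.eq_zero_or_pos (Nat.find hex) with h0 | h0
      · rw [h0, pow_zero, one_mul]
        linarith
      · have h1 := Nat.find_min hex (m := Nat.find hex - 1) (by omega)
        push Not at h1
        have h2 : (2 : ℝ) ^ Nat.find hex = 2 * 2 ^ (Nat.find hex - 1) := by
          rw [← pow_succ']
          congr 1
          omega
        rw [h2]
        linarith
  -- the dyadic range of `D`
  have hi1 : Nat.clog 2 D ≤ Nat.clog 2 x := Nat.clog_mono_right 2 hDx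
  have hi2 : (D : ℝ) ≤ 2 ^ Nat.clog 2 D := by
    exact_mod_cast Nat.le_pow_clog (by norm_num) D
  have hi3 : (2 : ℝ) ^ Nat.clog 2 D / 2 < D := by
    rcases eq_or_lt_of_le (Nat.succ_le_of_lt hD0) with h | h
    · rw [← h]
      simp
      norm_num
    · have h1 : 2 ^ (Nat.clog 2 D - 1) < D := Nat.pow_pred_clog_lt_self (by norm_num) h
      have h2 : 1 ≤ Nat.clog 2 D := Nat.clog_pos (by norm_num) h
      have h3 : (2 : ℝ) ^ Nat.clog 2 D = 2 * 2 ^ (Nat.clog 2 D - 1) := by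
        rw [← pow_succ']
        congr 1
        omega
      rw [h3]
      have h4 : (2 : ℝ) ^ (Nat.clog 2 D - 1) < D := by exact_mod_cast h1
      linarith
  rw [mem_biUnion]
  refine ⟨(k - 1, Nat.clog 2 D, j), ?_, ?_⟩
  · rw [mem_product, mem_product, mem_range, mem_range, mem_range]
    refine ⟨?_, Nat.lt_succ_of_le hi1, Nat.lt_succ_of_le hj1⟩
    have h1 : n.primeFactors.card ≤ ⌊R⌋₊ := Nat.le_floor hcard
    change k - 1 < ⌊R⌋₊ + 1
    omega
  · unfold Bx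
    rw [mem_image]
    refine ⟨(D, f / D), ?_, Nat.mul_div_cancel' hD⟩
    rw [mem_product]
    constructor
    · change D ∈ DD (StU (k - 1 + 1) R) ((2 : ℝ) ^ Nat.clog 2 D) (2 ^ j * P)
      rw [Nat.sub_add_cancel (by omega : 1 ≤ k)]
      unfold DD
      rw [mem_filter, mem_Icc]
      exact ⟨⟨hD0, Nat.le_floor hi2⟩, hi3, q, hj3, hj2, hst⟩
    · change f / D ∈ Icc 1 ⌊2 * F / 2 ^ Nat.clog 2 D⌋₊
      rw [mem_Icc]
      refine ⟨Nat.div_pos hDf hD0, Nat.le_floor ?_⟩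
      rw [le_div_iff₀ (by positivity)]
      have h1 : ((f / D : ℕ) : ℝ) * D = f := by exact_mod_cast Nat.div_mul_cancel hD
      have h2 : (0 : ℝ) ≤ ((f / D : ℕ) : ℝ) := Nat.cast_nonneg _
      nlinarith

end Sparse

open Sparse in
theorem sparse : S_SPARSE := by
  classical
  intro ε hε
  obtain ⟨C0, hC1, hC0⟩ := Fn_triv
  have hC0p : 0 < C0 := by linarith
  refine ⟨24 * C0 * (2 * (1 + 5 / ε)) ^ 5, by positivity, ?_⟩
  intro x F P hx hF hFx hP
  set R : ℝ := 1 + 2 * Real.log x with hR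
  have hl : 0 ≤ Real.log x := Real.log_natCast_nonneg x
  have hR1 : 1 ≤ R := by linarith
  have hP0 : 0 < P := by linarith
  have hF0 : 0 < F := by linarith
  have hs0 : 0 < Real.sqrt P := Real.sqrt_pos.2 hP0
  have hrp : P ^ (-(1 / 2) : ℝ) = (Real.sqrt P)⁻¹ := by
    rw [Real.rpow_neg hP0.le, ← Real.sqrt_eq_rpow]
  have hR5 : R ^ 5 ≤ (2 * (1 + 5 / ε)) ^ 5 * (x : ℝ) ^ ε :=
    Sparse.log_pow ε hε x (by exact_mod_cast hx)
  have key : ((Sparse.A x F P).card : ℝ) ≤ 24 * C0 * R ^ 5 * F * (Real.sqrt P)⁻¹ := by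
    rcases lt_or_ge P (C0 * R) with h | h
    · have h1 : ((Sparse.A x F P).card : ℝ) ≤ F := by
        have h2 : (Sparse.A x F P).card ≤ ⌊F⌋₊ := by
          unfold Sparse.A
          refine (Finset.card_filter_le _ _).trans ?_
          rw [Nat.card_Icc]
          omega
        exact (by exact_mod_cast h2 : ((Sparse.A x F P).card : ℝ) ≤ (⌊F⌋₊ : ℝ)).trans
          (Nat.floor_le hF0.le)
      refine h1.trans ?_
      rw [← div_eq_mul_inv, le_div_iff₀ hs0]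
      have h3 : Real.sqrt P ≤ C0 * R := by
        rw [Real.sqrt_le_left (by positivity)]
        have : 1 ≤ C0 * R := by nlinarith
        nlinarith
      have h4 : R ≤ R ^ 5 := by
        calc R = R ^ 1 := (pow_one R).symm
          _ ≤ R ^ 5 := pow_le_pow_right₀ hR1 (by norm_num)
      have h5 : C0 * R ≤ 24 * C0 * R ^ 5 := by nlinarith
      calc F * Real.sqrt P ≤ F * (24 * C0 * R ^ 5) :=
            mul_le_mul_of_nonneg_left (h3.trans h5) hF0.le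
        _ = 24 * C0 * R ^ 5 * F := by ring
    · have h1 : (Sparse.A x F P).card ≤ ∑ t ∈ (range (⌊R⌋₊ + 1)) ×ˢ ((range (Nat.clog 2 x + 1)) ×ˢ
          (range (Nat.clog 2 x + 1))), (Bx R F P t).card :=
        (Finset.card_le_card (cover hx hF hFx hP hR)).trans Finset.card_biUnion_le
      have h2 : ((Sparse.A x F P).card : ℝ) ≤ ∑ t ∈ (range (⌊R⌋₊ + 1)) ×ˢ
          ((range (Nat.clog 2 x + 1)) ×ˢ (range (Nat.clog 2 x + 1))),
          2 * F * (C0 * R ^ 2) / Real.sqrt P := by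
        have h3 : ((Sparse.A x F P).card : ℝ) ≤ ∑ t ∈ (range (⌊R⌋₊ + 1)) ×ˢ
            ((range (Nat.clog 2 x + 1)) ×ˢ (range (Nat.clog 2 x + 1))),
            ((Bx R F P t).card : ℝ) := by exact_mod_cast h1
        exact h3.trans (Finset.sum_le_sum fun t _ => card_Bx hC0 hC1 hR1 hF h t)
      rw [Finset.sum_const, Finset.card_product, Finset.card_product, card_range, card_range,
        nsmul_eq_mul] at h2
      push_cast at h2
      have h4 : (⌊R⌋₊ : ℝ) ≤ R := Nat.floor_le (by linarith)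
      have h5 : (Nat.clog 2 x : ℝ) ≤ R := clog_le hx
      have h6 : ((⌊R⌋₊ : ℝ) + 1) * (((Nat.clog 2 x : ℝ) + 1) * ((Nat.clog 2 x : ℝ) + 1)) ≤
          (2 * R) * ((2 * R) * (2 * R)) := by
        have e1 : (⌊R⌋₊ : ℝ) + 1 ≤ 2 * R := by linarith
        have e2 : (Nat.clog 2 x : ℝ) + 1 ≤ 2 * R := by linarith
        have e3 : (0 : ℝ) ≤ (Nat.clog 2 x : ℝ) + 1 := by positivity
        exact mul_le_mul e1 (mul_le_mul e2 e2 e3 (by linarith)) (by positivity) (by linarith)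
      refine h2.trans ?_
      calc ((⌊R⌋₊ : ℝ) + 1) * (((Nat.clog 2 x : ℝ) + 1) * ((Nat.clog 2 x : ℝ) + 1)) *
            (2 * F * (C0 * R ^ 2) / Real.sqrt P)
          ≤ ((2 * R) * ((2 * R) * (2 * R))) * (2 * F * (C0 * R ^ 2) / Real.sqrt P) :=
            mul_le_mul_of_nonneg_right h6 (by positivity)
        _ = 16 * C0 * R ^ 5 * F * (Real.sqrt P)⁻¹ := by
            rw [div_eq_mul_inv]
            ring
        _ ≤ 24 * C0 * R ^ 5 * F * (Real.sqrt P)⁻¹ := by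
            apply mul_le_mul_of_nonneg_right _ (by positivity)
            apply mul_le_mul_of_nonneg_right _ hF0.le
            apply mul_le_mul_of_nonneg_right _ (by positivity)
            linarith
  rw [hrp]
  have hA : ((Sparse.A x F P).card : ℝ) ≤
      24 * C0 * (2 * (1 + 5 / ε)) ^ 5 * (x : ℝ) ^ ε * F * (Real.sqrt P)⁻¹ := by
    refine key.trans ?_
    have h7 : 24 * C0 * R ^ 5 ≤ 24 * C0 * (2 * (1 + 5 / ε)) ^ 5 * (x : ℝ) ^ ε := by
      have := mul_le_mul_of_nonneg_left hR5 (by positivity : (0 : ℝ) ≤ 24 * C0)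
      linarith
    exact mul_le_mul_of_nonneg_right (mul_le_mul_of_nonneg_right h7 hF0.le) (by positivity)
  refine le_trans (le_of_eq ?_) hA
  unfold Sparse.A
  congr

end Pool.Agent.TH43.LQ
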