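import Pool.Agent.TH43.LQ.Split
import Pool.Agent.TH43.LQ.Bad
import Pool.Agent.TH43.LQ.Sparse
import Pool.Agent.TH43.LK.Main

/-!
# Auxiliary estimates for the choice of parameters
-/

set_option autoImplicit false

namespace Pool.Agent.TH43.LQ

open Finset Pool.Agent.H95R2.Leh

theorem absorb (C : ℝ) (hC : 0 ≤ C) (k : ℕ) (θ : ℝ) (hθ : 0 < θ) : ∃ X0 : ℝ, 1 ≤ X0 ∧
    ∀ X : ℝ, X0 ≤ X → C * (1 + Real.log X) ^ k ≤ X ^ θ := by
  obtain ⟨C1, hC1, h⟩ := Pool.Agent.TH43.LK.log_pow_le k (θ / 2) (by positivity)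
  have hm : 1 ≤ max 1 (C * C1) := le_max_left _ _
  refine ⟨(max 1 (C * C1)) ^ (2 / θ), Real.one_le_rpow hm (by positivity), ?_⟩
  intro X hX
  have hX1 : 1 ≤ X := (Real.one_le_rpow hm (by positivity)).trans hX
  have hX0 : 0 < X := by linarith
  have h1 : max 1 (C * C1) ≤ X ^ (θ / 2) := by
    have h2 : ((max 1 (C * C1)) ^ (2 / θ)) ^ (θ / 2) ≤ X ^ (θ / 2) :=
      Real.rpow_le_rpow (by positivity) hX (by positivity)
    rw [← Real.rpow_mul (by linarith), show 2 / θ * (θ / 2) = 1 by field_simp,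
      Real.rpow_one] at h2
    exact h2
  have h3 : C * C1 ≤ X ^ (θ / 2) := (le_max_right _ _).trans h1
  calc C * (1 + Real.log X) ^ k ≤ C * (C1 * X ^ (θ / 2)) :=
        mul_le_mul_of_nonneg_left (h X hX1) hC
    _ = C * C1 * X ^ (θ / 2) := by ring
    _ ≤ X ^ (θ / 2) * X ^ (θ / 2) := mul_le_mul_of_nonneg_right h3 (by positivity)
    _ = X ^ θ := by rw [← Real.rpow_add hX0]; congr 1; ring

theorem triv_bd : ∃ A : ℝ, 1 ≤ A ∧ ∀ (x Y f : ℕ) (z : ℝ), 1 ≤ Y → 1 ≤ f → f ≤ x → 1 ≤ z →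
    z / (16 * (1 + 2 * Real.log x)) < (f : ℝ) →
    (((x / Y ^ 2 : ℕ) : ℝ) / ((f * f.totient : ℕ) : ℝ) ≤
      A * (1 + Real.log x) ^ 3 * ((x : ℝ) / ((Y : ℝ) ^ 2 * z ^ 2))) ∧
    ∀ c : ZMod (f * f.totient),
      (Pool.Agent.TH43.LK.NN (f * f.totient) c 1 (Y + 1) (x / Y ^ 2) Y : ℝ) ≤
      Y * (A * (1 + Real.log x) ^ 3 * ((x : ℝ) / ((Y : ℝ) ^ 2 * z ^ 2)) + 1) := by
  obtain ⟨A, hA, hmod⟩ := Pool.Agent.TH43.LK.modulus_lower
  refine ⟨A, hA, ?_⟩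
  intro x Y f z hY hf hfx hz hlt
  have hphi : 0 < f.totient := Nat.totient_pos.2 hf
  have hqpos : 0 < f * f.totient := Nat.mul_pos hf hphi
  have hqr : (0 : ℝ) < ((f * f.totient : ℕ) : ℝ) := by exact_mod_cast hqpos
  have hY0 : (0 : ℝ) < Y := by exact_mod_cast hY
  have h2 := hmod x f z hf hfx hz hlt
  have hz2 : 0 < z ^ 2 := by positivity
  have key : (((x / Y ^ 2 : ℕ) : ℝ) / ((f * f.totient : ℕ) : ℝ) ≤
      A * (1 + Real.log x) ^ 3 * ((x : ℝ) / ((Y : ℝ) ^ 2 * z ^ 2))) := by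
    have h8 : ((x / Y ^ 2 : ℕ) : ℝ) ≤ (x : ℝ) / (Y : ℝ) ^ 2 := by
      have : ((x / Y ^ 2 : ℕ) : ℝ) ≤ (x : ℝ) / ((Y ^ 2 : ℕ) : ℝ) := Nat.cast_div_le
      push_cast at this
      exact_mod_cast this
    rw [div_le_iff₀ hqr]
    calc ((x / Y ^ 2 : ℕ) : ℝ) ≤ (x : ℝ) / (Y : ℝ) ^ 2 := h8
      _ = (x : ℝ) / ((Y : ℝ) ^ 2 * z ^ 2) * z ^ 2 := by
          field_simp
      _ ≤ (x : ℝ) / ((Y : ℝ) ^ 2 * z ^ 2) *
          (A * (1 + Real.log x) ^ 3 * ((f * f.totient : ℕ) : ℝ)) :=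
          mul_le_mul_of_nonneg_left h2 (by positivity)
      _ = _ := by ring
  refine ⟨key, fun c => ?_⟩
  have h1 := Pool.Agent.TH43.LK.NN_triv_left (f * f.totient) hqpos c 1 (Y + 1) (x / Y ^ 2) Y
  have h1' : (Pool.Agent.TH43.LK.NN (f * f.totient) c 1 (Y + 1) (x / Y ^ 2) Y : ℝ) ≤
      (Y : ℝ) * ((((x / Y ^ 2) / (f * f.totient) : ℕ) : ℝ) + 1) := by exact_mod_cast h1
  refine h1'.trans ?_
  apply mul_le_mul_of_nonneg_left _ hY0.le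
  have h3 : ((((x / Y ^ 2) / (f * f.totient) : ℕ) : ℝ)) ≤
      ((x / Y ^ 2 : ℕ) : ℝ) / ((f * f.totient : ℕ) : ℝ) := Nat.cast_div_le
  linarith

/-- the number of prime factors of `q0` is absorbed -/
theorem omega_absorb (k : ℕ) (θ : ℝ) (hθ : 0 < θ) : ∃ X0 : ℝ, 1 ≤ X0 ∧
    ∀ (X : ℝ) (q : ℕ), X0 ≤ X → 1 ≤ q → (q : ℝ) ≤ X →
      (2 : ℝ) ^ (k * q.primeFactors.card) ≤ X ^ θ := by
  obtain ⟨Cd, hCd, hdiv⟩ := Pool.Agent.Helper112.divisor_bound (θ / (2 * (k + 1))) (by positivity)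
  obtain ⟨X0, hX0, habs⟩ := absorb (Cd ^ k) (by positivity) 0 (θ / 2) (by positivity)
  refine ⟨X0, hX0, ?_⟩
  intro X q hX hq hqX
  have hX1 : 1 ≤ X := hX0.trans hX
  have hXp : 0 < X := by linarith
  have h1 := habs X hX
  rw [pow_zero, mul_one] at h1
  have h2 : (2 : ℝ) ^ q.primeFactors.card ≤ Cd * (q : ℝ) ^ (θ / (2 * (k + 1))) := by
    refine le_trans ?_ (hdiv q hq)
    exact_mod_cast Omega.two_pow_le_divisors q (by omega)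
  have h3 : (q : ℝ) ^ (θ / (2 * ((k : ℝ) + 1))) ≤ X ^ (θ / (2 * ((k : ℝ) + 1))) :=
    Real.rpow_le_rpow (Nat.cast_nonneg _) hqX (by positivity)
  have h4 : (2 : ℝ) ^ q.primeFactors.card ≤ Cd * X ^ (θ / (2 * ((k : ℝ) + 1))) :=
    h2.trans (mul_le_mul_of_nonneg_left h3 hCd.le)
  have h5 : (2 : ℝ) ^ (k * q.primeFactors.card) ≤ (Cd * X ^ (θ / (2 * ((k : ℝ) + 1)))) ^ k := by
    rw [mul_comm, pow_mul]
    exact pow_le_pow_left₀ (by positivity) h4 k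
  refine h5.trans ?_
  rw [mul_pow]
  have h6 : (X ^ (θ / (2 * ((k : ℝ) + 1)))) ^ k ≤ X ^ (θ / 2) := by
    rw [← Real.rpow_natCast, ← Real.rpow_mul hXp.le]
    apply Real.rpow_le_rpow_of_exponent_le hX1
    rw [div_mul_eq_mul_div, div_le_div_iff₀ (by positivity) (by norm_num)]
    have : (0 : ℝ) ≤ k := Nat.cast_nonneg _
    nlinarith
  calc Cd ^ k * (X ^ (θ / (2 * ((k : ℝ) + 1)))) ^ k ≤ X ^ (θ / 2) * X ^ (θ / 2) :=
        mul_le_mul h1 h6 (by positivity) (by positivity)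
    _ = X ^ θ := by rw [← Real.rpow_add hXp]; congr 1; ring

end Pool.Agent.TH43.LQ
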