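import Pool.Agent.H95R2.Leh.Defs

/-!
# Lehmer numbers with an isolated prime factor: statements of the pieces

Plan (helper43).  Let `n ≤ x` be a Lehmer number, `p ∣ n` a prime in `(Y, 2Y]`, `m = n / p`,
`s = (m - 1)/(p - 1)`.  For `f ∣ m`: `s (c - p) ≡ 1 mod q`, `q = f φ(f)`.  The points are counted by short
exponential sums `∑_t e(w (c - t)⁻¹ / q)` over an interval of length `Y`, `Y` a small power of `x`, which
are bounded by the `q`-analogue of van der Corput's method (repeated Weyl differencing, the modulus has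
a coprime factorisation into small factors); the complete sums left at the end are Gowers norms of
`e(w / t)` on `F_p`, bounded in an elementary way.
-/

set_option autoImplicit false

namespace Pool.Agent.TH43.LQ

open Finset Pool.Agent.H95R2.Leh

open Classical in
/-- **BAD**: few squarefree `f ≤ F` have a large prime power `l ^ a ∣ φ(f)` with `a ≥ 2`. -/
def S_BAD : Prop := ∀ ε : ℝ, 0 < ε → ∃ C : ℝ, 0 < C ∧ ∀ (x : ℕ) (F D : ℝ), 1 ≤ x → 1 ≤ F →
  F ≤ x → 1 ≤ D →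
  (((Icc 1 ⌊F⌋₊).filter (fun f : ℕ => Squarefree f ∧ ∃ l a : ℕ, l.Prime ∧ 2 ≤ a ∧
    l ^ a ∣ f.totient ∧ D < (l : ℝ) ^ a)).card : ℝ) ≤ C * (x : ℝ) ^ ε * F * D ^ (-(1 / 8) : ℝ)

open Classical in
/-- **SPARSE**: few `f ≤ F` are divisible by an initial segment `seg n q` of a Lehmer number `n ≤ x`
whose next prime `q` is large. -/
def S_SPARSE : Prop := ∀ ε : ℝ, 0 < ε → ∃ C : ℝ, 0 < C ∧ ∀ (x : ℕ) (F P : ℝ), 1 ≤ x → 1 ≤ F →
  F ≤ x → 1 ≤ P →
  (((Icc 1 ⌊F⌋₊).filter (fun f : ℕ => ∃ n q : ℕ, Leh n ∧ n ≤ x ∧ q.Prime ∧ q ∣ n ∧ P ≤ q ∧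
    seg n q ∣ f)).card : ℝ) ≤ C * (x : ℝ) ^ ε * F * P ^ (-(1 / 2) : ℝ)

/-! ### Weyl differences modulo `q` -/

/-- the difference `g(t) conj g(t + v)` -/
noncomputable def Dl {q : ℕ} (v : ZMod q) (g : ZMod q → ℂ) : ZMod q → ℂ :=
  fun t => g t * (starRingEnd ℂ) (g (t + v))

/-- the average -/
noncomputable def av {q : ℕ} [NeZero q] (g : ZMod q → ℂ) : ℂ := (q : ℂ)⁻¹ * ∑ t : ZMod q, g t

/-- `Hk k g` is the average over `v₁, …, v_k` of `|av (Dl v₁ … Dl v_k g)|²` -/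
noncomputable def Hk {q : ℕ} [NeZero q] : ℕ → (ZMod q → ℂ) → ℝ
  | 0, g => ‖av g‖ ^ 2
  | k + 1, g => (q : ℝ)⁻¹ * ∑ v : ZMod q, Hk k (Dl v g)

open Classical in
/-- `t ↦ e(w (c - t)⁻¹ / q)`, extended by zero -/
noncomputable def gg (q : ℕ) [NeZero q] (w c : ZMod q) : ZMod q → ℂ :=
  fun t => if IsUnit (c - t) then (ZMod.stdAddChar (w * (c - t)⁻¹) : ℂ) else 0

/-- **GOW** (elementary bound for Gowers norms of Kloosterman fractions). -/
def S_GOW : Prop := ∀ (k q : ℕ) [NeZero q], Squarefree q → ∀ (w : ℤ) (c : ZMod q),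
  Hk k (gg q (w : ZMod q) c) ≤
    2 ^ ((k + 2) * q.primeFactors.card) * (Int.gcd (q : ℤ) w : ℝ) / q

end Pool.Agent.TH43.LQ
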