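import Pool.Agent.TH43.LK.LehArith
import Pool.Agent.TH43.LQ.Stm

/-!
# Selection of a divisor of the smooth part of a Lehmer number
-/

set_option autoImplicit false

namespace Pool.Agent.TH43.LQ

open Finset Pool.Agent.H95R2.Leh

theorem st_of {n : ℕ} (h : Leh n) {k : ℕ} (hk : n - 1 = k * Nat.totient n) {R : ℝ}
    (hR : (n.primeFactors.card : ℝ) ≤ R) {q : ℕ} (hq : q.Prime) (hqn : q ∣ n) :
    StL n k R (seg n q) q :=
  ⟨n, h, by have := h.1; omega, le_rfl, hk, hR, Or.inl ⟨hq, hqn, rfl⟩⟩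

theorem seg_dvd_seg (n : ℕ) {a b : ℕ} (hab : a ≤ b) : seg n a ∣ seg n b := by
  unfold seg
  apply Finset.prod_dvd_prod_of_subset
  intro p hp
  rw [mem_filter] at hp ⊢
  exact ⟨hp.1, lt_of_lt_of_le hp.2 hab⟩

theorem prime_dvd_seg {n q r : ℕ} (hr : r.Prime) (h : r ∣ seg n q) : r ∣ n ∧ r < q := by
  have h1 : seg n q ≠ 0 := by
    unfold seg
    exact Finset.prod_ne_zero_iff.2 fun p hp =>
      (Nat.prime_of_mem_primeFactors (mem_filter.1 hp).1).ne_zero
  have h2 : r ∈ (seg n q).primeFactors := Nat.mem_primeFactors.2 ⟨hr, h, h1⟩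
  rw [seg_primeFactors, mem_filter] at h2
  exact ⟨Nat.dvd_of_mem_primeFactors h2.1, h2.2⟩

/-- a divisor in a short interval of a smooth number -/
theorem greedy (d : ℕ) (hd : 1 ≤ d) (T : ℝ) (hT : 1 ≤ T)
    (hs : ∀ r : ℕ, r.Prime → r ∣ d → (r : ℝ) ≤ T) (A : ℝ) (hA : 1 ≤ A) (hAd : A ≤ d) :
    ∃ e : ℕ, e ∣ d ∧ A ≤ e ∧ (e : ℝ) ≤ A * T := by
  classical
  have hex : ∃ e : ℕ, e ∣ d ∧ A ≤ (e : ℝ) := ⟨d, dvd_rfl, hAd⟩
  obtain ⟨h1, h2⟩ := Nat.find_spec hex
  set e := Nat.find hex with he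
  refine ⟨e, h1, h2, ?_⟩
  have he0 : 0 < e := Nat.pos_of_dvd_of_pos h1 hd
  rcases eq_or_ne e 1 with h3 | h3
  · rw [h3]
    push_cast
    nlinarith
  · obtain ⟨r, hr, hre⟩ := Nat.exists_prime_and_dvd h3
    obtain ⟨g, hg⟩ := hre
    have hg0 : 0 < g := by
      rcases Nat.eq_zero_or_pos g with h0 | h0
      · rw [h0, mul_zero] at hg
        omega
      · exact h0
    have hge : g < e := by
      rw [hg]
      nlinarith [hr.two_le]
    have hgd : g ∣ d := (Dvd.intro_left r hg.symm).trans h1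
    have h4 := Nat.find_min hex hge
    have h5 : (g : ℝ) < A := by
      by_contra hle
      push Not at hle
      exact h4 ⟨hgd, hle⟩
    have h6 : (r : ℝ) ≤ T := hs r hr ((Dvd.intro g hg.symm).trans h1)
    have h7 : (e : ℝ) = r * g := by exact_mod_cast hg
    rw [h7]
    have hr0 : (0 : ℝ) ≤ r := Nat.cast_nonneg _
    nlinarith

theorem select {n : ℕ} (h : Leh n) {p : ℕ} (hp : p.Prime) (hpn : p ∣ n) {R : ℝ}
    (hR1 : 1 ≤ R) (hR : (n.primeFactors.card : ℝ) ≤ R) (T U : ℝ) (hU : U < p) (F z : ℝ)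
    (hz : 1 ≤ z) (hzF : z ≤ F)
    (hM : F < ∏ r ∈ n.primeFactors.filter (fun r : ℕ => (r : ℝ) ≤ U), (r : ℝ)) :
    ∃ f : ℕ, f ∣ n / p ∧ (f : ℝ) ≤ F ∧ (∀ r : ℕ, r.Prime → r ∣ f → (r : ℝ) ≤ U) ∧
      ((z / (16 * R) < (f : ℝ) ∧ ∃ q : ℕ, q.Prime ∧ q ∣ n ∧ T < q ∧ seg n q ∣ f) ∨
       (F / (16 * R) < (f : ℝ) ∧ ∃ d : ℕ, d ∣ f ∧ F / z / (16 * R) < (d : ℝ) ∧
          ∀ r : ℕ, r.Prime → r ∣ d → (r : ℝ) ≤ T)) := by
  classical
  obtain ⟨hsq, hodd, hco⟩ := leh_basic h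
  obtain ⟨k, hk2, hk, -⟩ := leh_k h
  have hn1 := h.1
  have hFam := fam_leh n k R (by omega) hR1
  have hn0 : n ≠ 0 := by omega
  have hR0 : 0 < 16 * R := by linarith
  have hF1 : 1 ≤ F := hz.trans hzF
  have hpm : p ∈ n.primeFactors := Nat.mem_primeFactors.2 ⟨hp, hpn, hn0⟩
  -- the first prime above the gap
  set A1 := n.primeFactors.filter (fun r : ℕ => U < (r : ℝ)) with hA1
  have hA1ne : A1.Nonempty := ⟨p, by rw [hA1, mem_filter]; exact ⟨hpm, hU⟩⟩
  set q := A1.min' hA1ne with hq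
  have hqA : q ∈ A1 := A1.min'_mem hA1ne
  have hqA' := hqA
  rw [hA1, mem_filter] at hqA'
  have hqp : q.Prime := Nat.prime_of_mem_primeFactors hqA'.1
  have hqn : q ∣ n := Nat.dvd_of_mem_primeFactors hqA'.1
  have hqlep : q ≤ p := A1.min'_le p (by rw [hA1, mem_filter]; exact ⟨hpm, hU⟩)
  have hltq : ∀ r ∈ n.primeFactors, (r < q ↔ (r : ℝ) ≤ U) := by
    intro r hr
    constructor
    · intro h1
      by_contra h2
      push Not at h2
      have : q ≤ r := A1.min'_le r (by rw [hA1, mem_filter]; exact ⟨hr, h2⟩)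
      omega
    · intro h1
      have : (r : ℝ) < q := lt_of_le_of_lt h1 hqA'.2
      exact_mod_cast this
  have hsegq : (seg n q : ℝ) = ∏ r ∈ n.primeFactors.filter (fun r : ℕ => (r : ℝ) ≤ U), (r : ℝ) := by
    unfold seg
    push_cast
    apply Finset.prod_congr _ (fun _ _ => rfl)
    apply Finset.filter_congr
    exact fun r hr => hltq r hr
  have hFq : F < (seg n q : ℝ) := by rw [hsegq]; exact hM
  -- the first large prime
  set A2 := n.primeFactors.filter (fun r : ℕ => T < (r : ℝ) ∨ q ≤ r) with hA2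
  have hqA2 : q ∈ A2 := by rw [hA2, mem_filter]; exact ⟨hqA'.1, Or.inr le_rfl⟩
  set q1 := A2.min' ⟨q, hqA2⟩ with hq1
  have hq1A : q1 ∈ A2 := A2.min'_mem ⟨q, hqA2⟩
  have hq1A' := hq1A
  rw [hA2, mem_filter] at hq1A'
  have hq1p : q1.Prime := Nat.prime_of_mem_primeFactors hq1A'.1
  have hq1n : q1 ∣ n := Nat.dvd_of_mem_primeFactors hq1A'.1
  have hq1q : q1 ≤ q := A2.min'_le q hqA2
  have hstq := st_of h hk hR hqp hqn
  have hstq1 := st_of h hk hR hq1p hq1n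
  have hsegp : seg n q ∣ n / p := by
    have h1 : seg n q ∣ p * (n / p) := by
      rw [Nat.mul_div_cancel' hpn]
      exact seg_dvd n q
    have h2 : Nat.Coprime (seg n q) p := by
      rw [Nat.coprime_comm]
      refine (Nat.Prime.coprime_iff_not_dvd hp).2 fun h3 => ?_
      have := (prime_dvd_seg hp h3).2
      omega
    exact h2.dvd_of_dvd_mul_left h1
  obtain ⟨d, hd1, hd2, hd3⟩ := dense hFam hstq hz (hzF.trans hFq.le)
  have hdn : d ∣ n := hd1.trans (seg_dvd n q)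
  have hdsq : Squarefree d := hsq.squarefree_of_dvd hdn
  have hd0 : d ≠ 0 := hdsq.ne_zero
  set fb := upp d q1 with hfb
  set D0 := seg n q1 with hD0
  have hfbd : fb ∣ d := ⟨seg d q1, by rw [mul_comm]; exact (seg_mul_upp' hdsq).symm⟩
  have hsdD : seg d q1 ∣ D0 := by
    rw [hD0]
    unfold seg
    apply Finset.prod_dvd_prod_of_subset
    intro r hr
    rw [mem_filter] at hr ⊢
    exact ⟨Nat.primeFactors_mono hdn hn0 hr.1, hr.2⟩
  have hfb0 : 0 < fb := Nat.pos_of_dvd_of_pos hfbd (Nat.pos_of_ne_zero hd0)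
  have hD0seg : D0 ∣ seg n q := seg_dvd_seg n hq1q
  have hD00 : 0 < D0 := Nat.pos_of_dvd_of_pos (seg_dvd n q1) (by omega)
  have hdle : d ≤ fb * D0 := by
    have h1 : seg d q1 ≤ D0 := Nat.le_of_dvd hD00 hsdD
    calc d = seg d q1 * fb := (seg_mul_upp' hdsq).symm
      _ ≤ D0 * fb := Nat.mul_le_mul_right _ h1
      _ = fb * D0 := mul_comm _ _
  have hfbu : fb ∣ upp n q1 := by
    rw [hfb]
    unfold upp
    apply Finset.prod_dvd_prod_of_subset
    intro r hr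
    rw [mem_filter] at hr ⊢
    exact ⟨Nat.primeFactors_mono hdn hn0 hr.1, hr.2⟩
  have hcop : Nat.Coprime fb D0 :=
    (Nat.Coprime.coprime_dvd_right hfbu (seg_upp_coprime n q1)).symm
  have hfbD0 : fb * D0 ∣ seg n q := hcop.mul_dvd_of_dvd_of_dvd (hfbd.trans hd1) hD0seg
  have hsm : ∀ f : ℕ, f ∣ seg n q → ∀ r : ℕ, r.Prime → r ∣ f → (r : ℝ) ≤ U := by
    intro f hf r hr hrf
    obtain ⟨h1, h2⟩ := prime_dvd_seg hr (hrf.trans hf)
    exact (hltq r (Nat.mem_primeFactors.2 ⟨hr, h1, hn0⟩)).1 h2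
  have hfbR : (0 : ℝ) < fb := by exact_mod_cast hfb0
  have hD0R : (0 : ℝ) < D0 := by exact_mod_cast hD00
  rcases le_or_gt ((fb : ℝ) * D0) F with hc | hc
  · refine ⟨fb * D0, hfbD0.trans hsegp, by push_cast; exact hc, hsm _ hfbD0, Or.inl ⟨?_, ?_⟩⟩
    · have : (d : ℝ) ≤ ((fb * D0 : ℕ) : ℝ) := by exact_mod_cast hdle
      linarith
    · refine ⟨q1, hq1p, hq1n, ?_, Dvd.intro_left fb rfl⟩
      rcases hq1A'.2 with h1 | h1
      · exact h1
      · exfalso
        have h2 : q1 = q := le_antisymm hq1q h1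
        have h3 : (D0 : ℝ) = seg n q := by rw [hD0, h2]
        have h4 : (1 : ℝ) ≤ fb := by exact_mod_cast hfb0
        rw [← h3] at hFq
        nlinarith
  · have hfbz : (fb : ℝ) ≤ z := by
      have h1 : fb ≤ d := Nat.le_of_dvd (Nat.pos_of_ne_zero hd0) hfbd
      have h2 : (fb : ℝ) ≤ d := by exact_mod_cast h1
      linarith
    have hz2 : 1 ≤ F / fb := by
      rw [le_div_iff₀ hfbR]
      linarith
    have hz2' : F / fb ≤ (D0 : ℝ) := by
      rw [div_le_iff₀ hfbR]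
      linarith
    obtain ⟨d0, h1, h2, h3⟩ := dense hFam hstq1 hz2 hz2'
    have hmul : fb * d0 ∣ fb * D0 := Nat.mul_dvd_mul_left fb h1
    refine ⟨fb * d0, (hmul.trans hfbD0).trans hsegp, ?_, hsm _ (hmul.trans hfbD0), Or.inr ⟨?_, ?_⟩⟩
    · push_cast
      rw [le_div_iff₀ hfbR] at h3
      linarith
    · push_cast
      rw [div_div, div_lt_iff₀ (by positivity)] at h2
      rw [div_lt_iff₀ hR0]
      linarith
    · refine ⟨d0, Dvd.intro_left fb rfl, ?_, ?_⟩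
      · refine lt_of_le_of_lt ?_ h2
        apply div_le_div_of_nonneg_right _ hR0.le
        exact div_le_div_of_nonneg_left (by linarith) hfbR hfbz
      · intro r hr hrd
        obtain ⟨h4, h5⟩ := prime_dvd_seg hr (hrd.trans h1)
        by_contra h6
        push Not at h6
        have : q1 ≤ r := A2.min'_le r (by
          rw [hA2, mem_filter]
          exact ⟨Nat.mem_primeFactors.2 ⟨hr, h4, hn0⟩, Or.inl h6⟩)
        omega

end Pool.Agent.TH43.LQ
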