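import Pool.Agent.TH43.LQ.Good
import Pool.Agent.TH43.LQ.Sel

/-!
# Splitting a block
-/

set_option autoImplicit false

namespace Pool.Agent.TH43.LQ

open Finset Pool.Agent.H95R2.Leh

open Classical in
/-- the Lehmer numbers of a block -/
noncomputable def BQ (x Y : ℕ) (ε : ℝ) : Finset ℕ :=
  (Icc 1 x).filter (fun n : ℕ => Leh n ∧ (x : ℝ) ^ (1 - ε / 2) ≤ (n : ℝ) ∧
    ∃ p : ℕ, p.Prime ∧ p ∣ n ∧ Y < p ∧ p ≤ 2 * Y ∧
      ∏ r ∈ n.primeFactors.filter (fun r : ℕ => r ≠ p ∧ (p : ℝ) * (x : ℝ) ^ (-ε) < (r : ℝ)),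
        (r : ℝ) ≤ (x : ℝ) ^ (1 / 2 - ε))

open Classical in
noncomputable def E1 (x : ℕ) (F z R T : ℝ) : Finset ℕ :=
  (Icc 1 ⌊F⌋₊).filter (fun f : ℕ => z / (16 * R) < (f : ℝ) ∧ ∃ n q : ℕ, Leh n ∧ n ≤ x ∧ q.Prime ∧
    q ∣ n ∧ T ≤ q ∧ seg n q ∣ f)

open Classical in
noncomputable def E2 (F R D : ℝ) : Finset ℕ :=
  (Icc 1 ⌊F⌋₊).filter (fun f : ℕ => F / (16 * R) < (f : ℝ) ∧ Squarefree f ∧ ∃ l a : ℕ, l.Prime ∧
    2 ≤ a ∧ l ^ a ∣ f.totient ∧ D < (l : ℝ) ^ a)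

open Classical in
noncomputable def E3 (F R D T W : ℝ) : Finset ℕ :=
  (Icc 1 ⌊F⌋₊).filter (fun f : ℕ => F / (16 * R) < (f : ℝ) ∧ Squarefree f ∧
    Nat.Coprime f f.totient ∧ (∀ r : ℕ, r.Prime → r ∣ f → (r : ℝ) ≤ D) ∧
    (∀ l a : ℕ, l.Prime → 2 ≤ a → l ^ a ∣ f.totient → (l : ℝ) ^ a ≤ D) ∧
    ∃ d : ℕ, d ∣ f ∧ W < (d : ℝ) ∧ ∀ r : ℕ, r.Prime → r ∣ d → (r : ℝ) ≤ T)

theorem block_split (x Y : ℕ) (hx : 1 ≤ x) (hY : 1 ≤ Y) (ε R F z T D : ℝ) (hR1 : 1 ≤ R)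
    (hR : ∀ n : ℕ, n ≤ x → Leh n → (n.primeFactors.card : ℝ) ≤ R) (hz : 1 ≤ z) (hzF : z ≤ F)
    (hxε : (x : ℝ) ^ (-ε) < 1) (hUD : 2 * (Y : ℝ) * (x : ℝ) ^ (-ε) ≤ D)
    (hbig : F * (2 * Y * (x : ℝ) ^ (1 / 2 - ε)) < (x : ℝ) ^ (1 - ε / 2)) (B1 B2 B3 : ℝ)
    (hB1 : ∀ f ∈ E1 x F z R T, ∀ c : ZMod (f * f.totient),
      (Pool.Agent.TH43.LK.NN (f * f.totient) c 1 (Y + 1) (x / Y ^ 2) Y : ℝ) ≤ B1)
    (hB2 : ∀ f ∈ E2 F R D, ∀ c : ZMod (f * f.totient),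
      (Pool.Agent.TH43.LK.NN (f * f.totient) c 1 (Y + 1) (x / Y ^ 2) Y : ℝ) ≤ B2)
    (hB3 : ∀ f ∈ E3 F R D T (F / z / (16 * R)), ∀ c : ZMod (f * f.totient),
      (Pool.Agent.TH43.LK.NN (f * f.totient) c 1 (Y + 1) (x / Y ^ 2) Y : ℝ) ≤ B3) :
    ((BQ x Y ε).card : ℝ) ≤ (E1 x F z R T).card * B1 + (E2 F R D).card * B2 +
      (E3 F R D T (F / z / (16 * R))).card * B3 := by
  classical
  have hx0 : (0 : ℝ) < x := by exact_mod_cast hx
  have hF1 : 1 ≤ F := hz.trans hzF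
  -- every element of the block has a suitable divisor
  have hsel : ∀ n ∈ BQ x Y ε, n ≤ x ∧ Leh n ∧ ∃ p : ℕ, p.Prime ∧ p ∣ n ∧ Y < p ∧ p ≤ 2 * Y ∧
      ((∃ f ∈ E1 x F z R T, f ∣ n / p) ∨ (∃ f ∈ E2 F R D, f ∣ n / p) ∨
        (∃ f ∈ E3 F R D T (F / z / (16 * R)), f ∣ n / p)) := by
    intro n hn
    unfold BQ at hn
    rw [mem_filter, mem_Icc] at hn
    obtain ⟨⟨hn1, hnx⟩, hL, hnbig, p, hp, hpn, hYp, hp2, hprod⟩ := hn
    refine ⟨hnx, hL, p, hp, hpn, hYp, hp2, ?_⟩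
    obtain ⟨hsq, hodd, hco⟩ := leh_basic hL
    have hn0 : n ≠ 0 := by omega
    have hp0 : (0 : ℝ) < p := by exact_mod_cast hp.pos
    have hY0 : (0 : ℝ) < Y := by exact_mod_cast hY
    set U : ℝ := (p : ℝ) * (x : ℝ) ^ (-ε) with hU
    have hUp : U < p := by
      rw [hU]
      nlinarith
    have hUD' : U ≤ D := by
      refine le_trans ?_ hUD
      rw [hU]
      apply mul_le_mul_of_nonneg_right _ (by positivity)
      exact_mod_cast hp2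
    have hpm : p ∈ n.primeFactors := Nat.mem_primeFactors.2 ⟨hp, hpn, hn0⟩
    have hM : F < ∏ r ∈ n.primeFactors.filter (fun r : ℕ => (r : ℝ) ≤ U), (r : ℝ) := by
      set P1 := ∏ r ∈ n.primeFactors.filter (fun r : ℕ => (r : ℝ) ≤ U), (r : ℝ) with hP1
      set P2 := ∏ r ∈ n.primeFactors.filter (fun r : ℕ => r ≠ p ∧ U < (r : ℝ)), (r : ℝ) with hP2
      have h1 : (∏ r ∈ n.primeFactors, (r : ℝ)) = n := by
        rw [← Nat.cast_prod, Nat.prod_primeFactors_of_squarefree hsq]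
      have h2 : n.primeFactors.filter (fun r : ℕ => ¬ (r : ℝ) ≤ U) =
          insert p (n.primeFactors.filter (fun r : ℕ => r ≠ p ∧ U < (r : ℝ))) := by
        ext r
        simp only [mem_filter, mem_insert, not_le]
        constructor
        · rintro ⟨h3, h4⟩
          by_cases h5 : r = p
          · exact Or.inl h5
          · exact Or.inr ⟨h3, h5, h4⟩
        · rintro (h3 | ⟨h3, h4, h5⟩)
          · rw [h3]
            exact ⟨hpm, hUp⟩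
          · exact ⟨h3, h5⟩
      have h3 : (n : ℝ) = P1 * (p * P2) := by
        rw [← h1, ← Finset.prod_filter_mul_prod_filter_not n.primeFactors
          (fun r : ℕ => (r : ℝ) ≤ U), h2, Finset.prod_insert]
        simp
      have hP20 : 0 < P2 := by
        rw [hP2]
        apply Finset.prod_pos
        intro r hr
        rw [mem_filter] at hr
        exact_mod_cast (Nat.prime_of_mem_primeFactors hr.1).pos
      have h4 : (p : ℝ) * P2 ≤ 2 * Y * (x : ℝ) ^ (1 / 2 - ε) := by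
        apply mul_le_mul _ hprod hP20.le (by positivity)
        exact_mod_cast hp2
      have h5 : F * (p * P2) < P1 * (p * P2) := by
        rw [← h3]
        refine lt_of_le_of_lt ?_ (lt_of_lt_of_le hbig hnbig)
        exact mul_le_mul_of_nonneg_left h4 (by linarith)
      exact lt_of_mul_lt_mul_right h5 (by positivity)
    obtain ⟨f, hf1, hf2, hf3, hf4⟩ := select hL hp hpn hR1 (hR n hnx hL) T U hUp F z hz hzF hM
    have hfn : f ∣ n := hf1.trans (Nat.div_dvd_of_dvd hpn)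
    have hfpos : 1 ≤ f := Nat.pos_of_dvd_of_pos hfn hn1
    have hffl : f ≤ ⌊F⌋₊ := Nat.le_floor hf2
    have hsqf : Squarefree f := hsq.squarefree_of_dvd hfn
    have hcof : Nat.Coprime f f.totient :=
      (hco.coprime_dvd_left hfn).coprime_dvd_right (Nat.totient_dvd_of_dvd hfn)
    rcases hf4 with ⟨h5, q, hq1, hq2, hq3, hq4⟩ | ⟨h5, d, hd1, hd2, hd3⟩
    · left
      refine ⟨f, ?_, hf1⟩
      unfold E1
      rw [mem_filter, mem_Icc]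
      exact ⟨⟨hfpos, hffl⟩, h5, n, q, hL, hnx, hq1, hq2, hq3.le, hq4⟩
    · right
      by_cases hbad : ∃ l a : ℕ, l.Prime ∧ 2 ≤ a ∧ l ^ a ∣ f.totient ∧ D < (l : ℝ) ^ a
      · left
        refine ⟨f, ?_, hf1⟩
        unfold E2
        rw [mem_filter, mem_Icc]
        exact ⟨⟨hfpos, hffl⟩, h5, hsqf, hbad⟩
      · right
        refine ⟨f, ?_, hf1⟩
        unfold E3
        rw [mem_filter, mem_Icc]
        refine ⟨⟨hfpos, hffl⟩, h5, hsqf, hcof, fun r hr hrf => (hf3 r hr hrf).trans hUD', ?_,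
          d, hd1, hd2, hd3⟩
        intro l a hl ha hla
        by_contra h6
        push Not at h6
        exact hbad ⟨l, a, hl, ha, hla, h6⟩
  set A1 := (BQ x Y ε).filter (fun n => ∃ p : ℕ, p.Prime ∧ p ∣ n ∧ Y < p ∧ p ≤ 2 * Y ∧
    ∃ f ∈ E1 x F z R T, f ∣ n / p) with hA1
  set A2 := (BQ x Y ε).filter (fun n => ∃ p : ℕ, p.Prime ∧ p ∣ n ∧ Y < p ∧ p ≤ 2 * Y ∧
    ∃ f ∈ E2 F R D, f ∣ n / p) with hA2
  set A3 := (BQ x Y ε).filter (fun n => ∃ p : ℕ, p.Prime ∧ p ∣ n ∧ Y < p ∧ p ≤ 2 * Y ∧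
    ∃ f ∈ E3 F R D T (F / z / (16 * R)), f ∣ n / p) with hA3
  have hsub : BQ x Y ε ⊆ A1 ∪ A2 ∪ A3 := by
    intro n hn
    obtain ⟨-, -, p, hp, hpn, hYp, hp2, h1⟩ := hsel n hn
    rw [mem_union, mem_union, hA1, hA2, hA3, mem_filter, mem_filter, mem_filter]
    rcases h1 with h1 | h1 | h1
    · exact Or.inl (Or.inl ⟨hn, p, hp, hpn, hYp, hp2, h1⟩)
    · exact Or.inl (Or.inr ⟨hn, p, hp, hpn, hYp, hp2, h1⟩)
    · exact Or.inr ⟨hn, p, hp, hpn, hYp, hp2, h1⟩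
  have hc : (BQ x Y ε).card ≤ A1.card + A2.card + A3.card :=
    (card_le_card hsub).trans ((card_union_le _ _).trans
      (Nat.add_le_add_right (card_union_le _ _) _))
  have hc' : ((BQ x Y ε).card : ℝ) ≤ A1.card + A2.card + A3.card := by exact_mod_cast hc
  have h1 : (A1.card : ℝ) ≤ (E1 x F z R T).card * B1 := by
    apply cover_count x Y hY A1 _ _ B1 hB1
    intro n hn
    rw [hA1, mem_filter] at hn
    obtain ⟨h3, h4, -⟩ := hsel n hn.1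
    exact ⟨h3, h4, hn.2⟩
  have h2 : (A2.card : ℝ) ≤ (E2 F R D).card * B2 := by
    apply cover_count x Y hY A2 _ _ B2 hB2
    intro n hn
    rw [hA2, mem_filter] at hn
    obtain ⟨h3, h4, -⟩ := hsel n hn.1
    exact ⟨h3, h4, hn.2⟩
  have h3 : (A3.card : ℝ) ≤ (E3 F R D T (F / z / (16 * R))).card * B3 := by
    apply cover_count x Y hY A3 _ _ B3 hB3
    intro n hn
    rw [hA3, mem_filter] at hn
    obtain ⟨h3, h4, -⟩ := hsel n hn.1
    exact ⟨h3, h4, hn.2⟩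
  linarith

end Pool.Agent.TH43.LQ
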