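import Pool.Agent.TH43.LQ.Stm

/-!
# The `q`-analogue of van der Corput's inequality, iterated
-/

set_option autoImplicit false

namespace Pool.Agent.TH43.LQ

open Finset

/-- iterated means of differences -/
noncomputable def Gam {q : ℕ} [NeZero q] : ℕ → (ZMod q → ℂ) → ℝ
  | 0, g => ‖av g‖
  | k + 1, g => Real.sqrt ((q : ℝ)⁻¹ * ∑ v : ZMod q, Gam k (Dl v g))

theorem Gam_nonneg {q : ℕ} [NeZero q] (k : ℕ) (g : ZMod q → ℂ) : 0 ≤ Gam k g := by
  cases k with
  | zero => exact norm_nonneg _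
  | succ k => exact Real.sqrt_nonneg _

theorem Gam_pow {q : ℕ} [NeZero q] (k : ℕ) : ∀ g : ZMod q → ℂ, Gam k g ^ (2 ^ (k + 1)) ≤ Hk k g := by
  induction k with
  | zero => intro g; simp [Gam, Hk]
  | succ k ih =>
    intro g
    have hq : (0 : ℝ) < q := by exact_mod_cast Nat.pos_of_ne_zero (NeZero.ne q)
    show (Real.sqrt ((q : ℝ)⁻¹ * ∑ v : ZMod q, Gam k (Dl v g))) ^ (2 ^ (k + 1 + 1)) ≤
      (q : ℝ)⁻¹ * ∑ v : ZMod q, Hk k (Dl v g)
    have h0 : 0 ≤ (q : ℝ)⁻¹ * ∑ v : ZMod q, Gam k (Dl v g) :=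
      mul_nonneg (by positivity) (Finset.sum_nonneg fun v _ => Gam_nonneg k _)
    rw [pow_succ' 2 (k + 1), pow_mul, Real.sq_sqrt h0, Finset.mul_sum]
    have hw : ∑ _v : ZMod q, (q : ℝ)⁻¹ = 1 := by
      rw [Finset.sum_const, Finset.card_univ, ZMod.card, nsmul_eq_mul]
      exact mul_inv_cancel₀ hq.ne'
    have h1 := Real.pow_arith_mean_le_arith_mean_pow (univ : Finset (ZMod q))
      (fun _ => (q : ℝ)⁻¹) (fun v => Gam k (Dl v g)) (fun _ _ => by positivity) hw
      (fun v _ => Gam_nonneg k _) (2 ^ (k + 1))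
    refine h1.trans ?_
    rw [Finset.mul_sum]
    exact Finset.sum_le_sum fun v _ => mul_le_mul_of_nonneg_left (ih _) (by positivity)

theorem av_shift {q : ℕ} [NeZero q] (g : ZMod q → ℂ) (a : ZMod q) :
    av (fun t => g (t + a)) = av g := by
  unfold av
  congr 1
  exact (Equiv.sum_comp (Equiv.addRight a) g)

theorem Gam_shift {q : ℕ} [NeZero q] (k : ℕ) : ∀ (g : ZMod q → ℂ) (a : ZMod q),
    Gam k (fun t => g (t + a)) = Gam k g := by
  induction k with
  | zero => intro g a; show ‖av _‖ = ‖av g‖; rw [av_shift]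
  | succ k ih =>
    intro g a
    show Real.sqrt _ = Real.sqrt _
    congr 2
    refine Finset.sum_congr rfl fun v _ => ?_
    have h1 : Dl v (fun t => g (t + a)) = fun t => (Dl v g) (t + a) := by
      funext t
      unfold Dl
      simp only
      rw [show t + v + a = t + a + v by ring]
    rw [h1, ih]

/-- bounded periodic functions -/
def Per (d : ℕ) (φ : ℤ → ℂ) : Prop := (∀ t, ‖φ t‖ ≤ 1) ∧ ∀ t, φ (t + d) = φ t

theorem Per.add_mul {d : ℕ} {φ : ℤ → ℂ} (h : Per d φ) (t : ℤ) (m : ℕ) : φ (t + d * m) = φ t := by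
  induction m with
  | zero => simp
  | succ m ih =>
    have : t + (d : ℤ) * ((m + 1 : ℕ) : ℤ) = (t + d * m) + d := by push_cast; ring
    rw [this, h.2, ih]

/-- the product of the functions in a list -/
noncomputable def PhiL (l : List (ℕ × (ℤ → ℂ))) (t : ℤ) : ℂ := (l.map (fun e => e.2 t)).prod

theorem PhiL_norm (l : List (ℕ × (ℤ → ℂ))) (h : ∀ e ∈ l, Per e.1 e.2) (t : ℤ) :
    ‖PhiL l t‖ ≤ 1 := by
  induction l with
  | nil => simp [PhiL]
  | cons e l ih =>
    have h1 : PhiL (e :: l) t = e.2 t * PhiL l t := by simp [PhiL]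
    rw [h1, norm_mul]
    have h2 := (h e (by simp)).1 t
    have h3 := ih (fun e' he' => h e' (by simp [he']))
    calc ‖e.2 t‖ * ‖PhiL l t‖ ≤ 1 * 1 := mul_le_mul h2 h3 (norm_nonneg _) zero_le_one
      _ = 1 := one_mul 1

theorem shift_diff (φ : ℤ → ℂ) (h : ∀ t, ‖φ t‖ ≤ 1) (a : ℤ) (N : ℕ) (m : ℕ) :
    ‖∑ t ∈ range N, φ (a + t) - ∑ t ∈ range N, φ (a + t + m)‖ ≤ 2 * m := by
  induction m with
  | zero => simp
  | succ m ih =>
    have h1 : ∑ t ∈ range N, φ (a + t + (m + 1 : ℕ)) - ∑ t ∈ range N, φ (a + t + m) =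
        φ (a + N + m) - φ (a + m) := by
      have h2 := Finset.sum_range_succ_sub_sum (fun t : ℕ => φ (a + t + m)) (n := N)
      have h3 := Finset.sum_range_succ' (fun t : ℕ => φ (a + t + m)) N
      have h4 : ∑ t ∈ range N, φ (a + ((t + 1 : ℕ) : ℤ) + m) =
          ∑ t ∈ range N, φ (a + t + (m + 1 : ℕ)) := by
        refine Finset.sum_congr rfl fun t _ => ?_
        congr 1
        push_cast
        ring
      rw [h4] at h3
      have h5 : φ (a + ((0 : ℕ) : ℤ) + m) = φ (a + m) := by simp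
      rw [h5] at h3
      rw [h3] at h2
      linear_combination h2
    have h6 : ∑ t ∈ range N, φ (a + t) - ∑ t ∈ range N, φ (a + t + (m + 1 : ℕ)) =
        (∑ t ∈ range N, φ (a + t) - ∑ t ∈ range N, φ (a + t + m)) -
          (φ (a + N + m) - φ (a + m)) := by
      rw [← h1]; ring
    rw [h6]
    refine (norm_sub_le _ _).trans ?_
    have h7 : ‖φ (a + N + m) - φ (a + m)‖ ≤ 2 := by
      refine (norm_sub_le _ _).trans ?_
      linarith [h (a + N + m), h (a + m)]
    push_cast
    linarith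

theorem base {q : ℕ} [NeZero q] (g : ZMod q → ℂ) (hg : ∀ t, ‖g t‖ ≤ 1) (N : ℕ) : ∀ a : ℤ,
    ‖∑ t ∈ range N, g ((a + t : ℤ) : ZMod q)‖ ≤ N * ‖av g‖ + q := by
  have hq0 : 0 < q := Nat.pos_of_ne_zero (NeZero.ne q)
  have hq : (0 : ℝ) < q := by exact_mod_cast hq0
  induction N using Nat.strong_induction_on with
  | _ N ih =>
    intro a
    rcases Nat.lt_or_ge N q with hN | hN
    · have h1 : ‖∑ t ∈ range N, g ((a + t : ℤ) : ZMod q)‖ ≤ N := by
        refine (norm_sum_le _ _).trans ?_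
        refine (Finset.sum_le_sum fun t _ => hg _).trans ?_
        simp
      have h2 : (N : ℝ) ≤ q := by exact_mod_cast hN.le
      have h3 : 0 ≤ (N : ℝ) * ‖av g‖ := by positivity
      linarith
    · obtain ⟨M, rfl⟩ := Nat.exists_eq_add_of_le hN
      have h1 := ih M (by omega) (a + q)
      have h2 : ∑ t ∈ range (q + M), g ((a + t : ℤ) : ZMod q) =
          (q : ℂ) * av g + ∑ t ∈ range M, g ((a + q + t : ℤ) : ZMod q) := by
        rw [Finset.sum_range_add]
        congr 1
        · unfold av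
          rw [← mul_assoc, mul_inv_cancel₀ (by exact_mod_cast hq.ne'), one_mul]
          have h3 : ∑ t ∈ range q, g ((a + t : ℤ) : ZMod q) = ∑ t : ZMod q, g ((a : ZMod q) + t) := by
            rw [Finset.sum_range]
            have : ∀ i : Fin q, g ((a + (i : ℕ) : ℤ) : ZMod q) = g ((a : ZMod q) + ((i : ℕ) : ZMod q)) := by
              intro i; push_cast; rfl
            rw [Finset.sum_congr rfl (fun i _ => this i)]
            refine Fintype.sum_bijective (fun i : Fin q => ((i : ℕ) : ZMod q)) ?_ _ _ (fun i => rfl)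
            rw [Fintype.bijective_iff_injective_and_card]
            constructor
            · intro i j hij
              have h4 := congrArg ZMod.val hij
              simp only at h4
              rw [ZMod.val_natCast_of_lt i.2, ZMod.val_natCast_of_lt j.2] at h4
              exact Fin.ext h4
            · simp
          rw [h3]
          exact (Equiv.sum_comp (Equiv.addLeft (a : ZMod q)) g)
        · refine Finset.sum_congr rfl fun t _ => ?_
          congr 1
          push_cast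
          ring
      rw [h2]
      refine (norm_add_le _ _).trans ?_
      rw [norm_mul, Complex.norm_natCast, Nat.cast_add]
      have h5 : ((q : ℝ) + M) * ‖av g‖ = q * ‖av g‖ + M * ‖av g‖ := by ring
      linarith

/-- conditions on the list -/
def Good (q : ℕ) (D : ℝ) (l : List (ℕ × (ℤ → ℂ))) : Prop :=
  ∀ e ∈ l, Per e.1 e.2 ∧ Nat.Coprime e.1 q ∧ (e.1 : ℝ) ≤ D

theorem vdc {q : ℕ} [NeZero q] (D : ℝ) (hD : 1 ≤ D) (k : ℕ) : ∀ (l : List (ℕ × (ℤ → ℂ))),
    l.length = k → Good q D l → ∀ (g : ZMod q → ℂ), (∀ t, ‖g t‖ ≤ 1) →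
    ∀ (a : ℤ) (N : ℕ), 1 ≤ N → D * q / N ≤ 1 →
    ‖∑ t ∈ range N, g ((a + t : ℤ) : ZMod q) * PhiL l (a + t)‖ ≤
      N * (Gam k g + 4 * (D * q / N) ^ ((1 / 2 : ℝ) ^ k)) := by
  have hq0 : 0 < q := Nat.pos_of_ne_zero (NeZero.ne q)
  have hq : (0 : ℝ) < q := by exact_mod_cast hq0
  induction k with
  | zero =>
    intro l hl _ g hg a N hN hη
    have hN0 : (0 : ℝ) < N := by exact_mod_cast hN
    have hl' : l = [] := List.length_eq_zero_iff.1 hl
    subst hl'
    have h1 := base g hg N a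
    have h2 : ∑ t ∈ range N, g ((a + t : ℤ) : ZMod q) * PhiL [] (a + t) =
        ∑ t ∈ range N, g ((a + t : ℤ) : ZMod q) := by
      refine Finset.sum_congr rfl fun t _ => ?_
      simp [PhiL]
    rw [h2, pow_zero, Real.rpow_one]
    refine h1.trans ?_
    show (N : ℝ) * ‖av g‖ + q ≤ N * (‖av g‖ + 4 * (D * q / N))
    have h3 : (N : ℝ) * (4 * (D * q / N)) = 4 * (D * q) := by field_simp
    have h4 : (q : ℝ) ≤ D * q := by nlinarith
    have h5 : 0 ≤ D * q := by positivity
    rw [mul_add, h3]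
    linarith
  | succ k ih =>
    intro l hl hgood g hg a N hN hη
    have hN0 : (0 : ℝ) < N := by exact_mod_cast hN
    match l, hl, hgood with
    | e :: l', hl, hgood =>
    have hl' : l'.length = k := by simpa using hl
    obtain ⟨hper, hcop, hdD⟩ := hgood e (by simp)
    have hgood' : Good q D l' := fun e' he' => hgood e' (by simp [he'])
    set d := e.1 with hd
    set ψ := e.2 with hψ
    set η := D * q / N with hηdef
    have hη0 : 0 < η := by positivity
    -- the functions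
    set Φ : ℤ → ℂ := PhiL l' with hΦ
    set Gf : ℕ → ℕ → ℂ := fun h t =>
      g (((a + t + d * h : ℤ)) : ZMod q) * Φ (a + t + d * h) with hGf
    set F : ℤ → ℂ := fun t => g ((t : ℤ) : ZMod q) * PhiL (e :: l') t with hF
    have hFn : ∀ t, ‖F t‖ ≤ 1 := by
      intro t
      rw [hF]
      simp only
      rw [norm_mul]
      calc ‖g (t : ZMod q)‖ * ‖PhiL (e :: l') t‖ ≤ 1 * 1 :=
            mul_le_mul (hg _) (PhiL_norm _ (fun e' he' => (hgood e' he').1) t) (norm_nonneg _)
              zero_le_one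
        _ = 1 := one_mul 1
    -- step 1: shift
    have h1 : ∀ h ∈ range q, ‖∑ t ∈ range N, F (a + t) - ∑ t ∈ range N, F (a + t + (d * h : ℕ))‖ ≤
        2 * (D * q) := by
      intro h hh
      rw [mem_range] at hh
      refine (shift_diff F hFn a N (d * h)).trans ?_
      have h2 : ((d * h : ℕ) : ℝ) ≤ D * q := by
        push_cast
        exact mul_le_mul hdD (by exact_mod_cast hh.le) (Nat.cast_nonneg _) (by linarith)
      linarith
    have h2 : (q : ℂ) * ∑ t ∈ range N, F (a + t) =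
        ∑ h ∈ range q, (∑ t ∈ range N, F (a + t) - ∑ t ∈ range N, F (a + t + (d * h : ℕ))) +
          ∑ h ∈ range q, ∑ t ∈ range N, F (a + t + (d * h : ℕ)) := by
      rw [← Finset.sum_add_distrib]
      simp only [sub_add_cancel]
      rw [Finset.sum_const, card_range, nsmul_eq_mul]
    have h3 : ∑ h ∈ range q, ∑ t ∈ range N, F (a + t + (d * h : ℕ)) =
        ∑ t ∈ range N, ψ (a + t) * ∑ h ∈ range q, Gf h t := by
      rw [Finset.sum_comm]
      refine Finset.sum_congr rfl fun t _ => ?_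
      rw [Finset.mul_sum]
      refine Finset.sum_congr rfl fun h _ => ?_
      rw [hF, hGf]
      simp only
      have h4 : PhiL (e :: l') (a + t + (d * h : ℕ)) =
          ψ (a + t + (d * h : ℕ)) * Φ (a + t + (d * h : ℕ)) := by simp [PhiL, hψ, hΦ]
      have h5 : ψ (a + t + (d * h : ℕ)) = ψ (a + t) := by
        have := hper.add_mul (a + t) h
        push_cast
        exact this
      rw [h4, h5]
      push_cast
      ring
    -- step 2: Cauchy-Schwarz
    have h6 : ‖∑ t ∈ range N, ψ (a + t) * ∑ h ∈ range q, Gf h t‖ ^ 2 ≤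
        N * ∑ t ∈ range N, ‖∑ h ∈ range q, Gf h t‖ ^ 2 := by
      have h7 : ‖∑ t ∈ range N, ψ (a + t) * ∑ h ∈ range q, Gf h t‖ ≤
          ∑ t ∈ range N, ‖∑ h ∈ range q, Gf h t‖ := by
        refine (norm_sum_le _ _).trans (Finset.sum_le_sum fun t _ => ?_)
        rw [norm_mul]
        calc ‖ψ (a + t)‖ * ‖∑ h ∈ range q, Gf h t‖ ≤ 1 * ‖∑ h ∈ range q, Gf h t‖ :=
              mul_le_mul_of_nonneg_right (hper.1 _) (norm_nonneg _)
          _ = _ := one_mul _
      have h8 := sq_sum_le_card_mul_sum_sq (s := range N) (f := fun t => ‖∑ h ∈ range q, Gf h t‖)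
      rw [card_range] at h8
      exact (pow_le_pow_left₀ (norm_nonneg _) h7 2).trans h8
    -- step 3: expand the square
    have h9 : ∑ t ∈ range N, ‖∑ h ∈ range q, Gf h t‖ ^ 2 ≤
        ∑ h ∈ range q, ∑ h' ∈ range q,
          ‖∑ t ∈ range N, Gf h t * (starRingEnd ℂ) (Gf h' t)‖ := by
      have h10 : ((∑ t ∈ range N, ‖∑ h ∈ range q, Gf h t‖ ^ 2 : ℝ) : ℂ) =
          ∑ h ∈ range q, ∑ h' ∈ range q, ∑ t ∈ range N, Gf h t * (starRingEnd ℂ) (Gf h' t) := by
        rw [Complex.ofReal_sum]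
        have h11 : ∀ t ∈ range N, ((‖∑ h ∈ range q, Gf h t‖ ^ 2 : ℝ) : ℂ) =
            ∑ h ∈ range q, ∑ h' ∈ range q, Gf h t * (starRingEnd ℂ) (Gf h' t) := by
          intro t _
          rw [← Complex.normSq_eq_norm_sq, ← Complex.mul_conj, map_sum, Finset.sum_mul_sum]
        rw [Finset.sum_congr rfl h11, Finset.sum_comm]
        refine Finset.sum_congr rfl fun h _ => ?_
        rw [Finset.sum_comm]
      have h12 : (∑ t ∈ range N, ‖∑ h ∈ range q, Gf h t‖ ^ 2 : ℝ) =
          ‖∑ h ∈ range q, ∑ h' ∈ range q, ∑ t ∈ range N, Gf h t * (starRingEnd ℂ) (Gf h' t)‖ := by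
        rw [← h10, Complex.norm_real, Real.norm_of_nonneg]
        exact Finset.sum_nonneg fun t _ => by positivity
      rw [h12]
      refine (norm_sum_le _ _).trans (Finset.sum_le_sum fun h _ => ?_)
      exact norm_sum_le _ _
    -- step 4: induction hypothesis
    have h13 : ∀ h h' : ℕ, ‖∑ t ∈ range N, Gf h t * (starRingEnd ℂ) (Gf h' t)‖ ≤
        N * (Gam k (Dl (((d : ℕ) : ZMod q) * ((h' : ZMod q) - (h : ZMod q))) g) +
          4 * η ^ ((1 / 2 : ℝ) ^ k)) := by
      intro h h'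
      set g' : ZMod q → ℂ := fun t => g (t + ((d * h : ℕ) : ZMod q)) *
        (starRingEnd ℂ) (g (t + ((d * h' : ℕ) : ZMod q))) with hg'
      set l'' : List (ℕ × (ℤ → ℂ)) := l'.map (fun e' => (e'.1, fun t : ℤ =>
        e'.2 (t + (d * h : ℕ)) * (starRingEnd ℂ) (e'.2 (t + (d * h' : ℕ))))) with hl''
      have e1 : l''.length = k := by rw [hl'', List.length_map, hl']
      have e2 : Good q D l'' := by
        intro e' he'
        rw [hl'', List.mem_map] at he'
        obtain ⟨e0, he0, rfl⟩ := he'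
        obtain ⟨p1, p2, p3⟩ := hgood' e0 he0
        refine ⟨⟨fun t => ?_, fun t => ?_⟩, p2, p3⟩
        · simp only
          rw [norm_mul, Complex.norm_conj]
          calc _ ≤ (1 : ℝ) * 1 := mul_le_mul (p1.1 _) (p1.1 _) (norm_nonneg _) zero_le_one
            _ = 1 := one_mul 1
        · simp only
          have q1 : t + (e0.1 : ℤ) + ((d * h : ℕ) : ℤ) = (t + ((d * h : ℕ) : ℤ)) + e0.1 := by ring
          have q2 : t + (e0.1 : ℤ) + ((d * h' : ℕ) : ℤ) = (t + ((d * h' : ℕ) : ℤ)) + e0.1 := by ring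
          rw [q1, q2, p1.2, p1.2]
      have e3 : ∀ t, ‖g' t‖ ≤ 1 := by
        intro t
        rw [hg']
        simp only
        rw [norm_mul, Complex.norm_conj]
        calc _ ≤ (1 : ℝ) * 1 := mul_le_mul (hg _) (hg _) (norm_nonneg _) zero_le_one
          _ = 1 := one_mul 1
      have e4 : ∀ t : ℤ, PhiL l'' t =
          Φ (t + (d * h : ℕ)) * (starRingEnd ℂ) (Φ (t + (d * h' : ℕ))) := by
        intro t
        rw [hl'', hΦ]
        clear_value g' l''
        clear ih hl hgood hl' hgood' e1 e2 hl'' hΦ hFn h1 h2 h3 h6 h9 hF hGf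
        induction l' with
        | nil => simp [PhiL]
        | cons e0 l0 ih0 =>
          have r1 : ∀ (e1 : ℕ × (ℤ → ℂ)) (l1 : List (ℕ × (ℤ → ℂ))) (s : ℤ),
              PhiL (e1 :: l1) s = e1.2 s * PhiL l1 s := by intro e1 l1 s; simp [PhiL]
          rw [List.map_cons, r1, r1, r1, ih0, map_mul]
          ring
      have e5 := ih l'' e1 e2 g' e3 a N hN hη
      have e6 : ∑ t ∈ range N, g' ((a + t : ℤ) : ZMod q) * PhiL l'' (a + t) =
          ∑ t ∈ range N, Gf h t * (starRingEnd ℂ) (Gf h' t) := by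
        refine Finset.sum_congr rfl fun t _ => ?_
        rw [e4, hg', hGf]
        simp only [map_mul]
        have r2 : ∀ h0 : ℕ, (((a + t + d * h0 : ℤ)) : ZMod q) =
            ((a + t : ℤ) : ZMod q) + ((d * h0 : ℕ) : ZMod q) := by
          intro h0; push_cast; ring
        rw [r2 h, r2 h']
        push_cast
        ring
      rw [e6] at e5
      have e7 : Gam k g' = Gam k (Dl (((d : ℕ) : ZMod q) * ((h' : ZMod q) - (h : ZMod q))) g) := by
        have r3 : g' = fun t => (Dl (((d : ℕ) : ZMod q) * ((h' : ZMod q) - (h : ZMod q))) g)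
            (t + ((d * h : ℕ) : ZMod q)) := by
          funext t
          rw [hg']
          unfold Dl
          simp only
          congr 3
          push_cast
          ring
        rw [r3, Gam_shift]
      rw [e7] at e5
      exact e5
    -- step 5: sum over h, h'
    have hdu : IsUnit ((d : ℕ) : ZMod q) := (ZMod.isUnit_iff_coprime d q).2 hcop
    have h14 : ∀ h : ℕ, ∑ h' ∈ range q,
        Gam k (Dl (((d : ℕ) : ZMod q) * ((h' : ZMod q) - (h : ZMod q))) g) =
        ∑ v : ZMod q, Gam k (Dl v g) := by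
      intro h
      rw [Finset.sum_range]
      refine Fintype.sum_bijective
        (fun i : Fin q => ((d : ℕ) : ZMod q) * (((i : ℕ) : ZMod q) - (h : ZMod q))) ?_ _ _
        (fun i => rfl)
      rw [Fintype.bijective_iff_injective_and_card]
      constructor
      · intro i j hij
        have h15 := hdu.mul_left_cancel hij
        have h16 : ((i : ℕ) : ZMod q) = ((j : ℕ) : ZMod q) := sub_left_injective h15
        have h17 := congrArg ZMod.val h16
        rw [ZMod.val_natCast_of_lt i.2, ZMod.val_natCast_of_lt j.2] at h17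
        exact Fin.ext h17
      · simp
    set A : ℝ := (q : ℝ)⁻¹ * ∑ v : ZMod q, Gam k (Dl v g) with hA
    have hA0 : 0 ≤ A := mul_nonneg (by positivity) (Finset.sum_nonneg fun v _ => Gam_nonneg k _)
    have h18 : ∑ h ∈ range q, ∑ h' ∈ range q,
          ‖∑ t ∈ range N, Gf h t * (starRingEnd ℂ) (Gf h' t)‖ ≤
        (q : ℝ) ^ 2 * N * (A + 4 * η ^ ((1 / 2 : ℝ) ^ k)) := by
      calc ∑ h ∈ range q, ∑ h' ∈ range q, ‖∑ t ∈ range N, Gf h t * (starRingEnd ℂ) (Gf h' t)‖
          ≤ ∑ h ∈ range q, ∑ h' ∈ range q,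
            ((N : ℝ) * (Gam k (Dl (((d : ℕ) : ZMod q) * ((h' : ZMod q) - (h : ZMod q))) g) +
              4 * η ^ ((1 / 2 : ℝ) ^ k))) :=
            Finset.sum_le_sum fun h _ => Finset.sum_le_sum fun h' _ => h13 h h'
        _ = ∑ h ∈ range q, ((N : ℝ) * (q * A) + q * (N * (4 * η ^ ((1 / 2 : ℝ) ^ k)))) := by
            refine Finset.sum_congr rfl fun h _ => ?_
            rw [← Finset.mul_sum, Finset.sum_add_distrib, h14 h, Finset.sum_const, card_range,
              nsmul_eq_mul]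
            have : (q : ℝ) * A = ∑ v : ZMod q, Gam k (Dl v g) := by
              rw [hA, ← mul_assoc, mul_inv_cancel₀ hq.ne', one_mul]
            rw [this]
            ring
        _ = _ := by
            rw [Finset.sum_const, card_range, nsmul_eq_mul]
            ring
    -- step 6: conclusion
    have h19 : ‖∑ t ∈ range N, ψ (a + t) * ∑ h ∈ range q, Gf h t‖ ≤
        q * N * (Real.sqrt A + 2 * η ^ ((1 / 2 : ℝ) ^ (k + 1))) := by
      apply abs_le_of_sq_le_sq' _ (by positivity) |>.2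
      have h20 : 0 ≤ η ^ ((1 / 2 : ℝ) ^ (k + 1)) := by positivity
      have h21 : (η ^ ((1 / 2 : ℝ) ^ (k + 1))) ^ 2 = η ^ ((1 / 2 : ℝ) ^ k) := by
        rw [← Real.rpow_natCast, ← Real.rpow_mul hη0.le]
        congr 1
        push_cast
        rw [pow_succ]
        ring
      have h22 : A + 4 * η ^ ((1 / 2 : ℝ) ^ k) ≤
          (Real.sqrt A + 2 * η ^ ((1 / 2 : ℝ) ^ (k + 1))) ^ 2 := by
        have h23 : Real.sqrt A ^ 2 = A := Real.sq_sqrt hA0
        have h24 : 0 ≤ Real.sqrt A * η ^ ((1 / 2 : ℝ) ^ (k + 1)) := by positivity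
        rw [← h21]
        nlinarith
      calc ‖∑ t ∈ range N, ψ (a + t) * ∑ h ∈ range q, Gf h t‖ ^ 2
          ≤ N * ∑ t ∈ range N, ‖∑ h ∈ range q, Gf h t‖ ^ 2 := h6
        _ ≤ N * ((q : ℝ) ^ 2 * N * (A + 4 * η ^ ((1 / 2 : ℝ) ^ k))) :=
            mul_le_mul_of_nonneg_left (h9.trans h18) hN0.le
        _ = (q * N) ^ 2 * (A + 4 * η ^ ((1 / 2 : ℝ) ^ k)) := by ring
        _ ≤ (q * N) ^ 2 * (Real.sqrt A + 2 * η ^ ((1 / 2 : ℝ) ^ (k + 1))) ^ 2 :=
            mul_le_mul_of_nonneg_left h22 (by positivity)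
        _ = _ := by ring
    have h25 : (q : ℝ) * ‖∑ t ∈ range N, F (a + t)‖ ≤
        q * (2 * (D * q)) + q * N * (Real.sqrt A + 2 * η ^ ((1 / 2 : ℝ) ^ (k + 1))) := by
      have h26 : (q : ℝ) * ‖∑ t ∈ range N, F (a + t)‖ = ‖(q : ℂ) * ∑ t ∈ range N, F (a + t)‖ := by
        rw [norm_mul, Complex.norm_natCast]
      rw [h26, h2]
      refine (norm_add_le _ _).trans (add_le_add ?_ ?_)
      · refine (norm_sum_le _ _).trans ((Finset.sum_le_sum h1).trans ?_)
        rw [Finset.sum_const, card_range, nsmul_eq_mul]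
      · rw [h3]
        exact h19
    have h27 : ‖∑ t ∈ range N, F (a + t)‖ ≤
        2 * (D * q) + N * (Real.sqrt A + 2 * η ^ ((1 / 2 : ℝ) ^ (k + 1))) := by
      have h28 : (q : ℝ) * ‖∑ t ∈ range N, F (a + t)‖ ≤
          q * (2 * (D * q) + N * (Real.sqrt A + 2 * η ^ ((1 / 2 : ℝ) ^ (k + 1)))) := by
        refine h25.trans (le_of_eq ?_)
        ring
      exact le_of_mul_le_mul_left h28 hq
    have h29 : D * q = N * η := by rw [hηdef]; field_simp
    have h30 : η ≤ η ^ ((1 / 2 : ℝ) ^ (k + 1)) := by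
      conv_lhs => rw [← Real.rpow_one η]
      apply Real.rpow_le_rpow_of_exponent_ge hη0 hη
      apply pow_le_one₀ <;> norm_num
    have h31 : ∑ t ∈ range N, g ((a + t : ℤ) : ZMod q) * PhiL (e :: l') (a + t) =
        ∑ t ∈ range N, F (a + t) := rfl
    rw [h31]
    show _ ≤ (N : ℝ) * (Real.sqrt A + 4 * η ^ ((1 / 2 : ℝ) ^ (k + 1)))
    refine h27.trans ?_
    rw [h29]
    have h32 : (N : ℝ) * η ≤ N * η ^ ((1 / 2 : ℝ) ^ (k + 1)) :=
      mul_le_mul_of_nonneg_left h30 hN0.le
    nlinarith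

end Pool.Agent.TH43.LQ
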